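import Pool.Agent.Work.MP_6e2e82_co.Interface

/-!
Block C of MP_6e2e82_co: the frozen statement from the relation form.
-/

set_option autoImplicit false
open MeasureTheory

namespace Pool.MP6e

variable {α : Type} [Fintype α]

/-- an acyclic relation has a linear extension -/
lemma LE_nonempty {n : ℕ} (hn : Fintype.card α = n) (r : α → α → Prop) (rk : α → ℕ)
    (hr : ∀ a b, r a b → rk a < rk b) : (LE n r).Nonempty := by
  classical
  let e : α ≃ Fin n := Fintype.equivFinOfCardEq hn
  let x : α → ℝ := fun a => (rk a : ℝ) + (e a : ℕ) / ((n : ℝ) + 1)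
  have hn1 : (0 : ℝ) < (n : ℝ) + 1 := by positivity
  have hfrac : ∀ a, (0 : ℝ) ≤ ((e a : ℕ) : ℝ) / ((n : ℝ) + 1) ∧
      ((e a : ℕ) : ℝ) / ((n : ℝ) + 1) < 1 := by
    intro a
    refine ⟨by positivity, ?_⟩
    rw [div_lt_one hn1]
    have : ((e a : ℕ) : ℝ) < n := by exact_mod_cast (e a).isLt
    linarith
  have hlt : ∀ a b, rk a < rk b → x a < x b := by
    intro a b h
    have h1 : ((rk a : ℝ)) + 1 ≤ rk b := by exact_mod_cast h
    have h2 := hfrac a
    have h3 := hfrac b
    simp only [x]
    linarith
  have hinj : Function.Injective x := by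
    intro a b hab
    rcases lt_trichotomy (rk a) (rk b) with h | h | h
    · exact absurd hab (hlt a b h).ne
    · simp only [x, h, add_right_inj] at hab
      rw [div_left_inj' hn1.ne'] at hab
      have : (e a : ℕ) = (e b : ℕ) := by exact_mod_cast hab
      exact e.injective (Fin.ext this)
    · exact absurd hab (hlt b a h).ne'
  obtain ⟨f, hf⟩ := exists_sort hn x hinj
  exact ⟨f, mem_LE.2 fun a b hab => (hf a b).2 (hlt a b (hr a b hab))⟩

/-- the order region of an acyclic relation has positive volume -/
theorem V_pos (r : α → α → Prop) (rk : α → ℕ) (hr : ∀ a b, r a b → rk a < rk b) : 0 < V r := by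
  rw [V_eq rfl r]
  have h := (LE_nonempty rfl r rk hr).card_pos
  have h1 : (0 : ℝ) < ((LE (Fintype.card α) r).card : ℝ) := by exact_mod_cast h
  have h2 : (0 : ℝ) < ((Fintype.card α).factorial : ℝ) := by positivity
  exact div_pos h1 h2

omit [Fintype α] in
lemma rtg_rank {r : α → α → Prop} {rk : α → ℕ} (hr : ∀ a b, r a b → rk a < rk b) {a b : α}
    (h : Relation.ReflTransGen r a b) : a = b ∨ rk a < rk b := by
  induction h with
  | refl => exact Or.inl rfl
  | tail _ hbc ih =>
    rcases ih with rfl | ih
    · exact Or.inr (hr _ _ hbc)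
    · exact Or.inr (ih.trans (hr _ _ hbc))

/-- the partial order generated by an acyclic relation -/
@[reducible]
def genOrder (r : α → α → Prop) (rk : α → ℕ) (hr : ∀ a b, r a b → rk a < rk b) :
    PartialOrder α where
  le := Relation.ReflTransGen r
  le_refl _ := Relation.ReflTransGen.refl
  le_trans _ _ _ := Relation.ReflTransGen.trans
  le_antisymm a b hab hba := by
    rcases rtg_rank hr hab with h | h
    · exact h
    · rcases rtg_rank hr hba with h' | h'
      · exact h'.symm
      · omega

theorem blockC : BlockC := by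
  rintro hmain ⟨γ, hγ, hall⟩
  obtain ⟨α, hfin, r, rk, hr, ⟨a, b, hab, hrk⟩, hgap⟩ := hmain γ hγ
  let _ := genOrder r rk hr
  have hinc : ∃ a b : α, ¬ a ≤ b ∧ ¬ b ≤ a := by
    refine ⟨a, b, fun h => ?_, fun h => ?_⟩
    · rcases rtg_rank hr h with h | h
      · exact hab h
      · omega
    · rcases rtg_rank hr h with h | h
      · exact hab h.symm
      · omega
  have hL : ∀ f : α ≃ Fin (Fintype.card α), f ∈ LE (Fintype.card α) r ↔
      ∀ x y : α, x < y → f x < f y := by
    intro f
    rw [mem_LE]
    constructor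
    · intro hf x y hxy
      have hle : Relation.ReflTransGen r x y := hxy.le
      have key : ∀ z, Relation.ReflTransGen r x z → x = z ∨ f x < f z := by
        intro z hz
        induction hz with
        | refl => exact Or.inl rfl
        | tail _ hbc ih =>
          rcases ih with rfl | ih
          · exact Or.inr (hf _ _ hbc)
          · exact Or.inr (ih.trans (hf _ _ hbc))
      rcases key y hle with h | h
      · exact absurd h hxy.ne
      · exact h
    · intro hf x y hxy
      apply hf
      have hle : x ≤ y := Relation.ReflTransGen.single hxy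
      refine lt_of_le_of_ne hle ?_
      rintro rfl
      exact lt_irrefl _ (hr _ _ hxy)
  obtain ⟨x, y, hxy, h0, h1⟩ := hall α hinc (LE (Fintype.card α) r) hL
  have hV : V r ≠ 0 := (V_pos r rk hr).ne'
  have hx := avg_eq rfl r x hV
  have hy := avg_eq rfl r y hV
  have h2 := hgap x y hxy
  have h3 : (∑ f ∈ LE (Fintype.card α) r, ((f y : ℕ) : ℝ)) / ((LE (Fintype.card α) r).card : ℝ) -
      (∑ f ∈ LE (Fintype.card α) r, ((f x : ℕ) : ℝ)) / ((LE (Fintype.card α) r).card : ℝ) =
      ((Fintype.card α : ℝ) + 1) * (Mo r y / V r) - ((Fintype.card α : ℝ) + 1) * (Mo r x / V r) := by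
    rw [hx, hy]; ring
  rw [h3] at h0 h1
  rw [abs_of_nonneg h0] at h2
  linarith

end Pool.MP6e
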