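import Pool.Agent.Work.MP_6e2e82_co.QN

set_option autoImplicit false
set_option linter.unusedSectionVars false
open MeasureTheory Filter Topology Set

namespace Pool.MP6e

/-- the mass is eventually positive -/
lemma J_pos_eventually {A B ι : Type*} [Fintype A] [Fintype B] [Fintype ι]
    (rA : A → A → Prop) (rB : B → B → Prop) (τ : ι → A) (σ : ι → B)
    (hA : Integrable (fA rA τ)) (hB : Integrable (fA rB σ)) (hZA : 0 < ZA rA τ) (hZB : 0 < ZA rB σ) :
    ∀ᶠ n : ℕ in atTop, 0 < J rA rB τ σ n (fun _ => 1) := by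
  have h2 := fn_integral_tendsto rA rB τ σ (fun _ => 1) (by fun_prop)
    (by simpa using integrable_fD rA rB τ σ hA hB)
  simp only [one_mul] at h2
  rw [integral_fD] at h2
  have h3 := h2.eventually (lt_mem_nhds (mul_pos hZA hZB))
  filter_upwards [h3, eventually_gt_atTop 0] with n h4 hn
  rw [J_eq_fn _ _ _ _ _ n hn] at h4
  exact (mul_pos_iff_of_pos_left (by positivity)).1 h4

theorem spine_limit {M Λ : ℕ} (ν : Fin M → Fin Λ) (T : Fin Λ → ℝ)
    (h1 : Integrable (fA (fun i j : Fin Λ => i < j) ν))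
    (h2 : ∀ i, Integrable (fun X : Fin Λ → ℝ => X i * fA (fun i j : Fin Λ => i < j) ν X))
    (h3 : 0 < ZA (fun i j : Fin Λ => i < j) ν)
    (h4 : ∀ i, NA (fun i j : Fin Λ => i < j) ν i / ZA (fun i j : Fin Λ => i < j) ν = T i)
    (η : ℝ) (hη : 0 < η) :
    ∃ n0 : ℕ, ∀ (κ : Type) [Fintype κ] [Nonempty κ] (rκ : κ → κ → Prop), n0 ≤ Fintype.card κ → 0 < V rκ →
      0 < V (rP (fun i j : Fin Λ => i < j) (fun i j : Fin Λ => i < j) rκ ν (ν ∘ Fin.rev)) ∧
      (∀ i, |(Fintype.card κ : ℝ) *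
        (Mo (rP (fun i j : Fin Λ => i < j) (fun i j : Fin Λ => i < j) rκ ν (ν ∘ Fin.rev)) (.inl (.inl i)) /
          V (rP (fun i j : Fin Λ => i < j) (fun i j : Fin Λ => i < j) rκ ν (ν ∘ Fin.rev))) - T i| ≤ η) ∧
      (∀ i, |(Fintype.card κ : ℝ) *
        (1 - Mo (rP (fun i j : Fin Λ => i < j) (fun i j : Fin Λ => i < j) rκ ν (ν ∘ Fin.rev)) (.inl (.inr i)) /
          V (rP (fun i j : Fin Λ => i < j) (fun i j : Fin Λ => i < j) rκ ν (ν ∘ Fin.rev))) - T i| ≤ η) := by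
  set rA : Fin Λ → Fin Λ → Prop := fun i j : Fin Λ => i < j with hrA
  have hf : fA rA (ν ∘ Fin.rev) = fA rA ν := fA_comp_equiv rA ν Fin.revPerm
  have hZ2 : ZA rA (ν ∘ Fin.rev) = ZA rA ν := by unfold ZA; rw [hf]
  have hN2 : ∀ b, NA rA (ν ∘ Fin.rev) b = NA rA ν b := by intro b; unfold NA; rw [hf]
  have i2 : Integrable (fA rA (ν ∘ Fin.rev)) := by rw [hf]; exact h1
  have evb : ∀ᶠ N : ℕ in atTop, ∀ a : Fin Λ, |(N : ℝ) * (J rA rA ν (ν ∘ Fin.rev) N (fun u => u (.inl a)) /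
      J rA rA ν (ν ∘ Fin.rev) N (fun _ => 1)) - T a| ≤ η := by
    rw [eventually_all]
    intro a
    have := limit_bot rA rA ν (ν ∘ Fin.rev) a h1 (h2 a) i2 h3.ne' (by rw [hZ2]; exact h3.ne')
    rw [h4 a, Metric.tendsto_atTop] at this
    obtain ⟨N1, hN1⟩ := this η hη
    filter_upwards [eventually_ge_atTop N1] with N hN
    exact (hN1 N hN).le
  have evt : ∀ᶠ N : ℕ in atTop, ∀ a : Fin Λ, |(N : ℝ) * (J rA rA ν (ν ∘ Fin.rev) N (fun u => u (.inr a)) /
      J rA rA ν (ν ∘ Fin.rev) N (fun _ => 1)) - T a| ≤ η := by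
    rw [eventually_all]
    intro a
    have := limit_top rA rA ν (ν ∘ Fin.rev) a h1 i2 (by rw [hf]; exact h2 a) h3.ne' (by rw [hZ2]; exact h3.ne')
    rw [hN2, hZ2, h4 a, Metric.tendsto_atTop] at this
    obtain ⟨N1, hN1⟩ := this η hη
    filter_upwards [eventually_ge_atTop N1] with N hN
    exact (hN1 N hN).le
  have evp := J_pos_eventually rA rA ν (ν ∘ Fin.rev) h1 i2 h3 (by rw [hZ2]; exact h3)
  obtain ⟨n0, hn0⟩ := eventually_atTop.1 (evb.and (evt.and evp))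
  refine ⟨n0, fun κ _ _ rκ hκ hV => ?_⟩
  obtain ⟨hb, ht, hp⟩ := hn0 _ hκ
  have hVc := V_comp rA rA rκ ν (ν ∘ Fin.rev)
  have hVM : V rκ ^ Fintype.card (Fin M) ≠ 0 := pow_ne_zero _ hV.ne'
  refine ⟨?_, fun i => ?_, fun i => ?_⟩
  · rw [hVc]
    exact mul_pos (pow_pos hV _) hp
  · have := Mo_comp_bot rA rA rκ ν (ν ∘ Fin.rev) i
    rw [this, hVc, mul_div_mul_left _ _ hVM]
    exact hb i
  · have hmo := Mo_comp_top rA rA rκ ν (ν ∘ Fin.rev) i
    have hJ : J rA rA ν (ν ∘ Fin.rev) (Fintype.card κ) (fun u => 1 - u (.inr i)) =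
        J rA rA ν (ν ∘ Fin.rev) (Fintype.card κ) (fun _ => 1) -
        J rA rA ν (ν ∘ Fin.rev) (Fintype.card κ) (fun u => u (.inr i)) := by
      unfold J
      rw [← integral_sub]
      · refine setIntegral_congr_fun (measurableSet_O _) fun u _ => ?_
        simp only
        ring
      · exact J_integrable _ _ _ _ _ (fun _ => 1) measurable_const 1 (fun _ _ => by simp)
      · exact J_integrable _ _ _ _ _ (fun u => u (.inr i)) (by fun_prop) 1
          (fun u hu => by rw [abs_of_pos (hu.1 _).1]; exact (hu.1 _).2.le)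
    rw [hmo, hVc, mul_div_mul_left _ _ hVM, hJ, sub_div, div_self hp.ne', sub_sub_cancel]
    exact ht i

end Pool.MP6e
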