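import Pool.Agent.Work.MP_6e2e82_co.Interface

/-!
Block P of MP_6e2e82_co: choice of the parameters.
-/

set_option autoImplicit false
open Filter Topology

namespace Pool.MP6e

lemma theta_tendsto : Tendsto (fun s : ℕ => theta (2 * s ^ 2 + 1) s) atTop (𝓝 0) := by
  have h := tendsto_pow_const_mul_const_pow_of_abs_lt_one 19 (r := (800 / 841 : ℝ))
    (by rw [abs_of_pos] <;> norm_num)
  have h2 := h.const_mul (10 ^ 6 * 3 ^ 8 : ℝ)
  rw [mul_zero] at h2
  refine squeeze_zero' (Eventually.of_forall fun s => ?_) ?_ h2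
  · unfold theta; positivity
  · filter_upwards [eventually_ge_atTop 1] with s hs
    unfold theta
    have hs' : (1 : ℝ) ≤ s := by exact_mod_cast hs
    have h3 : (((2 * s ^ 2 + 1 : ℕ)) : ℝ) ≤ 3 * (s : ℝ) ^ 2 := by
      push_cast
      nlinarith
    have h4 : (((2 * s ^ 2 + 1 : ℕ)) : ℝ) ^ 8 ≤ (3 * (s : ℝ) ^ 2) ^ 8 :=
      pow_le_pow_left₀ (by positivity) h3 8
    have h5 : (0 : ℝ) ≤ 10 ^ 6 * (s : ℝ) ^ 3 := by positivity
    have h6 : (0 : ℝ) ≤ (800 / 841) ^ s := by positivity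
    calc 10 ^ 6 * (s : ℝ) ^ 3 * (((2 * s ^ 2 + 1 : ℕ)) : ℝ) ^ 8 * (800 / 841) ^ s
        ≤ 10 ^ 6 * (s : ℝ) ^ 3 * (3 * (s : ℝ) ^ 2) ^ 8 * (800 / 841) ^ s :=
          mul_le_mul_of_nonneg_right (mul_le_mul_of_nonneg_left h4 h5) h6
      _ = 10 ^ 6 * 3 ^ 8 * ((s : ℝ) ^ 19 * (800 / 841) ^ s) := by ring

lemma x_tendsto : Tendsto (fun s : ℕ => (((2 * s ^ 2 + 1 : ℕ)) : ℝ) ^ 2 * mu s) atTop (𝓝 0) := by
  have h := tendsto_pow_const_mul_const_pow_of_abs_lt_one 5 (r := (1 / 2 : ℝ))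
    (by rw [abs_of_pos] <;> norm_num)
  have h2 := h.const_mul (9 / 2 : ℝ)
  rw [mul_zero] at h2
  refine squeeze_zero' (Eventually.of_forall fun s => ?_) ?_ h2
  · unfold mu; positivity
  · filter_upwards [eventually_ge_atTop 1] with s hs
    unfold mu
    have hs' : (1 : ℝ) ≤ s := by exact_mod_cast hs
    have h3 : (((2 * s ^ 2 + 1 : ℕ)) : ℝ) ≤ 3 * (s : ℝ) ^ 2 := by
      push_cast
      nlinarith
    have h4 : (((2 * s ^ 2 + 1 : ℕ)) : ℝ) ^ 2 ≤ (3 * (s : ℝ) ^ 2) ^ 2 :=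
      pow_le_pow_left₀ (by positivity) h3 2
    have h6 : (0 : ℝ) ≤ (s : ℝ) * (1 / 2) ^ s / 2 := by positivity
    calc (((2 * s ^ 2 + 1 : ℕ)) : ℝ) ^ 2 * ((s : ℝ) * (1 / 2) ^ s / 2)
        ≤ (3 * (s : ℝ) ^ 2) ^ 2 * ((s : ℝ) * (1 / 2) ^ s / 2) :=
          mul_le_mul_of_nonneg_right h4 h6
      _ = 9 / 2 * ((s : ℝ) ^ 5 * (1 / 2) ^ s) := by ring

lemma eg_tendsto : Tendsto (fun s : ℕ => ((s : ℝ) + 4) / (((2 * s ^ 2 + 1 : ℕ)) : ℝ)) atTop
    (𝓝 0) := by
  have h : Tendsto (fun s : ℕ => (5 : ℝ) / (s : ℝ)) atTop (𝓝 0) := tendsto_const_div_atTop_nhds_zero_nat 5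
  refine squeeze_zero' (Eventually.of_forall fun s => by positivity) ?_ h
  filter_upwards [eventually_ge_atTop 1] with s hs
  have hs' : (1 : ℝ) ≤ s := by exact_mod_cast hs
  rw [div_le_div_iff₀ (by positivity) (by positivity)]
  push_cast
  nlinarith

lemma harm_le (M : ℕ) : ∑ R ∈ Finset.range M, 1 / ((R : ℝ) + 1) ≤ 1 + Real.log M := by
  have h := harmonic_le_one_add_log M
  have : ((harmonic M : ℚ) : ℝ) = ∑ R ∈ Finset.range M, 1 / ((R : ℝ) + 1) := by
    unfold harmonic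
    push_cast
    refine Finset.sum_congr rfl fun R _ => ?_
    rw [one_div]
  rw [← this]
  exact h

theorem blockP : BlockP := by
  intro γ hγ
  set δ : ℝ := min γ 1 / 10 with hδ
  have hδpos : 0 < δ := by
    have : 0 < min γ 1 := lt_min hγ one_pos
    positivity
  have hδγ : 10 * δ ≤ γ := by
    have := min_le_left γ 1
    rw [hδ]; linarith
  have hδ1 : 10 * δ ≤ 1 := by
    have := min_le_right γ 1
    rw [hδ]; linarith
  have h1 := theta_tendsto.eventually_le_const hδpos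
  have h2 := x_tendsto.eventually_le_const hδpos
  have h3 := eg_tendsto.eventually_le_const hδpos
  obtain ⟨s, hθ, hx, heg, hs⟩ := (h1.and (h2.and (h3.and (eventually_ge_atTop 5)))).exists
  set g : ℕ := 2 * s ^ 2 + 1 with hg
  set x : ℝ := (g : ℝ) ^ 2 * mu s with hxdef
  have hsR : (5 : ℝ) ≤ s := by exact_mod_cast hs
  have hmu : 0 < mu s := by unfold mu; positivity
  have hgR : (1 : ℝ) ≤ g := by
    have : 1 ≤ g := by omega
    exact_mod_cast this
  have hxpos : 0 < x := by positivity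
  have heg' : s + 4 < g := by
    rw [hg]
    nlinarith
  set q : ℕ := ⌊1 / x⌋₊ with hq
  have hq1 : (q : ℝ) ≤ 1 / x := Nat.floor_le (by positivity)
  have hq2 : 1 / x < q + 1 := Nat.lt_floor_add_one _
  have hqx : (q : ℝ) * x ≤ 1 := by
    rw [le_div_iff₀ hxpos] at hq1
    exact hq1
  have hqx' : 1 < ((q : ℝ) + 1) * x := by
    rw [div_lt_iff₀ hxpos] at hq2
    exact hq2
  have hqone : 1 ≤ q := by
    rw [hq, Nat.one_le_floor_iff, le_div_iff₀ hxpos]
    linarith
  have hqR : (1 : ℝ) ≤ q := by exact_mod_cast hqone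
  set M : ℕ := q * (g - (s + 4)) with hM
  have hge : (((g - (s + 4) : ℕ)) : ℝ) = (g : ℝ) - ((s : ℝ) + 4) := by
    rw [Nat.cast_sub heg'.le]
    push_cast
    ring
  have hMR : (M : ℝ) = q * ((g : ℝ) - ((s : ℝ) + 4)) := by
    rw [hM]
    push_cast [hge]
    ring
  have hge1 : (1 : ℝ) ≤ (g : ℝ) - ((s : ℝ) + 4) := by
    have : s + 4 + 1 ≤ g := heg'
    have h : ((s + 4 + 1 : ℕ) : ℝ) ≤ g := by exact_mod_cast this
    push_cast at h
    linarith
  have hM1 : (1 : ℝ) ≤ M := by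
    rw [hMR]
    nlinarith
  have hMq : (M : ℝ) / q = (g : ℝ) - ((s : ℝ) + 4) := by
    rw [hMR]
    field_simp
  have hgpos : (0 : ℝ) < g := by linarith
  set ρ : ℝ := ((s : ℝ) + 4) / (g : ℝ) with hρ
  have hρg : ρ * g = (s : ℝ) + 4 := by
    rw [hρ]; field_simp
  have hρ0 : 0 ≤ ρ := by positivity
  -- M g mu = q x (1 - ρ)
  have hMgm : (M : ℝ) * g * mu s = (q * x) * (1 - ρ) := by
    rw [hMR, hxdef]
    have : (g : ℝ) - ((s : ℝ) + 4) = g * (1 - ρ) := by
      rw [← hρg]; ring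
    rw [this]
    ring
  have hρle : ρ ≤ δ := heg
  have hupper : (M : ℝ) * g * mu s ≤ 1 - ρ := by
    rw [hMgm]
    have : (q * x) * (1 - ρ) ≤ 1 * (1 - ρ) := mul_le_mul_of_nonneg_right hqx (by linarith)
    linarith
  have hlower : 1 - 2 * δ ≤ (M : ℝ) * g * mu s := by
    rw [hMgm]
    have h4 : 1 - δ ≤ q * x := by
      have : 1 < q * x + x := by linarith [hqx', (by ring : ((q : ℝ) + 1) * x = q * x + x)]
      linarith
    have h5 : (1 - δ) * (1 - δ) ≤ (q * x) * (1 - ρ) :=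
      mul_le_mul h4 (by linarith) (by linarith) (by positivity)
    nlinarith
  have hθ0 : 0 ≤ theta g s := by unfold theta; positivity
  have hMlog : Real.log M ≤ s := by
    have h9 : (M : ℝ) ≤ 2 ^ s := by
      have h10 : (M : ℝ) * (g * mu s) ≤ 1 := by
        have : (M : ℝ) * (g * mu s) = M * g * mu s := by ring
        rw [this]; linarith
      have h11 : (1 : ℝ) ≤ 2 ^ s * (g * mu s) := by
        unfold mu
        have : (2 : ℝ) ^ s * (g * (s * (1 / 2) ^ s / 2)) = (g : ℝ) * s / 2 * (2 ^ s * (1 / 2) ^ s) := by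
          ring
        rw [this, ← mul_pow]
        norm_num
        nlinarith
      have h12 : 0 < (g : ℝ) * mu s := by positivity
      by_contra hcon
      push Not at hcon
      have := mul_lt_mul_of_pos_right hcon h12
      linarith
    have h13 : Real.log M ≤ Real.log ((2 : ℝ) ^ s) := Real.log_le_log (by linarith) h9
    rw [Real.log_pow] at h13
    have h14 : Real.log 2 ≤ 1 := by
      have := Real.log_two_lt_d9
      linarith
    nlinarith
  have hH := harm_le M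
  have hfin : 4 + 1 ≤ s := hs
  refine ⟨s, g, s ^ 2, q, M, s + 4, by omega, hg, ?_, heg', hqone, hM, ?_⟩
  · nlinarith
  generalize hm' : mu s = m at *
  generalize ht' : theta g s = t at *
  generalize hH' : ∑ R ∈ Finset.range M, 1 / ((R : ℝ) + 1) = H at *
  generalize hG : (g : ℝ) = G at *
  generalize hMM : (M : ℝ) = N at *
  generalize hSS : (s : ℝ) = S at *
  generalize hQQ : (q : ℝ) = Q at *
  clear_value x ρ
  clear hm' ht' hH' hG hMM hSS hQQ
  refine ⟨by linarith, by linarith, ?_, ?_, ?_⟩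
  · have h5 : (1 - 2 * δ) * (1 - 2 * δ) ≤ N * G * m * (1 - 2 * t) :=
      mul_le_mul hlower (by linarith) (by linarith) (by linarith)
    nlinarith
  · rw [hMq]
    have h6 : N * G * m * (G - 1 + 2 * t) ≤ (1 - ρ) * (G - 1 + 2 * t) :=
      mul_le_mul_of_nonneg_right hupper (by linarith)
    have h7 : (1 - ρ) * (G - 1 + 2 * t) =
        G - ρ * G - 1 + ρ + 2 * t * (1 - ρ) := by ring
    have h8 : 2 * t * (1 - ρ) ≤ 2 * t := by nlinarith
    rw [h7, hρg] at h6
    linarith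
  · rw [hMq]
    have h15 : G * (1 - m * (G - 1) - 2 * t * m) ≥ G - x := by
      have : G * (1 - m * (G - 1) - 2 * t * m) =
          G - x + G * m * (1 - 2 * t) := by
        rw [hxdef]; ring
      rw [this]
      have : 0 ≤ G * m * (1 - 2 * t) := by
        apply mul_nonneg (by positivity)
        linarith
      linarith
    have h16 : 2 ≤ G * (1 - m * (G - 1) - 2 * t * m) - ((G - (S + 4)) + H) := by
      linarith
    nlinarith

end Pool.MP6e
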