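import Pool.Agent.Work.MP_6e2e82_co.Interface

/-!
Block S of MP_6e2e82_co: the spine.
-/

set_option autoImplicit false
set_option linter.unusedSectionVars false
set_option linter.unusedVariables false
open MeasureTheory Filter Topology Set

namespace Pool.MP6e

/-! ### Heights on a spine with weights -/

lemma PS_mem_Cn {s : ℕ} (ξ : Fin s → ℝ) :
    PS s ξ ∈ Cn (fun i j : Fin s => i < j) ↔ ξ ∈ orth (Fin s) := by
  have h := Lm_mem_Cn (K := Unit) (s := s) (fun p => ξ p.2)
  constructor
  · rintro ⟨h1, h2⟩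
    have h3 : (fun p : Unit × Fin s => ξ p.2) ∈ orth (Unit × Fin s) := by
      apply h.1
      exact ⟨fun p => h1 p.2, fun p q hpq => h2 p.2 q.2 hpq.2⟩
    exact fun a => h3 ((), a)
  · intro h1
    have h3 := h.2 (fun p => h1 p.2)
    exact ⟨fun j => h3.1 ((), j), fun i j hij => h3.2 ((), i) ((), j) ⟨rfl, hij⟩⟩

section core
variable {M Λ : ℕ} (ν : Fin M → Fin Λ)

/-- number of copies not yet released at spine element `i` -/
noncomputable def wt (i : Fin Λ) : ℝ := ((Finset.univ.filter fun l => i ≤ ν l).card : ℝ)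

lemma sum_PS (ξ : Fin Λ → ℝ) : ∑ l, PS Λ ξ (ν l) = ∑ i, wt ν i * ξ i := by
  have h1 : ∀ l, PS Λ ξ (ν l) = ∑ i, if i ≤ ν l then ξ i else 0 := by
    intro l
    rw [← Finset.sum_filter]
    unfold PS
    congr 1
    ext i
    simp
  simp_rw [h1]
  rw [Finset.sum_comm]
  refine Finset.sum_congr rfl fun i _ => ?_
  rw [← Finset.sum_filter, Finset.sum_const, nsmul_eq_mul]
  rfl

lemma fA_PS (ξ : Fin Λ → ℝ) :
    fA (fun i j : Fin Λ => i < j) ν (PS Λ ξ) = gw (wt ν) ξ := by
  unfold fA gw
  by_cases h : ξ ∈ orth (Fin Λ)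
  · rw [indicator_of_mem h, indicator_of_mem ((PS_mem_Cn ξ).2 h), sum_PS]
  · rw [indicator_of_notMem h, indicator_of_notMem (fun h' => h ((PS_mem_Cn ξ).1 h'))]

lemma measurable_fA {A ι : Type*} [Fintype A] [Fintype ι] (rA : A → A → Prop) (τ : ι → A) :
    Measurable (fA rA τ) := by
  unfold fA
  refine Measurable.indicator ?_ (measurableSet_Cn rA)
  fun_prop

lemma comp_PS (F : (Fin Λ → ℝ) → ℝ) (hF : Measurable F) :
    ∫ X, F X * fA (fun i j : Fin Λ => i < j) ν X = ∫ ξ, F (PS Λ ξ) * gw (wt ν) ξ := by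
  have h := (mp_PS Λ).map_eq
  have hm : Measurable fun X => F X * fA (fun i j : Fin Λ => i < j) ν X :=
    hF.mul (measurable_fA _ _)
  conv_lhs => rw [← h]
  rw [integral_map (mp_PS Λ).measurable.aemeasurable hm.aestronglyMeasurable]
  simp_rw [fA_PS]

lemma integrable_PS (F : (Fin Λ → ℝ) → ℝ) (hF : Measurable F)
    (hI : Integrable fun ξ => F (PS Λ ξ) * gw (wt ν) ξ) :
    Integrable fun X => F X * fA (fun i j : Fin Λ => i < j) ν X := by
  have hm : Measurable fun X => F X * fA (fun i j : Fin Λ => i < j) ν X :=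
    hF.mul (measurable_fA _ _)
  rw [← (mp_PS Λ).integrable_comp hm.aestronglyMeasurable]
  refine hI.congr (Eventually.of_forall fun ξ => ?_)
  simp only [Function.comp_apply, fA_PS]

variable (hν : ∀ i, ∃ l, i ≤ ν l)
include hν

lemma wt_pos (i : Fin Λ) : 0 < wt ν i := by
  obtain ⟨l, hl⟩ := hν i
  unfold wt
  have : 0 < (Finset.univ.filter fun l => i ≤ ν l).card :=
    Finset.card_pos.2 ⟨l, by simp [hl]⟩
  exact_mod_cast this

lemma spine_integrable : Integrable (fA (fun i j : Fin Λ => i < j) ν) := by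
  have h := integrable_PS ν (fun _ => 1) measurable_const
    (by simpa using integrable_gw (wt_pos ν hν))
  simpa using h

lemma PS_eq_lin (ξ : Fin Λ → ℝ) (i : Fin Λ) :
    PS Λ ξ i = ∑ j, (if j ≤ i then (1 : ℝ) else 0) * ξ j := by
  simp only [ite_mul, one_mul, zero_mul]
  rw [← Finset.sum_filter]
  unfold PS
  congr 1
  ext j
  simp

lemma spine_integrable' (i : Fin Λ) :
    Integrable (fun X : Fin Λ → ℝ => X i * fA (fun i j : Fin Λ => i < j) ν X) := by
  refine integrable_PS ν (fun X => X i) (measurable_pi_apply i) ?_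
  simp_rw [PS_eq_lin ν hν]
  exact integrable_lin_gw (wt_pos ν hν) _

lemma spine_ZA : ZA (fun i j : Fin Λ => i < j) ν = ∏ i, 1 / wt ν i := by
  unfold ZA
  have h := comp_PS ν (fun _ => 1) measurable_const
  simp only [one_mul] at h
  rw [h, integral_gw (wt_pos ν hν)]

lemma spine_ZA_pos : 0 < ZA (fun i j : Fin Λ => i < j) ν := by
  rw [spine_ZA ν hν]
  exact Finset.prod_pos fun i _ => one_div_pos.2 (wt_pos ν hν i)

lemma spine_ratio (i : Fin Λ) :
    NA (fun i j : Fin Λ => i < j) ν i / ZA (fun i j : Fin Λ => i < j) ν =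
      ∑ j ∈ Finset.Iic i, 1 / wt ν j := by
  have hZ := spine_ZA_pos ν hν
  rw [div_eq_iff hZ.ne', spine_ZA ν hν]
  unfold NA
  rw [comp_PS ν (fun X => X i) (measurable_pi_apply i)]
  simp_rw [PS_eq_lin ν hν]
  rw [integral_lin_gw (wt_pos ν hν)]
  congr 1
  simp only [ite_div, zero_div]
  rw [← Finset.sum_filter]
  congr 1
  ext j
  simp

end core

/-! ### The explicit spine -/

section explicit
variable (M q : ℕ)

/-- number of spine elements used while `M - m` copies are unreleased -/
def kk (m : ℕ) : ℕ := (M - m + q - 1) / q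

/-- first index of block `m` -/
def off : ℕ → ℕ
  | 0 => 0
  | m + 1 => off m + kk M q m

variable {M q}

lemma kk_pos (hq : 1 ≤ q) {m : ℕ} (hm : m < M) : 1 ≤ kk M q m := by
  unfold kk
  rw [Nat.le_div_iff_mul_le (by omega)]
  omega

lemma kk_lower (hq : 1 ≤ q) {m : ℕ} (hm : m < M) :
    1 / (q : ℝ) ≤ (kk M q m : ℝ) / ((M : ℝ) - m) := by
  have h1 : M - m ≤ q * kk M q m := by
    unfold kk
    have h := Nat.div_add_mod (M - m + q - 1) q
    have h2 := Nat.mod_lt (M - m + q - 1) (show 0 < q by omega)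
    omega
  have h2 : ((M : ℝ) - m) ≤ q * kk M q m := by
    have : ((M - m : ℕ) : ℝ) ≤ ((q * kk M q m : ℕ) : ℝ) := by exact_mod_cast h1
    rw [Nat.cast_sub hm.le] at this
    push_cast at this
    exact this
  have hMm : (0 : ℝ) < (M : ℝ) - m := by
    have : (m : ℝ) < M := by exact_mod_cast hm
    linarith
  have hq' : (0 : ℝ) < q := by exact_mod_cast hq
  rw [div_le_div_iff₀ hq' hMm]
  linarith

lemma kk_upper (hq : 1 ≤ q) {m : ℕ} (hm : m < M) :
    (kk M q m : ℝ) / ((M : ℝ) - m) ≤ 1 / (q : ℝ) + 1 / ((M : ℝ) - m) := by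
  have h1 : q * kk M q m ≤ M - m + q := by
    unfold kk
    have h := Nat.div_mul_le_self (M - m + q - 1) q
    have h3 := mul_comm ((M - m + q - 1) / q) q
    omega
  have hMm : (0 : ℝ) < (M : ℝ) - m := by
    have : (m : ℝ) < M := by exact_mod_cast hm
    linarith
  have hq' : (0 : ℝ) < q := by exact_mod_cast hq
  have h2 : (q : ℝ) * kk M q m ≤ ((M : ℝ) - m) + q := by
    have : ((q * kk M q m : ℕ) : ℝ) ≤ ((M - m + q : ℕ) : ℝ) := by exact_mod_cast h1
    push_cast [Nat.cast_sub hm.le] at this
    exact this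
  rw [div_add_div _ _ hq'.ne' hMm.ne', div_le_div_iff₀ hMm (by positivity)]
  nlinarith [mul_le_mul_of_nonneg_right h2 hMm.le]

lemma off_mono : Monotone (off M q) := by
  refine monotone_nat_of_le_succ fun m => ?_
  simp [off]

/-- weight on natural numbers -/
def wn (M q i : ℕ) : ℕ := ((Finset.range M).filter fun l => i < off M q (l + 1)).card

lemma wn_eq {m i : ℕ} (hm : m < M) (h1 : off M q m ≤ i) (h2 : i < off M q (m + 1)) :
    wn M q i = M - m := by
  unfold wn
  have : (Finset.range M).filter (fun l => i < off M q (l + 1)) = Finset.Ico m M := by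
    ext l
    simp only [Finset.mem_filter, Finset.mem_range, Finset.mem_Ico]
    constructor
    · rintro ⟨h3, h4⟩
      refine ⟨?_, h3⟩
      by_contra hcon
      have : off M q (l + 1) ≤ off M q m := off_mono (by omega)
      omega
    · rintro ⟨h3, h4⟩
      have : off M q (m + 1) ≤ off M q (l + 1) := off_mono (by omega)
      exact ⟨h4, by omega⟩
  rw [this, Nat.card_Ico]

/-- cumulative inverse weights -/
noncomputable def Tn (M q i : ℕ) : ℝ := ∑ j ∈ Finset.range i, 1 / (wn M q j : ℝ)

lemma Tn_mono : Monotone (Tn M q) := by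
  refine monotone_nat_of_le_succ fun m => ?_
  unfold Tn
  rw [Finset.sum_range_succ]
  have : (0 : ℝ) ≤ 1 / (wn M q m : ℝ) := by positivity
  linarith

lemma Tn_off {m : ℕ} (hm : m ≤ M) :
    Tn M q (off M q m) = ∑ j ∈ Finset.range m, (kk M q j : ℝ) / ((M : ℝ) - j) := by
  induction m with
  | zero => simp [Tn, off]
  | succ m ih =>
    rw [Finset.sum_range_succ, ← ih (by omega)]
    unfold Tn
    simp only [off]
    rw [Finset.sum_range_add]
    congr 1
    have : ∀ x ∈ Finset.range (kk M q m), 1 / (wn M q (off M q m + x) : ℝ) = 1 / ((M : ℝ) - m) := by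
      intro x hx
      rw [Finset.mem_range] at hx
      rw [wn_eq (m := m) (by omega) (by omega) (by simp only [off]; omega),
        Nat.cast_sub (by omega)]
    rw [Finset.sum_congr rfl this, Finset.sum_const, Finset.card_range, nsmul_eq_mul]
    ring

lemma wn_le (i : ℕ) : wn M q i ≤ M := by
  unfold wn
  exact (Finset.card_filter_le _ _).trans (by simp)

lemma wn_pos {i : ℕ} (hM : 1 ≤ M) (hi : i < off M q M) : 1 ≤ wn M q i := by
  unfold wn
  refine Finset.card_pos.2 ⟨M - 1, ?_⟩
  simp only [Finset.mem_filter, Finset.mem_range]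
  refine ⟨by omega, ?_⟩
  have : M - 1 + 1 = M := by omega
  rwa [this]

end explicit

theorem blockS : BlockS := by
  intro M q hM hq
  have hoff_pos : ∀ l : ℕ, l < M → 1 ≤ off M q (l + 1) := by
    intro l hl
    simp only [off]
    have := kk_pos hq hl
    omega
  let ν : Fin M → Fin (off M q M) := fun l => ⟨off M q (l.val + 1) - 1, by
    have h1 : off M q (l.val + 1) ≤ off M q M := off_mono (by omega)
    have h2 := hoff_pos l.val l.isLt
    omega⟩
  have hle : ∀ (i : Fin (off M q M)) (l : Fin M), i ≤ ν l ↔ i.val < off M q (l.val + 1) := by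
    intro i l
    have h2 := hoff_pos l.val l.isLt
    rw [Fin.le_def]
    simp only [ν]
    omega
  have hν : ∀ i, ∃ l, i ≤ ν l := by
    intro i
    refine ⟨⟨M - 1, by omega⟩, ?_⟩
    rw [hle]
    simp only
    have : M - 1 + 1 = M := by omega
    rw [this]
    exact i.isLt
  have hwt : ∀ i : Fin (off M q M), wt ν i = (wn M q i.val : ℝ) := by
    intro i
    unfold wt wn
    have h1 : (Finset.univ.filter fun l => i ≤ ν l).map Fin.valEmbedding =
        (Finset.range M).filter fun l => i.val < off M q (l + 1) := by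
      ext x
      simp only [Finset.mem_map, Finset.mem_filter, Finset.mem_univ, true_and, Finset.mem_range,
        Fin.valEmbedding_apply]
      constructor
      · rintro ⟨l, hl, rfl⟩
        exact ⟨l.isLt, (hle i l).1 hl⟩
      · rintro ⟨hx, hx'⟩
        exact ⟨⟨x, hx⟩, (hle i ⟨x, hx⟩).2 hx', rfl⟩
    rw [← h1, Finset.card_map]
  have hT : ∀ i : Fin (off M q M), ∑ j ∈ Finset.Iic i, 1 / wt ν j = Tn M q (i.val + 1) := by
    intro i
    unfold Tn
    have h1 : (Finset.Iic i).map Fin.valEmbedding = Finset.range (i.val + 1) := by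
      ext x
      simp only [Finset.mem_map, Finset.mem_Iic, Fin.valEmbedding_apply, Finset.mem_range]
      constructor
      · rintro ⟨j, hj, rfl⟩
        rw [Fin.le_def] at hj
        omega
      · intro hx
        have := i.isLt
        exact ⟨⟨x, by omega⟩, by rw [Fin.le_def]; simp only; omega, rfl⟩
    rw [← h1, Finset.sum_map]
    refine Finset.sum_congr rfl fun j _ => ?_
    rw [hwt]
    rfl
  refine ⟨off M q M, ν, fun i => Tn M q (i.val + 1), spine_integrable ν hν,
    spine_integrable' ν hν, spine_ZA_pos ν hν, ?_, ?_, ?_, ?_⟩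
  · intro i
    rw [spine_ratio ν hν, hT]
  · intro i j hij
    have h1 : Tn M q (j.val + 1) = Tn M q j.val + 1 / (wn M q j.val : ℝ) := by
      unfold Tn
      rw [Finset.sum_range_succ]
    have h2 : Tn M q (i.val + 1) ≤ Tn M q j.val := Tn_mono (by
      rw [Fin.lt_def] at hij; omega)
    have h3 : (wn M q j.val : ℝ) ≤ M := by exact_mod_cast wn_le _
    have h4 : (1 : ℝ) ≤ wn M q j.val := by exact_mod_cast wn_pos hM j.isLt
    have h5 : 1 / (M : ℝ) ≤ 1 / (wn M q j.val : ℝ) :=
      one_div_le_one_div_of_le (by linarith) h3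
    simp only [h1]
    linarith
  · intro l l' hll
    have e1 : ∀ l : Fin M, (ν l).val + 1 = off M q (l.val + 1) := by
      intro l
      have h2 := hoff_pos l.val l.isLt
      simp only [ν]
      omega
    simp only [e1]
    have h1 : Tn M q (off M q (l.val + 1)) ≤ Tn M q (off M q l'.val) := by
      apply Tn_mono
      apply off_mono
      rw [Fin.lt_def] at hll
      omega
    have h2 : Tn M q (off M q (l'.val + 1)) =
        Tn M q (off M q l'.val) + (kk M q l'.val : ℝ) / ((M : ℝ) - l'.val) := by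
      rw [Tn_off (by omega), Tn_off (by omega), Finset.sum_range_succ]
    have h3 := kk_lower hq l'.isLt
    linarith
  · intro i
    refine ⟨?_, ?_⟩
    · unfold Tn
      exact Finset.sum_nonneg fun j _ => by positivity
    · have h1 : Tn M q (i.val + 1) ≤ Tn M q (off M q M) := Tn_mono (by omega)
      rw [Tn_off le_rfl] at h1
      refine h1.trans ?_
      have h2 : ∑ j ∈ Finset.range M, (kk M q j : ℝ) / ((M : ℝ) - j) ≤
          ∑ j ∈ Finset.range M, (1 / (q : ℝ) + 1 / ((M : ℝ) - j)) :=
        Finset.sum_le_sum fun j hj => kk_upper hq (Finset.mem_range.1 hj)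
      refine h2.trans ?_
      rw [Finset.sum_add_distrib, Finset.sum_const, Finset.card_range, nsmul_eq_mul]
      have h3 : ∑ j ∈ Finset.range M, 1 / ((M : ℝ) - j) = ∑ R ∈ Finset.range M, 1 / ((R : ℝ) + 1) := by
        rw [← Finset.sum_range_reflect]
        refine Finset.sum_congr rfl fun j hj => ?_
        rw [Finset.mem_range] at hj
        rw [Nat.cast_sub (by omega), Nat.cast_sub (by omega)]
        push_cast
        ring_nf
      rw [h3]
      apply le_of_eq
      ring

end Pool.MP6e
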