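import Pool.Agent.Work.MP_6e2e82_co.InterfaceQ
import Pool.Agent.Work.MP_6e2e82_co.BlockC
import Pool.Agent.Work.MP_6e2e82_co.BlockS
import Pool.Agent.Work.MP_6e2e82_co.BlockP
import Pool.Agent.Work.MP_6e2e82_co.BlockL

/-!
Block F of MP_6e2e82_co: final assembly.
-/

set_option autoImplicit false
set_option linter.unusedSectionVars false
set_option linter.unusedVariables false
open MeasureTheory Filter Topology Set

namespace Pool.MP6e

lemma Mo_nonneg {α : Type*} [Fintype α] (r : α → α → Prop) (v : α) : 0 ≤ Mo r v := by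
  rw [Mo_eq_toReal]; exact ENNReal.toReal_nonneg

lemma Mo_le_V {α : Type*} [Fintype α] (r : α → α → Prop) (v : α) : Mo r v ≤ V r := by
  have hfin := volume_O_lt_top r
  have h1 : V r = ∫ x in O r, (1 : ℝ) := by
    rw [setIntegral_const]
    simp [V, Measure.real]
  rw [h1]
  unfold Mo
  refine setIntegral_mono_on ?_ (integrableOn_const hfin.ne) (measurableSet_O r)
    (fun x hx => (hx.1 v).2.le)
  refine Measure.integrableOn_of_bounded (M := 1) hfin.ne
    (measurable_pi_apply v).aestronglyMeasurable ?_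
  refine (ae_restrict_iff' (measurableSet_O r)).2 (Filter.Eventually.of_forall fun x hx => ?_)
  rw [Real.norm_eq_abs, abs_of_pos (hx.1 v).1]
  exact (hx.1 v).2.le

lemma step {M n γ X u v : ℝ} (hM : 0 ≤ M) (hn : 0 ≤ n) (h : X ≤ n * (u - v))
    (h' : 1 - γ < M * X) : 1 - γ < M * (n * |u - v|) := by
  have h1 : n * (u - v) ≤ n * |u - v| := mul_le_mul_of_nonneg_left (le_abs_self _) hn
  have h2 : M * X ≤ M * (n * |u - v|) := mul_le_mul_of_nonneg_left (h.trans h1) hM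
  linarith

lemma step' {M n γ X u v : ℝ} (hM : 0 ≤ M) (hn : 0 ≤ n) (h : X ≤ n * (u - v))
    (h' : 1 - γ < M * X) : 1 - γ < M * (n * |v - u|) := by
  rw [abs_sub_comm]; exact step hM hn h h'

/-- product of a lower bound with a factor close to one -/
lemma mul_close {n a η ε w D : ℝ} (hη : 0 ≤ η) (hε : 0 ≤ ε) (hε1 : ε ≤ 1) (haη : η ≤ a)
    (h1 : a - η ≤ n * D) (hw : 1 - ε ≤ w) : a - η - a * ε ≤ n * (D * w) := by
  have hw0 : 0 ≤ w := by linarith
  have h2 : (a - η) * w ≤ n * D * w := mul_le_mul_of_nonneg_right h1 hw0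
  have h3 : (a - η) * (1 - ε) ≤ (a - η) * w := mul_le_mul_of_nonneg_left hw (by linarith)
  nlinarith [mul_nonneg hη hε]

/-- same level, different copies -/
lemma case2 {n φ φ' b b' β β' c η Q : ℝ} (hn : 0 ≤ n) (h0 : 0 ≤ φ') (h1 : φ' ≤ 1)
    (hb : Q - 2 * η ≤ n * (b' - b)) (hβ : Q - 2 * η ≤ n * (β - β'))
    (hφ : n * |φ - φ'| ≤ c + η) (hw0 : 0 ≤ 1 - b - β) (hw1 : 1 - b - β ≤ 1) :
    Q - 2 * η - (c + η) ≤
      n * (((1 - φ') * b' + φ' * (1 - β')) - ((1 - φ) * b + φ * (1 - β))) := by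
  have e : n * (((1 - φ') * b' + φ' * (1 - β')) - ((1 - φ) * b + φ * (1 - β))) =
      (1 - φ') * (n * (b' - b)) + φ' * (n * (β - β')) - (n * (φ - φ')) * (1 - b - β) := by ring
  have h2 : (1 - φ') * (Q - 2 * η) ≤ (1 - φ') * (n * (b' - b)) :=
    mul_le_mul_of_nonneg_left hb (by linarith)
  have h3 : φ' * (Q - 2 * η) ≤ φ' * (n * (β - β')) := mul_le_mul_of_nonneg_left hβ h0
  have h4 : n * (φ - φ') ≤ n * |φ - φ'| := mul_le_mul_of_nonneg_left (le_abs_self _) hn
  have h5 : (n * (φ - φ')) * (1 - b - β) ≤ (n * |φ - φ'|) * (1 - b - β) :=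
    mul_le_mul_of_nonneg_right h4 hw0
  have h6 : (n * |φ - φ'|) * (1 - b - β) ≤ (n * |φ - φ'|) * 1 :=
    mul_le_mul_of_nonneg_left hw1 (by positivity)
  rw [e]
  nlinarith

/-- different levels -/
lemma case3 {n φ φ' b b' β β' G η ε Tm : ℝ} (hη : 0 ≤ η) (hε : 0 ≤ ε) (hε1 : ε ≤ 1)
    (hGη : η ≤ G) (h0 : 0 ≤ φ) (h1 : φ ≤ 1)
    (hb : -(Tm + 2 * η) ≤ n * (b' - b)) (hβ : -(Tm + 2 * η) ≤ n * (β - β'))
    (hφ : G - η ≤ n * (φ' - φ)) (hw : 1 - ε ≤ 1 - b' - β') :
    G - η - G * ε - (Tm + 2 * η) ≤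
      n * (((1 - φ') * b' + φ' * (1 - β')) - ((1 - φ) * b + φ * (1 - β))) := by
  have e : n * (((1 - φ') * b' + φ' * (1 - β')) - ((1 - φ) * b + φ * (1 - β))) =
      n * ((φ' - φ) * (1 - b' - β')) + (1 - φ) * (n * (b' - b)) + φ * (n * (β - β')) := by ring
  have h2 := mul_close hη hε hε1 hGη hφ hw
  have h3 : (1 - φ) * -(Tm + 2 * η) ≤ (1 - φ) * (n * (b' - b)) :=
    mul_le_mul_of_nonneg_left hb (by linarith)
  have h4 : φ * -(Tm + 2 * η) ≤ φ * (n * (β - β')) := mul_le_mul_of_nonneg_left hβ h0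
  rw [e]
  nlinarith

/-- the limit statement for the two spines -/
def SpineLimit : Prop := ∀ (M Λ : ℕ) (ν : Fin M → Fin Λ) (T : Fin Λ → ℝ),
    Integrable (fA (fun i j : Fin Λ => i < j) ν) →
    (∀ i, Integrable (fun X : Fin Λ → ℝ => X i * fA (fun i j : Fin Λ => i < j) ν X)) →
    0 < ZA (fun i j : Fin Λ => i < j) ν →
    (∀ i, NA (fun i j : Fin Λ => i < j) ν i / ZA (fun i j : Fin Λ => i < j) ν = T i) →
    ∀ η : ℝ, 0 < η → ∃ n0 : ℕ, ∀ (κ : Type) [Fintype κ] [Nonempty κ] (rκ : κ → κ → Prop),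
      n0 ≤ Fintype.card κ → 0 < V rκ →
      (∀ i : Fin Λ, |(Fintype.card κ : ℝ) *
        (Mo (rP (fun i j : Fin Λ => i < j) (fun i j : Fin Λ => i < j) rκ ν (ν ∘ Fin.rev))
          (.inl (.inl i)) /
        V (rP (fun i j : Fin Λ => i < j) (fun i j : Fin Λ => i < j) rκ ν (ν ∘ Fin.rev))) - T i|
          ≤ η) ∧
      (∀ i : Fin Λ, |(Fintype.card κ : ℝ) *
        (1 - Mo (rP (fun i j : Fin Λ => i < j) (fun i j : Fin Λ => i < j) rκ ν (ν ∘ Fin.rev))
          (.inl (.inr i)) /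
        V (rP (fun i j : Fin Λ => i < j) (fun i j : Fin Λ => i < j) rκ ν (ν ∘ Fin.rev))) - T i|
          ≤ η)

/-- the assembly with abstract constants -/
theorem core {M q Λ : ℕ} (hM1 : 1 ≤ M) (hq : 1 ≤ q) (ν : Fin M → Fin Λ) (T : Fin Λ → ℝ)
    (γ a c G Tm : ℝ) (hγ : 0 < γ) (hγhalf : γ ≤ 1 / 2) (hTm0 : 0 ≤ Tm)
    (S1 : ∀ i j, i < j → 1 / (M : ℝ) ≤ T j - T i)
    (S2 : ∀ l l', l < l' → 1 / (q : ℝ) ≤ T (ν l') - T (ν l))
    (S3 : ∀ i, 0 ≤ T i ∧ T i ≤ Tm)
    (P1' : 1 - γ < M * a) (P2' : 1 - γ < M * (1 / q - c)) (P3' : 1 < M * (G - Tm))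
    (hSL : ∀ η : ℝ, 0 < η → ∃ n0 : ℕ, ∀ (κ : Type) [Fintype κ] [Nonempty κ]
      (rκ : κ → κ → Prop), n0 ≤ Fintype.card κ → 0 < V rκ →
      (∀ i : Fin Λ, |(Fintype.card κ : ℝ) *
        (Mo (rP (fun i j : Fin Λ => i < j) (fun i j : Fin Λ => i < j) rκ ν (ν ∘ Fin.rev))
          (.inl (.inl i)) /
        V (rP (fun i j : Fin Λ => i < j) (fun i j : Fin Λ => i < j) rκ ν (ν ∘ Fin.rev))) - T i|
          ≤ η) ∧
      (∀ i : Fin Λ, |(Fintype.card κ : ℝ) *
        (1 - Mo (rP (fun i j : Fin Λ => i < j) (fun i j : Fin Λ => i < j) rκ ν (ν ∘ Fin.rev))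
          (.inl (.inr i)) /
        V (rP (fun i j : Fin Λ => i < j) (fun i j : Fin Λ => i < j) rκ ν (ν ∘ Fin.rev))) - T i|
          ≤ η))
    (hQ : ∀ η : ℝ, 0 < η → ∀ N0 : ℕ,
      ∃ (κ : Type) (_ : Fintype κ) (_ : Nonempty κ) (rκ : κ → κ → Prop) (lev ch : κ → ℕ),
        N0 ≤ Fintype.card κ ∧
        (∀ x y, rκ x y → lev x < lev y) ∧
        (∀ x y, lev x = lev y → ch x = ch y → x = y) ∧
        (∃ x y, x ≠ y ∧ lev x = lev y) ∧
        (∀ x y, lev x = lev y → ch x < ch y →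
          a - η ≤ (Fintype.card κ : ℝ) * (Mo rκ x / V rκ - Mo rκ y / V rκ)) ∧
        (∀ x y, lev x = lev y →
          (Fintype.card κ : ℝ) * |Mo rκ x / V rκ - Mo rκ y / V rκ| ≤ c + η) ∧
        (∀ x y, lev x < lev y →
          G - η ≤ (Fintype.card κ : ℝ) * (Mo rκ y / V rκ - Mo rκ x / V rκ)) ∧
        (∀ x, G - η ≤ (Fintype.card κ : ℝ) * (Mo rκ x / V rκ) ∧
          G - η ≤ (Fintype.card κ : ℝ) * (1 - Mo rκ x / V rκ))) :
    ∃ (α : Type) (_ : Fintype α) (r : α → α → Prop) (rk : α → ℕ),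
     (∀ a b, r a b → rk a < rk b) ∧ (∃ a b, a ≠ b ∧ rk a = rk b) ∧
     ∀ x y : α, x ≠ y →
       1 - γ < |((Fintype.card α : ℝ) + 1) * (Mo r y / V r) -
         ((Fintype.card α : ℝ) + 1) * (Mo r x / V r)| := by
  have hM0 : (0 : ℝ) < M := by exact_mod_cast hM1
  have hMne : (M : ℝ) ≠ 0 := hM0.ne'
  have hq0 : (0 : ℝ) < q := by exact_mod_cast hq
  have ha0 : 0 < a := by
    by_contra hcon
    push Not at hcon
    nlinarith [mul_nonpos_of_nonneg_of_nonpos hM0.le hcon]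
  have hG0 : 0 < G := by
    by_contra hcon
    push Not at hcon
    nlinarith [mul_nonpos_of_nonneg_of_nonpos hM0.le (show G - Tm ≤ 0 by linarith)]
  -- slack
  obtain ⟨ρ, hρ, hρ1, hρa, hρc, hρG, hργ⟩ : ∃ ρ : ℝ, 0 < ρ ∧ ρ ≤ 1 ∧ 1 - γ + ρ ≤ M * a ∧
      1 - γ + ρ ≤ M * (1 / q - c) ∧ 1 + ρ ≤ M * (G - Tm) ∧ ρ ≤ γ := by
    refine ⟨min (min (M * a - (1 - γ)) (M * (1 / q - c) - (1 - γ)))
      (min (M * (G - Tm) - 1) γ), ?_, ?_, ?_, ?_, ?_, ?_⟩
    · exact lt_min (lt_min (by linarith) (by linarith)) (lt_min (by linarith) hγ)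
    · exact (min_le_right _ _).trans ((min_le_right _ _).trans (by linarith))
    · have := (min_le_left (min (M * a - (1 - γ)) (M * (1 / q - c) - (1 - γ)))
        (min (M * (G - Tm) - 1) γ)).trans (min_le_left _ _)
      linarith
    · have := (min_le_left (min (M * a - (1 - γ)) (M * (1 / q - c) - (1 - γ)))
        (min (M * (G - Tm) - 1) γ)).trans (min_le_right _ _)
      linarith
    · have := (min_le_right (min (M * a - (1 - γ)) (M * (1 / q - c) - (1 - γ)))
        (min (M * (G - Tm) - 1) γ)).trans (min_le_left _ _)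
      linarith
    · exact (min_le_right _ _).trans (min_le_right _ _)
  -- η
  obtain ⟨η, hη, hMη, hηa, hηG, hη1⟩ : ∃ η : ℝ, 0 < η ∧ 8 * (M * η) ≤ ρ ∧ η ≤ a ∧ η ≤ G ∧ η ≤ 1 := by
    refine ⟨min (ρ / (8 * M)) (min a (min G 1)), ?_, ?_, ?_, ?_, ?_⟩
    · exact lt_min (by positivity) (lt_min ha0 (lt_min hG0 one_pos))
    · have h1 : min (ρ / (8 * M)) (min a (min G 1)) ≤ ρ / (8 * M) := min_le_left _ _
      have h2 := mul_le_mul_of_nonneg_left h1 (show (0 : ℝ) ≤ 8 * M by positivity)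
      have h3 : 8 * (M : ℝ) * (ρ / (8 * M)) = ρ := by field_simp
      rw [h3] at h2
      linarith
    · exact (min_le_right _ _).trans (min_le_left _ _)
    · exact (min_le_right _ _).trans ((min_le_right _ _).trans (min_le_left _ _))
    · exact (min_le_right _ _).trans ((min_le_right _ _).trans (min_le_right _ _))
  obtain ⟨n0, hn0⟩ := hSL η hη
  -- size of the copies
  obtain ⟨N1, hN1⟩ := exists_nat_ge (8 * (Tm + 1) * (M * (a + G + 1)) / ρ + 2 * (Tm + 1) + 2)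
  obtain ⟨κ, _, _, rκ, lev, ch, hcard, hlev, hinj, ⟨x0, y0, hxy0, hl0⟩, Q1, Q2, Q3, Q4⟩ :=
    hQ η hη (max n0 N1)
  have hVκ : 0 < V rκ := V_pos rκ lev hlev
  obtain ⟨hb, ht⟩ := hn0 κ rκ ((le_max_left _ _).trans hcard) hVκ
  set r := rP (fun i j : Fin Λ => i < j) (fun i j : Fin Λ => i < j) rκ ν (ν ∘ Fin.rev) with hr
  -- rank
  let L : ℕ := ∑ x, lev x
  have hL : ∀ x, lev x ≤ L := fun x =>
    Finset.single_le_sum (f := lev) (fun _ _ => Nat.zero_le _) (Finset.mem_univ x)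
  let rk : (Fin Λ ⊕ Fin Λ) ⊕ (Fin M × κ) → ℕ := fun v => match v with
    | .inl (.inl i) => i.val
    | .inl (.inr i) => Λ + L + 1 + (Λ - 1 - i.val)
    | .inr p => Λ + lev p.2
  have hrk : ∀ u v, r u v → rk u < rk v := by
    rintro ((i | i) | p) ((j | j) | p') huv
    · exact huv
    · exact absurd huv id
    · have h1 : i = ν p'.1 := huv
      have := i.isLt
      simp only [rk]
      omega
    · exact absurd huv id
    · have h1 : j < i := huv
      rw [Fin.lt_def] at h1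
      have := i.isLt
      simp only [rk]
      omega
    · exact absurd huv id
    · exact absurd huv id
    · have h1 := hL p.2
      simp only [rk]
      omega
    · have h1 : p.1 = p'.1 ∧ rκ p.2 p'.2 := huv
      have h2 := hlev _ _ h1.2
      simp only [rk]
      omega
  have hVr : 0 < V r := V_pos r rk hrk
  refine ⟨(Fin Λ ⊕ Fin Λ) ⊕ (Fin M × κ), inferInstance, r, rk, hrk, ?_, ?_⟩
  · refine ⟨.inr (⟨0, hM1⟩, x0), .inr (⟨0, hM1⟩, y0), ?_, ?_⟩
    · intro hcon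
      apply hxy0
      simpa using hcon
    · show Λ + lev x0 = Λ + lev y0
      rw [hl0]
  -- heights
  set n : ℝ := (Fintype.card κ : ℝ) with hn
  have hnN1 : 8 * (Tm + 1) * (M * (a + G + 1)) / ρ + 2 * (Tm + 1) + 2 ≤ n := by
    refine hN1.trans ?_
    rw [hn]
    exact_mod_cast (le_max_right _ _).trans hcard
  have hbig : 0 ≤ 8 * (Tm + 1) * (M * (a + G + 1)) / ρ := by positivity
  have hn2 : 2 ≤ n := by linarith
  have hnpos : 0 < n := by linarith
  set ε : ℝ := 2 * (Tm + 1) / n with hεdef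
  have hε0 : 0 ≤ ε := by rw [hεdef]; positivity
  have hε1 : ε ≤ 1 := by
    rw [hεdef, div_le_one hnpos]; linarith
  have hεM : 4 * (M * (a + G + 1) * ε) ≤ ρ := by
    have h1 : 8 * (Tm + 1) * (M * (a + G + 1)) ≤ ρ * n := by
      have h2 : 8 * (Tm + 1) * (M * (a + G + 1)) / ρ ≤ n := by linarith
      rw [div_le_iff₀ hρ] at h2
      linarith
    rw [hεdef]
    have h3 : 4 * (M * (a + G + 1) * (2 * (Tm + 1) / n)) =
        (8 * (Tm + 1) * (M * (a + G + 1))) / n := by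
      field_simp
      ring
    rw [h3, div_le_iff₀ hnpos]
    exact h1
  have hεa : 4 * (M * (a * ε)) ≤ ρ := by
    have h1 : 0 ≤ M * (G + 1) * ε := by positivity
    nlinarith
  have hεG : 4 * (M * (G * ε)) ≤ ρ := by
    have h1 : 0 ≤ M * (a + 1) * ε := by positivity
    nlinarith
  let φ : κ → ℝ := fun x => Mo rκ x / V rκ
  have hφ0 : ∀ x, 0 ≤ φ x := fun x => div_nonneg (Mo_nonneg _ _) hVκ.le
  have hφ1 : ∀ x, φ x ≤ 1 := fun x => (div_le_one hVκ).2 (Mo_le_V _ _)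
  let H : (Fin Λ ⊕ Fin Λ) ⊕ (Fin M × κ) → ℝ := fun v => Mo r v / V r
  let b : Fin Λ → ℝ := fun i => H (.inl (.inl i))
  let β : Fin Λ → ℝ := fun i => 1 - H (.inl (.inr i))
  have hb0 : ∀ i, 0 ≤ b i := fun i => div_nonneg (Mo_nonneg _ _) hVr.le
  have hβ0 : ∀ i, 0 ≤ β i := fun i => sub_nonneg.2 ((div_le_one hVr).2 (Mo_le_V _ _))
  have hbT : ∀ i, |n * b i - T i| ≤ η := hb
  have hβT : ∀ i, |n * β i - T i| ≤ η := ht
  have hbε : ∀ i, b i ≤ ε / 2 := by
    intro i
    have h1 := abs_le.1 (hbT i)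
    have h2 := (S3 i).2
    have h3 : n * b i ≤ Tm + 1 := by linarith
    rw [hεdef]
    have h4 : 2 * (Tm + 1) / n / 2 = (Tm + 1) / n := by ring
    rw [h4, le_div_iff₀ hnpos]
    linarith
  have hβε : ∀ i, β i ≤ ε / 2 := by
    intro i
    have h1 := abs_le.1 (hβT i)
    have h2 := (S3 i).2
    have h3 : n * β i ≤ Tm + 1 := by linarith
    rw [hεdef]
    have h4 : 2 * (Tm + 1) / n / 2 = (Tm + 1) / n := by ring
    rw [h4, le_div_iff₀ hnpos]
    linarith
  have hmod : ∀ (l : Fin M) (x : κ),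
      H (.inr (l, x)) = (1 - φ x) * b (ν l) + φ x * (1 - β (ν l.rev)) := by
    intro l x
    have h1 := Mo_comp_mod (fun i j : Fin Λ => i < j) (fun i j : Fin Λ => i < j) rκ ν
      (ν ∘ Fin.rev) l x
    rw [← hr] at h1
    simp only [H, b, β, φ]
    have h2 : (ν ∘ Fin.rev) l = ν l.rev := rfl
    rw [h2] at h1
    field_simp
    field_simp at h1
    linarith
  have hw : ∀ i j, 1 - ε ≤ 1 - b i - β j := by
    intro i j
    have h1 := hbε i
    have h2 := hβε j
    linarith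
  have hw1 : ∀ i j, 1 - b i - β j ≤ 1 := by
    intro i j
    have h1 := hb0 i
    have h2 := hβ0 j
    linarith
  have hw0 : ∀ i j, 0 ≤ 1 - b i - β j := by
    intro i j
    have h1 := hw i j
    linarith
  -- differences on the spines
  have db : ∀ i j, T j - T i - 2 * η ≤ n * (b j - b i) := by
    intro i j
    have h1 := abs_le.1 (hbT i)
    have h2 := abs_le.1 (hbT j)
    have h3 : n * (b j - b i) = n * b j - n * b i := by ring
    rw [h3]; linarith
  have dβ : ∀ i j, T j - T i - 2 * η ≤ n * (β j - β i) := by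
    intro i j
    have h1 := abs_le.1 (hβT i)
    have h2 := abs_le.1 (hβT j)
    have h3 : n * (β j - β i) = n * β j - n * β i := by ring
    rw [h3]; linarith
  have dTm : ∀ i j, -Tm ≤ T j - T i := by
    intro i j
    have h1 := S3 i
    have h2 := S3 j
    linarith
  -- numerical conclusions
  have X1 : 1 - γ < M * (a - η - a * ε) := by nlinarith
  have X2 : 1 - γ < M * (1 / q - 2 * η - (c + η)) := by nlinarith
  have X3 : 1 - γ < M * (G - η - G * ε - (Tm + 2 * η)) := by nlinarith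
  have X4 : 1 - γ < M * (1 / M - 2 * η) := by
    have : (M : ℝ) * (1 / M - 2 * η) = 1 - 2 * (M * η) := by field_simp
    rw [this]; nlinarith
  have X5 : 1 - γ < M * (n - 2 * (Tm + 1)) := by
    have h1 : (1 : ℝ) ≤ M := by exact_mod_cast hM1
    nlinarith
  -- the two basic comparisons between modules
  have mod_lev : ∀ l l' x y, lev x < lev y →
      1 - γ < M * (n * |H (.inr (l', y)) - H (.inr (l, x))|) := by
    intro l l' x y hxy
    rw [hmod, hmod]
    refine step hM0.le hnpos.le (case3 hη.le hε0 hε1 hηG (hφ0 x) (hφ1 x) ?_ ?_ (Q3 x y hxy)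
      (hw _ _)) X3
    · have h1 := db (ν l) (ν l')
      have h2 := dTm (ν l) (ν l')
      linarith
    · have h1 := dβ (ν l'.rev) (ν l.rev)
      have h2 := dTm (ν l'.rev) (ν l.rev)
      linarith
  have mod_copy : ∀ l l' x y, lev x = lev y → l < l' →
      1 - γ < M * (n * |H (.inr (l', y)) - H (.inr (l, x))|) := by
    intro l l' x y hxy hll
    rw [hmod, hmod]
    refine step hM0.le hnpos.le (case2 (Q := 1 / q) (η := η) (c := c) hnpos.le (hφ0 y) (hφ1 y)
      ?_ ?_ (Q2 x y hxy) (hw0 _ _) (hw1 _ _)) X2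
    · have h1 := db (ν l) (ν l')
      have h2 := S2 l l' hll
      linarith
    · have h1 := dβ (ν l'.rev) (ν l.rev)
      have h2 := S2 l'.rev l.rev (Fin.rev_lt_rev.2 hll)
      linarith
  have mod_ch : ∀ l x y, lev x = lev y → ch x < ch y →
      1 - γ < M * (n * |H (.inr (l, x)) - H (.inr (l, y))|) := by
    intro l x y hxy hch
    rw [hmod, hmod]
    have h1 := mul_close hη.le hε0 hε1 hηa (Q1 x y hxy hch) (hw (ν l) (ν l.rev))
    refine step hM0.le hnpos.le (X := a - η - a * ε) ?_ X1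
    have h2 : (1 - φ x) * b (ν l) + φ x * (1 - β (ν l.rev)) -
        ((1 - φ y) * b (ν l) + φ y * (1 - β (ν l.rev))) =
        (φ x - φ y) * (1 - b (ν l) - β (ν l.rev)) := by ring
    rw [h2]
    exact h1
  have bot_mod : ∀ i l x, 1 - γ < M * (n * |H (.inr (l, x)) - H (.inl (.inl i))|) := by
    intro i l x
    rw [hmod]
    refine step hM0.le hnpos.le (X := G - η - G * ε - (Tm + 2 * η)) ?_ X3
    have h1 := mul_close hη.le hε0 hε1 hηG (Q4 x).1 (hw (ν l) (ν l.rev))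
    have h2 := db i (ν l)
    have h3 := dTm i (ν l)
    have h4 : n * ((1 - φ x) * b (ν l) + φ x * (1 - β (ν l.rev)) - H (.inl (.inl i))) =
        n * (φ x * (1 - b (ν l) - β (ν l.rev))) + n * (b (ν l) - b i) := by
      simp only [b]; ring
    rw [h4]
    have h5 : n * (Mo rκ x / V rκ * (1 - b (ν l) - β (ν l.rev))) =
      n * (φ x * (1 - b (ν l) - β (ν l.rev))) := rfl
    rw [h5] at h1
    linarith
  have top_mod : ∀ i l x, 1 - γ < M * (n * |H (.inl (.inr i)) - H (.inr (l, x))|) := by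
    intro i l x
    rw [hmod]
    refine step hM0.le hnpos.le (X := G - η - G * ε - (Tm + 2 * η)) ?_ X3
    have h1 := mul_close hη.le hε0 hε1 hηG (Q4 x).2 (hw (ν l) (ν l.rev))
    have h2 := dβ i (ν l.rev)
    have h3 := dTm i (ν l.rev)
    have h4 : n * (H (.inl (.inr i)) - ((1 - φ x) * b (ν l) + φ x * (1 - β (ν l.rev)))) =
        n * ((1 - φ x) * (1 - b (ν l) - β (ν l.rev))) + n * (β (ν l.rev) - β i) := by
      simp only [β]; ring
    rw [h4]
    have h5 : n * ((1 - Mo rκ x / V rκ) * (1 - b (ν l) - β (ν l.rev))) =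
      n * ((1 - φ x) * (1 - b (ν l) - β (ν l.rev))) := rfl
    rw [h5] at h1
    linarith
  have bot_bot : ∀ i j, i < j →
      1 - γ < M * (n * |H (.inl (.inl j)) - H (.inl (.inl i))|) := by
    intro i j hij
    refine step hM0.le hnpos.le (X := 1 / M - 2 * η) ?_ X4
    have h1 := db i j
    have h2 := S1 i j hij
    simp only [b] at h1
    linarith
  have top_top : ∀ i j, i < j →
      1 - γ < M * (n * |H (.inl (.inr i)) - H (.inl (.inr j))|) := by
    intro i j hij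
    refine step hM0.le hnpos.le (X := 1 / M - 2 * η) ?_ X4
    have h1 := dβ i j
    have h2 := S1 i j hij
    have h3 : n * (H (.inl (.inr i)) - H (.inl (.inr j))) = n * (β j - β i) := by
      simp only [β]; ring
    rw [h3]
    linarith
  have bot_top : ∀ i j, 1 - γ < M * (n * |H (.inl (.inr j)) - H (.inl (.inl i))|) := by
    intro i j
    refine step hM0.le hnpos.le (X := n - 2 * (Tm + 1)) ?_ X5
    have h1 := abs_le.1 (hbT i)
    have h2 := abs_le.1 (hβT j)
    have h3 := (S3 i).2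
    have h4 := (S3 j).2
    have h5 : n * (H (.inl (.inr j)) - H (.inl (.inl i))) = n - n * β j - n * b i := by
      simp only [β, b]; ring
    rw [h5]
    linarith
  have key : ∀ u v, u ≠ v → 1 - γ < M * (n * |H v - H u|) := by
    rintro ((i | i) | ⟨l, x⟩) ((j | j) | ⟨l', y⟩) huv
    · rcases lt_trichotomy i j with h1 | h1 | h1
      · exact bot_bot i j h1
      · exact absurd (by rw [h1]) huv
      · rw [abs_sub_comm]; exact bot_bot j i h1
    · exact bot_top i j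
    · exact bot_mod i l' y
    · rw [abs_sub_comm]; exact bot_top j i
    · rcases lt_trichotomy i j with h1 | h1 | h1
      · rw [abs_sub_comm]; exact top_top i j h1
      · exact absurd (by rw [h1]) huv
      · exact top_top j i h1
    · rw [abs_sub_comm]; exact top_mod i l' y
    · rw [abs_sub_comm]; exact bot_mod j l x
    · exact top_mod j l x
    · rcases lt_trichotomy (lev x) (lev y) with h1 | h1 | h1
      · exact mod_lev l l' x y h1
      · rcases lt_trichotomy l l' with h2 | h2 | h2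
        · exact mod_copy l l' x y h1 h2
        · subst h2
          rcases lt_trichotomy (ch x) (ch y) with h3 | h3 | h3
          · rw [abs_sub_comm]; exact mod_ch l x y h1 h3
          · exact absurd (by rw [hinj x y h1 h3]) huv
          · exact mod_ch l y x h1.symm h3
        · rw [abs_sub_comm]; exact mod_copy l' l y x h1.symm h2
      · rw [abs_sub_comm]; exact mod_lev l' l y x h1
  intro u v huv
  have h1 := key u v huv
  have h2 : ((Fintype.card ((Fin Λ ⊕ Fin Λ) ⊕ (Fin M × κ)) : ℝ) + 1) * (Mo r v / V r) -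
      ((Fintype.card ((Fin Λ ⊕ Fin Λ) ⊕ (Fin M × κ)) : ℝ) + 1) * (Mo r u / V r) =
      ((Fintype.card ((Fin Λ ⊕ Fin Λ) ⊕ (Fin M × κ)) : ℝ) + 1) * (H v - H u) := by
    simp only [H]; ring
  rw [h2, abs_mul, abs_of_pos (by positivity)]
  have h3 : (M : ℝ) * n ≤ (Fintype.card ((Fin Λ ⊕ Fin Λ) ⊕ (Fin M × κ)) : ℝ) + 1 := by
    simp only [Fintype.card_sum, Fintype.card_prod, Fintype.card_fin]
    push_cast
    rw [← hn]
    have : (0 : ℝ) ≤ Λ := by positivity
    linarith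
  have h4 := mul_le_mul_of_nonneg_right h3 (abs_nonneg (H v - H u))
  have h5 : (M : ℝ) * (n * |H v - H u|) = M * n * |H v - H u| := by ring
  linarith


theorem blockF_of (hSL : SpineLimit) : BlockF := by
  intro hQ γ0 hγ0
  obtain ⟨γ, hγ, hγhalf, hγle⟩ : ∃ γ : ℝ, 0 < γ ∧ γ ≤ 1 / 2 ∧ γ ≤ γ0 :=
    ⟨min γ0 (1 / 2), lt_min hγ0 (by norm_num), min_le_right _ _, min_le_left _ _⟩
  obtain ⟨s, g, h, q, M, e, hs, hg, hh, he, hq, hM, hθγ, hθ, P1, P2, P3⟩ := blockP γ hγ
  have hM1 : 1 ≤ M := by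
    rw [hM]
    exact Nat.mul_pos hq (by omega)
  obtain ⟨Λ, ν, T, hI, hI', hZ, hT, S1, S2, S3⟩ := blockS M q hM1 hq
  obtain ⟨α, i1, r, rk, h1, h2, h3⟩ := core hM1 hq ν T γ (g * mu s * (1 - 2 * theta g s))
    (g * mu s * (g - 1 + 2 * theta g s)) (g * (1 - mu s * (g - 1) - 2 * theta g s * mu s))
    ((M : ℝ) / q + ∑ R ∈ Finset.range M, 1 / ((R : ℝ) + 1)) hγ hγhalf (by positivity) S1 S2 S3
    (by
      have : (M : ℝ) * (g * mu s * (1 - 2 * theta g s)) = M * g * mu s * (1 - 2 * theta g s) := by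
        ring
      rw [this]; exact P1)
    (by
      have : (M : ℝ) * (1 / q - g * mu s * (g - 1 + 2 * theta g s)) =
          (M : ℝ) / q - M * g * mu s * (g - 1 + 2 * theta g s) := by ring
      rw [this]; exact P2)
    P3 (hSL M Λ ν T hI hI' hZ hT) (hQ g h s hg hh hs hθ)
  exact ⟨α, i1, r, rk, h1, h2, fun x y hxy => lt_of_le_of_lt (by linarith) (h3 x y hxy)⟩

theorem spineLimit : SpineLimit := by
  intro M Λ ν T h1 h2 h3 h4 η hη
  obtain ⟨n0, hn0⟩ := spine_limit ν T h1 h2 h3 h4 η hη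
  exact ⟨n0, fun κ _ _ rκ hc hV => (hn0 κ rκ hc hV).2⟩

theorem blockF : BlockF := blockF_of spineLimit

end Pool.MP6e
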