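import Pool.Agent.Work.MP_6e2e82_co.QN

set_option autoImplicit false
set_option linter.unusedSectionVars false
open MeasureTheory Filter Topology Set

namespace Pool.MP6e

lemma key_est {g S N h : ℕ} (hS : 1 ≤ S) (hN : 1 ≤ N) (hg : g = 2 * h + 1) (δ : ℝ)
    (hb : ∀ a : AQ g S, |(N : ℝ) * Bq g S N a - ctr g h (S + 1) a.1 a.2| ≤ δ)
    (ht : ∀ a : AQ g S, |(N : ℝ) * Bq' g S N a - ctr g h (S + 1) a.1 a.2| ≤ δ) (x : KN g S N) :
    |(N : ℝ) * ph x - (Gam S N (1 + (1 / 2) ^ (S + 1) * h / 2) (mu (S + 1) * (g - 1)) (lev x) -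
      mu (S + 1) * chn x)| ≤ δ := by
  set c1 : ℝ := 1 + (1 / 2) ^ (S + 1) * h / 2 with hc1
  set μ := mu (S + 1) with hμ
  have hctr : ∀ a : AQ g S, ctr g h (S + 1) a.1 a.2 = ((a.2 : ℝ) + 1) * c1 - μ * a.1 := fun a => rfl
  rcases x with (a | b) | ⟨i, q⟩
  · rw [ph_bot hN]
    have h1 : Gam S N c1 (μ * (g - 1)) (lev (.inl (.inl a) : KN g S N)) = ((a.2 : ℝ) + 1) * c1 := by
      have : (lev (.inl (.inl a) : KN g S N)) = a.2.val := rfl
      rw [this]
      unfold Gam
      rw [if_pos (by have := a.2.2; omega)]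
    have h2 : (chn (.inl (.inl a) : KN g S N)) = a.1.val := rfl
    rw [h1, h2, ← hctr]
    exact hb a
  · rw [ph_top hS hN]
    have hb2 := b.2.2
    have h1 : Gam S N c1 (μ * (g - 1)) (lev (.inl (.inr b) : KN g S N)) =
        N - ((b.2 : ℝ) + 1) * c1 + μ * (g - 1) := by
      have : (lev (.inl (.inr b) : KN g S N)) = S + 1 + N + (S - b.2.val) := rfl
      rw [this]
      unfold Gam
      rw [if_neg (by omega), if_neg (by omega)]
      have e : ((S - b.2.val : ℕ) : ℝ) = S - b.2.val := by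
        rw [Nat.cast_sub (by omega)]
      push_cast
      rw [e]
      ring
    have h2 : ((chn (.inl (.inr b) : KN g S N) : ℕ) : ℝ) = g - 1 - b.1 := by
      have e1 : (chn (.inl (.inr b) : KN g S N)) = (Fin.rev b.1).val := rfl
      have e2 := b.1.2
      rw [e1, Fin.val_rev, Nat.cast_sub (by omega)]
      push_cast
      ring
    rw [h1, h2]
    have h3 := ht b
    rw [hctr] at h3
    have e : (N : ℝ) * (1 - Bq' g S N b) - (N - ((b.2 : ℝ) + 1) * c1 + μ * (g - 1) - μ * (g - 1 - b.1)) =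
        -((N : ℝ) * Bq' g S N b - (((b.2 : ℝ) + 1) * c1 - μ * b.1)) := by ring
    rw [e, abs_neg]
    exact h3
  · rw [ph_mid hS hN]
    have hq := q.2
    have h1 : Gam S N c1 (μ * (g - 1)) (lev (.inr (i, q) : KN g S N)) =
        ((S : ℝ) + 1) * c1 + ((q : ℝ) + 1) / (N + 1) * (N - 2 * (((S : ℝ) + 1) * c1) + μ * (g - 1)) := by
      have : (lev (.inr (i, q) : KN g S N)) = S + 1 + q.val := rfl
      rw [this]
      unfold Gam
      rw [if_neg (by omega), if_pos (by omega)]
      push_cast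
      have : ((S : ℝ) + 1 + q - S) = q + 1 := by ring
      rw [this]
    have h2 : (chn (.inr (i, q) : KN g S N)) = i.val := rfl
    rw [h1, h2]
    have h3 := hb (tQ g S i)
    have h4 := ht (sQ g S i)
    rw [hctr] at h3 h4
    have e3 : ((tQ g S i).2 : ℝ) = S := by simp [tQ]
    have e3' : (((tQ g S i).1 : Fin g) : ℝ) = i := rfl
    have e4 : ((sQ g S i).2 : ℝ) = S := by simp [sQ, tQ]
    have e4' : (((sQ g S i).1 : Fin g) : ℝ) = g - 1 - i := by
      have e1 : (sQ g S i).1 = Fin.rev i := rfl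
      have e2 := i.2
      rw [e1, Fin.val_rev, Nat.cast_sub (by omega)]
      push_cast
      ring
    rw [e3, e3'] at h3
    rw [e4, e4'] at h4
    set m : ℝ := ((q : ℝ) + 1) / (N + 1) with hm
    have hN1 : (0 : ℝ) < (N : ℝ) + 1 := by positivity
    have hm0 : 0 ≤ m := by positivity
    have hm1 : m ≤ 1 := by
      rw [hm, div_le_one hN1]
      have : (q : ℝ) < N := by exact_mod_cast hq
      linarith
    set A := (N : ℝ) * Bq g S N (tQ g S i) - (((S : ℝ) + 1) * c1 - μ * i) with hA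
    set B := (N : ℝ) * Bq' g S N (sQ g S i) - (((S : ℝ) + 1) * c1 - μ * (g - 1 - i)) with hB
    have e : (N : ℝ) * ((1 - m) * Bq g S N (tQ g S i) + m * (1 - Bq' g S N (sQ g S i))) -
        (((S : ℝ) + 1) * c1 + m * (N - 2 * (((S : ℝ) + 1) * c1) + μ * (g - 1)) - μ * i) =
        (1 - m) * A - m * B := by
      rw [hA, hB]; ring
    rw [e]
    rw [abs_le] at h3 h4 ⊢
    constructor
    · have := mul_le_mul_of_nonneg_left h3.1 (sub_nonneg.2 hm1)
      have := mul_le_mul_of_nonneg_left h4.2 hm0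
      linarith
    · have := mul_le_mul_of_nonneg_left h3.2 (sub_nonneg.2 hm1)
      have := mul_le_mul_of_nonneg_left h4.1 hm0
      linarith

theorem blockQ : BlockQ := by
  intro g h s hg hh hs hθ η hη N0
  obtain ⟨S, rfl⟩ : ∃ S, s = S + 1 := ⟨s - 1, by omega⟩
  have hg3 : (3 : ℝ) ≤ g := by
    have : 3 ≤ g := by omega
    exact_mod_cast this
  have hS : 1 ≤ S := by
    by_contra h0
    have : S = 0 := by omega
    subst this
    unfold theta at hθ
    have h1 : (1 : ℝ) ≤ (g : ℝ) ^ 8 := one_le_pow₀ (by linarith)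
    norm_num at hθ
    linarith
  set μ := mu (S + 1) with hμ
  set θ := theta g (S + 1) with hθd
  set c1 : ℝ := 1 + (1 / 2) ^ (S + 1) * h / 2 with hc1
  set w : ℝ := μ * (g - 1) with hw
  have hμ0 : 0 < μ := by rw [hμ]; unfold mu; positivity
  have hθ0 : 0 ≤ θ := by rw [hθd]; unfold theta; positivity
  have hc1' : 1 ≤ c1 := by
    rw [hc1]
    have : (0 : ℝ) ≤ (1 / 2) ^ (S + 1) * h / 2 := by positivity
    linarith
  have hgμ : μ * g ≤ 1 / 10 := by
    refine le_trans ?_ hθ
    rw [hμ, hθd]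
    unfold mu theta
    have e1 : (1 / 2 : ℝ) ^ (S + 1) ≤ (800 / 841) ^ (S + 1) := pow_le_pow_left₀ (by norm_num) (by norm_num) _
    have e2 : (g : ℝ) ≤ (g : ℝ) ^ 8 := le_self_pow₀ (by linarith) (by norm_num)
    have hs1 : (1 : ℝ) ≤ ((S + 1 : ℕ) : ℝ) := by push_cast; linarith [Nat.cast_nonneg (α := ℝ) S]
    have e3 : ((S + 1 : ℕ) : ℝ) ≤ ((S + 1 : ℕ) : ℝ) ^ 3 := le_self_pow₀ hs1 (by norm_num)
    have e4 : ((S + 1 : ℕ) : ℝ) * (1 / 2) ^ (S + 1) * g ≤ ((S + 1 : ℕ) : ℝ) ^ 3 * (800 / 841) ^ (S + 1) * (g : ℝ) ^ 8 := by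
      gcongr
    have e5 : (0 : ℝ) ≤ ((S + 1 : ℕ) : ℝ) ^ 3 * (800 / 841) ^ (S + 1) * (g : ℝ) ^ 8 := by positivity
    linarith
  have hw0 : 0 ≤ w := by rw [hw]; exact mul_nonneg hμ0.le (by linarith)
  have hw1 : w ≤ 1 / 10 := by rw [hw]; linarith
  set η' : ℝ := min (η / (10 * g)) (min (μ / 10) (1 / 10)) with hη'
  have hη'0 : 0 < η' := by
    rw [hη']
    refine lt_min (by positivity) (lt_min (by positivity) (by norm_num))
  have hη1 : η' * (10 * g) ≤ η := by
    have : η' ≤ η / (10 * g) := min_le_left _ _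
    rwa [le_div_iff₀ (by positivity)] at this
  have hη2 : η' ≤ μ / 10 := (min_le_right _ _).trans (min_le_left _ _)
  have hη3 : η' ≤ 1 / 10 := (min_le_right _ _).trans (min_le_right _ _)
  have evb : ∀ᶠ N : ℕ in atTop, ∀ a : AQ g S, |(N : ℝ) * Bq g S N a -
      NA (rQ g S) (tQ g S) a / ZA (rQ g S) (tQ g S)| ≤ η' := by
    rw [eventually_all]
    intro a
    have := (tend_bot (S := S) h hg hθ a)
    rw [Metric.tendsto_atTop] at this
    obtain ⟨N1, hN1⟩ := this η' hη'0
    filter_upwards [eventually_ge_atTop N1] with N hN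
    exact (hN1 N hN).le
  have evt : ∀ᶠ N : ℕ in atTop, ∀ a : AQ g S, |(N : ℝ) * Bq' g S N a -
      NA (rQ g S) (tQ g S) a / ZA (rQ g S) (tQ g S)| ≤ η' := by
    rw [eventually_all]
    intro a
    have := (tend_top (S := S) h hg hθ a)
    rw [Metric.tendsto_atTop] at this
    obtain ⟨N1, hN1⟩ := this η' hη'0
    filter_upwards [eventually_ge_atTop N1] with N hN
    exact (hN1 N hN).le
  have ev1 : ∀ᶠ N : ℕ in atTop, (1 + 2 * ((S : ℝ) + 1) * c1 + 2 * (S + 1)) / η' ≤ (N : ℝ) :=
    tendsto_natCast_atTop_atTop.eventually_ge_atTop _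
  obtain ⟨N, hbN, htN, h1N, hN0, hN1⟩ := (evb.and (evt.and (ev1.and
    ((eventually_ge_atTop N0).and (eventually_ge_atTop 1))))).exists
  rw [div_le_iff₀ hη'0] at h1N
  have hNpos : (0 : ℝ) < N := by
    have : 0 < N := by omega
    exact_mod_cast this
  have hSc : (0 : ℝ) ≤ ((S : ℝ) + 1) * c1 := by positivity
  have hQ := (Qbot (S := S) h hg hθ).2
  have hb' : ∀ a : AQ g S, |(N : ℝ) * Bq g S N a - ctr g h (S + 1) a.1 a.2| ≤ θ * μ + η' := by
    intro a
    have h1 := hbN a
    have h2 := hQ a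
    have := abs_add_le ((N : ℝ) * Bq g S N a - NA (rQ g S) (tQ g S) a / ZA (rQ g S) (tQ g S))
      (NA (rQ g S) (tQ g S) a / ZA (rQ g S) (tQ g S) - ctr g h (S + 1) a.1 a.2)
    rw [sub_add_sub_cancel] at this
    linarith
  have ht' : ∀ a : AQ g S, |(N : ℝ) * Bq' g S N a - ctr g h (S + 1) a.1 a.2| ≤ θ * μ + η' := by
    intro a
    have h1 := htN a
    have h2 := hQ a
    have := abs_add_le ((N : ℝ) * Bq' g S N a - NA (rQ g S) (tQ g S) a / ZA (rQ g S) (tQ g S))
      (NA (rQ g S) (tQ g S) a / ZA (rQ g S) (tQ g S) - ctr g h (S + 1) a.1 a.2)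
    rw [sub_add_sub_cancel] at this
    linarith
  have key := fun x : KN g S N => key_est hS hN1 hg (θ * μ + η') hb' ht' x
  simp only [← hc1, ← hμ, ← hw] at key
  set d : ℝ := 1 - η' with hd
  have hd0 : 0 ≤ d := by rw [hd]; linarith
  have hd1 : d ≤ c1 := by rw [hd]; linarith
  have hd2 : d * (N + 1) ≤ N - 2 * (((S : ℝ) + 1) * c1) + w := by
    rw [hd]
    have : η' * N = N * η' := by ring
    nlinarith
  have hGlt := Gam_lt S N c1 w d hd0 hd1 hd2
  have hchn : ∀ x : KN g S N, (chn x : ℝ) ≤ g - 1 := by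
    have hh : ∀ i : Fin g, ((i.val : ℕ) : ℝ) ≤ g - 1 := by
      intro i
      have : i.val + 1 ≤ g := i.2
      have : ((i.val + 1 : ℕ) : ℝ) ≤ g := by exact_mod_cast this
      push_cast at this
      linarith
    intro x
    rcases x with (a | b) | p
    · exact hh a.1
    · exact hh (Fin.rev b.1)
    · exact hh p.1
  have hchn0 : ∀ x : KN g S N, (0 : ℝ) ≤ chn x := fun x => Nat.cast_nonneg _
  have hμc : ∀ x : KN g S N, μ * chn x ≤ w := fun x => by
    rw [hw]; exact mul_le_mul_of_nonneg_left (hchn x) hμ0.le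
  have hμc0 : ∀ x : KN g S N, 0 ≤ μ * chn x := fun x => mul_nonneg hμ0.le (hchn0 x)
  have hcard : (Fintype.card (KN g S N) : ℝ) = g * (N + 2 * ((S : ℝ) + 1)) := by
    rw [card_KN]; push_cast; ring
  have hcardge : (g : ℝ) * N ≤ (Fintype.card (KN g S N) : ℝ) := by
    rw [hcard]
    have : (0 : ℝ) ≤ g * (2 * ((S : ℝ) + 1)) := by positivity
    linarith
  -- lower bound transfer
  have lower : ∀ D L : ℝ, 0 ≤ L → L ≤ N * D → g * L ≤ (Fintype.card (KN g S N) : ℝ) * D := by
    intro D L hL hLD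
    have hD : 0 ≤ D := by
      by_contra hneg
      have := mul_neg_of_pos_of_neg hNpos (not_le.1 hneg)
      linarith
    have h1 : g * L ≤ g * (N * D) := mul_le_mul_of_nonneg_left hLD (by linarith)
    have h2 : (g : ℝ) * N * D ≤ (Fintype.card (KN g S N) : ℝ) * D := mul_le_mul_of_nonneg_right hcardge hD
    linarith
  have hθμ : θ * μ ≤ μ / 10 := by nlinarith
  have hθμ0 : 0 ≤ θ * μ := by positivity
  have hgη : g * η' * 10 ≤ η := by linarith
  have hgη0 : 0 ≤ g * η' := by positivity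
  have hμs : μ ≤ 1 / 30 := by nlinarith
  refine ⟨KN g S N, inferInstance, ⟨.inl (.inl (⟨0, by omega⟩, 0))⟩, rK g S N, lev, chn, ?_, ?_, ?_, ?_,
    ?_, ?_, ?_, ?_⟩
  · rw [card_KN]
    nlinarith
  · intro x y hxy
    exact rK_lev hS hxy
  · intro x y h1 h2
    exact lev_chn_inj h1 h2
  · refine ⟨.inl (.inl (⟨0, by omega⟩, 0)), .inl (.inl (⟨1, by omega⟩, 0)), ?_, rfl⟩
    intro he
    simp at he
  · intro x y hl hc
    have k1 := abs_le.1 (key x)
    have k2 := abs_le.1 (key y)
    rw [hl] at k1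
    have h1 : (1 : ℝ) ≤ (chn y : ℝ) - chn x := by
      have : chn x + 1 ≤ chn y := hc
      have : ((chn x + 1 : ℕ) : ℝ) ≤ chn y := by exact_mod_cast this
      push_cast at this
      linarith
    have h2 : μ ≤ μ * (chn y : ℝ) - μ * chn x := by
      have := mul_le_mul_of_nonneg_left h1 hμ0.le
      linarith
    have h3 := lower (ph x - ph y) (μ * (1 - 2 * θ) - 2 * η') (by nlinarith) (by linarith [k1.1, k2.2])
    unfold ph at h3
    nlinarith
  · intro x y hl
    have k1 := abs_le.1 (key x)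
    have k2 := abs_le.1 (key y)
    rw [hl] at k1
    have h3 : (N : ℝ) * |ph x - ph y| ≤ w + 2 * (θ * μ) + 2 * η' := by
      have e : (N : ℝ) * |ph x - ph y| = |(N : ℝ) * (ph x - ph y)| := by
        rw [abs_mul, abs_of_pos hNpos]
      rw [e, abs_le]
      constructor
      · linarith [k1.1, k2.2, hμc x, hμc y, hμc0 x, hμc0 y]
      · linarith [k1.2, k2.1, hμc x, hμc y, hμc0 x, hμc0 y]
    have h4 : (2 * ((S : ℝ) + 1)) * |ph x - ph y| ≤ η' := by
      have h5 : (2 * ((S : ℝ) + 1)) ≤ η' * N := by nlinarith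
      calc (2 * ((S : ℝ) + 1)) * |ph x - ph y| ≤ η' * N * |ph x - ph y| :=
            mul_le_mul_of_nonneg_right h5 (abs_nonneg _)
        _ = η' * (N * |ph x - ph y|) := by ring
        _ ≤ η' * 1 := mul_le_mul_of_nonneg_left (by linarith) hη'0.le
        _ = η' := mul_one _
    have h6 : (Fintype.card (KN g S N) : ℝ) * |ph x - ph y| =
        g * (N * |ph x - ph y|) + g * ((2 * ((S : ℝ) + 1)) * |ph x - ph y|) := by
      rw [hcard]; ring
    have h7 : (Fintype.card (KN g S N) : ℝ) * |ph x - ph y| ≤ g * (w + 2 * (θ * μ) + 2 * η') + g * η' := by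
      rw [h6]
      exact add_le_add (mul_le_mul_of_nonneg_left h3 (by linarith)) (mul_le_mul_of_nonneg_left h4 (by linarith))
    unfold ph at h7
    rw [hw] at h7
    nlinarith
  · intro x y hl
    have k1 := abs_le.1 (key x)
    have k2 := abs_le.1 (key y)
    have h1 := hGlt (lev x) (lev y) hl
    have h3 := lower (ph y - ph x) (1 - w - 2 * (θ * μ) - 3 * η') (by nlinarith)
      (by linarith [k1.2, k2.1, hμc x, hμc y, hμc0 x, hμc0 y])
    unfold ph at h3
    rw [hw] at h3
    nlinarith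
  · intro x
    have k1 := abs_le.1 (key x)
    have hG0 : 1 ≤ Gam S N c1 w (lev x) := by
      have h00 : Gam S N c1 w 0 = c1 := by
        unfold Gam; rw [if_pos (by omega)]; push_cast; ring
      rcases Nat.eq_zero_or_pos (lev x) with h0 | h0
      · rw [h0, h00]; exact hc1'
      · have := hGlt 0 (lev x) h0
        rw [h00] at this
        linarith
    have hG1 : Gam S N c1 w (lev x) ≤ N - 1 + w := by
      have h00 : Gam S N c1 w (2 * S + N + 1) = N - c1 + w := by
        unfold Gam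
        rw [if_neg (by omega), if_neg (by omega)]
        push_cast; ring
      have hle : lev x ≤ 2 * S + N + 1 := by
        rcases x with (a | b) | p
        · show a.2.val ≤ _
          have := a.2.2; omega
        · show S + 1 + N + (S - b.2.val) ≤ _
          omega
        · show S + 1 + p.2.val ≤ _
          have := p.2.2; omega
      rcases Nat.eq_or_lt_of_le hle with h0 | h0
      · rw [h0, h00]; linarith
      · have := hGlt _ _ h0
        rw [h00] at this
        linarith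
    constructor
    · have h3 := lower (ph x) (1 - w - θ * μ - η') (by nlinarith)
        (by linarith [k1.1, hμc x])
      unfold ph at h3
      rw [hw] at h3
      nlinarith
    · have h3 := lower (1 - ph x) (1 - w - θ * μ - η') (by nlinarith)
        (by linarith [k1.2, hμc0 x])
      unfold ph at h3
      rw [hw] at h3
      nlinarith

end Pool.MP6e
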