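import Pool.Agent.Work.MP_6e2e82_co.Tools

set_option autoImplicit false
open MeasureTheory ENNReal

namespace Pool.MP6e

section S
variable {κ : Type*} [Fintype κ]

/-- order region between two levels -/
def S (r : κ → κ → Prop) (a b : ℝ) : Set (κ → ℝ) :=
  {z | (∀ q, a < z q ∧ z q < b) ∧ ∀ q q', r q q' → z q < z q'}

lemma measurableSet_S_prod {D : Type*} [Fintype D] (r : κ → κ → Prop) (fa fb : (D → ℝ) → ℝ)
    (ha : Measurable fa) (hb : Measurable fb) :
    MeasurableSet {p : (D → ℝ) × (κ → ℝ) | p.2 ∈ S r (fa p.1) (fb p.1)} := by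
  have h : {p : (D → ℝ) × (κ → ℝ) | p.2 ∈ S r (fa p.1) (fb p.1)} =
      (⋂ q, {p : (D → ℝ) × (κ → ℝ) | fa p.1 < p.2 q ∧ p.2 q < fb p.1}) ∩
      ⋂ a, ⋂ b, ⋂ (_ : r a b), {p : (D → ℝ) × (κ → ℝ) | p.2 a < p.2 b} := by
    ext x
    simp [S]
  rw [h]
  refine MeasurableSet.inter ?_ ?_
  · refine MeasurableSet.iInter fun q => ?_
    exact (measurableSet_lt (ha.comp measurable_fst)
      ((measurable_pi_apply q).comp measurable_snd)).inter
      (measurableSet_lt ((measurable_pi_apply q).comp measurable_snd) (hb.comp measurable_fst))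
  · refine MeasurableSet.iInter fun a => MeasurableSet.iInter fun b => MeasurableSet.iInter fun _ => ?_
    exact measurableSet_lt ((measurable_pi_apply a).comp measurable_snd)
      ((measurable_pi_apply b).comp measurable_snd)

lemma measurableSet_S (r : κ → κ → Prop) (a b : ℝ) : MeasurableSet (S r a b) := by
  have h := measurableSet_S_prod (D := Empty) r (fun _ => a) (fun _ => b) measurable_const measurable_const
  have h2 : S r a b = (fun z : κ → ℝ => ((fun e : Empty => (0:ℝ)), z)) ⁻¹'
    {p : (Empty → ℝ) × (κ → ℝ) | p.2 ∈ S r a b} := by ext z; simp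
  rw [h2]
  exact (measurable_const.prodMk measurable_id) h

omit [Fintype κ] in
lemma mem_S_affine (r : κ → κ → Prop) (a b : ℝ) (h : a < b) (u : κ → ℝ) :
    (fun q => a + (b - a) * u q) ∈ S r a b ↔ u ∈ O r := by
  have hc : 0 < b - a := sub_pos.2 h
  simp only [S, O]
  constructor
  · rintro ⟨h1, h2⟩
    refine ⟨fun q => ⟨?_, ?_⟩, fun q q' hq => ?_⟩
    · have := (h1 q).1; nlinarith
    · have := (h1 q).2; nlinarith
    · have := h2 q q' hq
      simp only at this
      have h3 : (b - a) * u q < (b - a) * u q' := by linarith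
      exact lt_of_mul_lt_mul_left h3 hc.le
  · rintro ⟨h1, h2⟩
    refine ⟨fun q => ⟨?_, ?_⟩, fun q q' hq => ?_⟩
    · have := mul_pos hc (h1 q).1; show a < a + (b - a) * u q; linarith
    · have := mul_lt_mul_of_pos_left (h1 q).2 hc; show a + (b - a) * u q < b; linarith
    · have := mul_lt_mul_of_pos_left (h2 q q' hq) hc
      show a + (b - a) * u q < a + (b - a) * u q'
      linarith

omit [Fintype κ] in
lemma S_empty [Nonempty κ] (r : κ → κ → Prop) (a b : ℝ) (h : b ≤ a) : S r a b = ∅ := by
  rw [Set.eq_empty_iff_forall_notMem]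
  intro z hz
  obtain ⟨q⟩ := ‹Nonempty κ›
  have := hz.1 q
  linarith [this.1, this.2]

lemma volume_S [Nonempty κ] (r : κ → κ → Prop) (a b : ℝ) :
    volume (S r a b) = ENNReal.ofReal (b - a) ^ Fintype.card κ * volume (O r) := by
  rcases le_or_gt b a with h | h
  · rw [S_empty r a b h, measure_empty, ENNReal.ofReal_of_nonpos (by linarith), zero_pow
      Fintype.card_ne_zero, zero_mul]
  · rw [← lintegral_indicator_one (measurableSet_S r a b),
      lintegral_affine a (b - a) (by linarith) _ (measurable_one.indicator (measurableSet_S r a b)),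
      ← lintegral_indicator_one (measurableSet_O r)]
    congr 1
    refine lintegral_congr fun u => ?_
    by_cases hu : u ∈ O r
    · rw [Set.indicator_of_mem hu, Set.indicator_of_mem ((mem_S_affine r a b h u).2 hu)]
      rfl
    · rw [Set.indicator_of_notMem hu, Set.indicator_of_notMem (fun h' => hu ((mem_S_affine r a b h u).1 h'))]

lemma moment_S [Nonempty κ] (r : κ → κ → Prop) (a b : ℝ) (ha : 0 ≤ a) (q : κ) :
    ∫⁻ z in S r a b, ENNReal.ofReal (z q) = ENNReal.ofReal (b - a) ^ Fintype.card κ *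
      (ENNReal.ofReal a * volume (O r) + ENNReal.ofReal (b - a) * ∫⁻ z in O r, ENNReal.ofReal (z q)) := by
  rcases le_or_gt b a with h | h
  · rw [S_empty r a b h]
    simp only [Measure.restrict_empty, lintegral_zero_measure]
    rw [ENNReal.ofReal_of_nonpos (by linarith), zero_pow Fintype.card_ne_zero, zero_mul]
  · have hm : Measurable (fun z : κ → ℝ => ENNReal.ofReal (z q)) := by fun_prop
    rw [← lintegral_indicator (measurableSet_S r a b),
      lintegral_affine a (b - a) (by linarith) _ (hm.indicator (measurableSet_S r a b)),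
      ← lintegral_indicator (measurableSet_O r)]
    congr 1
    have h1 : ∀ u : κ → ℝ, (S r a b).indicator (fun z => ENNReal.ofReal (z q)) (fun q => a + (b - a) * u q)
        = ENNReal.ofReal a * (O r).indicator 1 u +
          ENNReal.ofReal (b - a) * (O r).indicator (fun z => ENNReal.ofReal (z q)) u := by
      intro u
      by_cases hu : u ∈ O r
      · rw [Set.indicator_of_mem hu, Set.indicator_of_mem hu,
          Set.indicator_of_mem ((mem_S_affine r a b h u).2 hu)]
        rw [ENNReal.ofReal_add ha (mul_nonneg (by linarith) (hu.1 q).1.le),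
          ENNReal.ofReal_mul (by linarith)]
        simp
      · rw [Set.indicator_of_notMem hu, Set.indicator_of_notMem hu,
          Set.indicator_of_notMem (fun h' => hu ((mem_S_affine r a b h u).1 h'))]
        simp
    rw [lintegral_congr h1, lintegral_add_left, lintegral_const_mul, lintegral_const_mul,
      lintegral_indicator_one (measurableSet_O r)]
    · exact hm.indicator (measurableSet_O r)
    · exact measurable_one.indicator (measurableSet_O r)
    · exact (measurable_one.indicator (measurableSet_O r)).const_mul _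
end S

section comp
variable {A B ι κ : Type*} [Fintype A] [Fintype B] [Fintype ι] [Fintype κ]
  (rA : A → A → Prop) (rB : B → B → Prop) (rκ : κ → κ → Prop) (τ : ι → A) (σ : ι → B)

/-- bottom part, reversed top part, and one module per `l : ι` between `τ l` and `σ l` -/
def rP : (A ⊕ B) ⊕ (ι × κ) → (A ⊕ B) ⊕ (ι × κ) → Prop
  | .inl (.inl a), .inl (.inl a') => rA a a'
  | .inl (.inr b), .inl (.inr b') => rB b' b
  | .inl (.inl a), .inr p => a = τ p.1
  | .inr p, .inl (.inr b) => b = σ p.1
  | .inr p, .inr p' => p.1 = p'.1 ∧ rκ p.2 p'.2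
  | _, _ => False

/-- disjoint union of the two relations -/
def rD : A ⊕ B → A ⊕ B → Prop
  | .inl a, .inl a' => rA a a'
  | .inr b, .inr b' => rB b b'
  | _, _ => False

/-- the map to bottom/top coordinates (top reflected) and module coordinates -/
def Psi (A B ι κ : Type*) : ((A ⊕ B) ⊕ (ι × κ) → ℝ) → (A ⊕ B → ℝ) × (ι → κ → ℝ) :=
  fun w => (refl1 A B (fun i => w (.inl i)), fun l q => w (.inr (l, q)))

lemma mp_Psi : MeasurePreserving (Psi A B ι κ) := by
  have h1 := volume_measurePreserving_sumPiEquivProdPi (fun _ : (A ⊕ B) ⊕ (ι × κ) => ℝ)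
  have h2 := (mp_refl1 A B).prod (mp_curry ι κ)
  exact h2.comp h1

/-- the region in the new coordinates -/
def T : Set ((A ⊕ B → ℝ) × (ι → κ → ℝ)) :=
  {p | p.1 ∈ O (rD rA rB) ∧ ∀ l, p.2 l ∈ S rκ (p.1 (.inl (τ l))) (1 - p.1 (.inr (σ l)))}

lemma measurableSet_T : MeasurableSet (T rA rB rκ τ σ) := by
  have : T rA rB rκ τ σ = (Prod.fst ⁻¹' O (rD rA rB)) ∩
      ⋂ l, (fun p : (A ⊕ B → ℝ) × (ι → κ → ℝ) => (p.1, p.2 l)) ⁻¹'
        {p : (A ⊕ B → ℝ) × (κ → ℝ) | p.2 ∈ S rκ (p.1 (.inl (τ l))) (1 - p.1 (.inr (σ l)))} := by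
    ext p; simp [T]
  rw [this]
  refine (measurable_fst (measurableSet_O _)).inter (MeasurableSet.iInter fun l => ?_)
  have h1 : Measurable (fun p : (A ⊕ B → ℝ) × (ι → κ → ℝ) => (p.1, p.2 l)) := by fun_prop
  exact h1 (measurableSet_S_prod rκ (fun u : A ⊕ B → ℝ => u (.inl (τ l)))
    (fun u => 1 - u (.inr (σ l))) (by fun_prop) (by fun_prop))

omit [Fintype A] [Fintype B] [Fintype ι] [Fintype κ] in
lemma O_rP_eq : O (rP rA rB rκ τ σ) = Psi A B ι κ ⁻¹' T rA rB rκ τ σ := by
  ext w
  simp only [Set.mem_preimage]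
  constructor
  · rintro ⟨h1, h2⟩
    refine ⟨⟨fun i => ?_, fun i j hij => ?_⟩, fun l => ⟨fun q => ?_, fun q q' hq => ?_⟩⟩
    · cases i with
      | inl a => exact h1 (.inl (.inl a))
      | inr b =>
        have := h1 (.inl (.inr b))
        simp only [Psi, refl1_inr]
        constructor <;> linarith [this.1, this.2]
    · cases i with
      | inl a =>
        cases j with
        | inl a' => exact h2 (.inl (.inl a)) (.inl (.inl a')) hij
        | inr b' => exact hij.elim
      | inr b =>
        cases j with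
        | inl a' => exact hij.elim
        | inr b' =>
          have := h2 (.inl (.inr b')) (.inl (.inr b)) hij
          simp only [Psi, refl1_inr]
          linarith
    · constructor
      · exact h2 (.inl (.inl (τ l))) (.inr (l, q)) rfl
      · have := h2 (.inr (l, q)) (.inl (.inr (σ l))) rfl
        simp only [Psi, refl1_inr]
        linarith
    · exact h2 (.inr (l, q)) (.inr (l, q')) ⟨rfl, hq⟩
  · rintro ⟨⟨h1, h2⟩, h3⟩
    have hA : ∀ a, 0 < w (.inl (.inl a)) ∧ w (.inl (.inl a)) < 1 := fun a => h1 (.inl a)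
    have hB : ∀ b, 0 < w (.inl (.inr b)) ∧ w (.inl (.inr b)) < 1 := by
      intro b
      have := h1 (.inr b)
      simp only [Psi, refl1_inr] at this
      constructor <;> linarith [this.1, this.2]
    have hM : ∀ l q, w (.inl (.inl (τ l))) < w (.inr (l, q)) ∧ w (.inr (l, q)) < w (.inl (.inr (σ l))) := by
      intro l q
      have := (h3 l).1 q
      simp only [Psi, refl1_inr, refl1_inl] at this
      constructor <;> linarith [this.1, this.2]
    refine ⟨fun i => ?_, fun i j hij => ?_⟩
    · rcases i with (a | b) | ⟨l, q⟩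
      · exact hA a
      · exact hB b
      · exact ⟨(hA _).1.trans (hM l q).1, (hM l q).2.trans (hB _).2⟩
    · rcases i with (a | b) | ⟨l, q⟩ <;> rcases j with (a' | b') | ⟨l', q'⟩
      · exact h2 (.inl a) (.inl a') hij
      · exact hij.elim
      · have : a = τ l' := hij
        subst this
        exact (hM l' q').1
      · exact hij.elim
      · have := h2 (.inr b') (.inr b) hij
        simp only [Psi, refl1_inr] at this
        linarith
      · exact hij.elim
      · exact hij.elim
      · have : b' = σ l := hij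
        subst this
        exact (hM l q).2
      · obtain ⟨h, hq⟩ := hij
        simp only at h hq
        subst h
        exact (h3 l).2 q q' hq

/-- Tonelli for the composite -/
theorem lintegral_comp (H : (A ⊕ B → ℝ) × (ι → κ → ℝ) → ℝ≥0∞) (hH : Measurable H) :
    ∫⁻ w in O (rP rA rB rκ τ σ), H (Psi A B ι κ w) =
      ∫⁻ u in O (rD rA rB), ∫⁻ z : ι → κ → ℝ,
        (∏ l, (S rκ (u (.inl (τ l))) (1 - u (.inr (σ l)))).indicator 1 (z l)) * H (u, z) := by
  have hT := measurableSet_T rA rB rκ τ σ
  rw [O_rP_eq, (mp_Psi (A := A) (B := B) (ι := ι) (κ := κ)).setLIntegral_comp_preimage hT hH,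
    ← lintegral_indicator hT, ← lintegral_indicator (measurableSet_O _)]
  rw [show (volume : Measure ((A ⊕ B → ℝ) × (ι → κ → ℝ))) = volume.prod volume from rfl,
    lintegral_prod _ (hH.indicator hT).aemeasurable]
  refine lintegral_congr fun u => ?_
  by_cases hu : u ∈ O (rD rA rB)
  · rw [Set.indicator_of_mem hu]
    refine lintegral_congr fun z => ?_
    by_cases hz : ∀ l, z l ∈ S rκ (u (.inl (τ l))) (1 - u (.inr (σ l)))
    · rw [Set.indicator_of_mem (show (u, z) ∈ T rA rB rκ τ σ from ⟨hu, hz⟩)]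
      rw [Finset.prod_eq_one, one_mul]
      intro l _
      rw [Set.indicator_of_mem (hz l)]
      rfl
    · rw [Set.indicator_of_notMem (fun h : (u, z) ∈ T rA rB rκ τ σ => hz h.2)]
      push Not at hz
      obtain ⟨l, hl⟩ := hz
      rw [Finset.prod_eq_zero (Finset.mem_univ l), zero_mul]
      rw [Set.indicator_of_notMem hl]
  · rw [Set.indicator_of_notMem hu]
    have : ∀ z : ι → κ → ℝ, (T rA rB rκ τ σ).indicator H (u, z) = 0 := fun z =>
      Set.indicator_of_notMem (fun h => hu h.1) _
    simp [this]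

/-- the weight (ENNReal) -/
noncomputable def We (n : ℕ) (u : A ⊕ B → ℝ) : ℝ≥0∞ :=
  ∏ l, ENNReal.ofReal (1 - u (.inr (σ l)) - u (.inl (τ l))) ^ n

lemma lintegral_comp_D [Nonempty κ] (g : (A ⊕ B → ℝ) → ℝ≥0∞) (hg : Measurable g) :
    ∫⁻ w in O (rP rA rB rκ τ σ), g (Psi A B ι κ w).1 =
      volume (O rκ) ^ Fintype.card ι *
      ∫⁻ u in O (rD rA rB), g u * We τ σ (Fintype.card κ) u := by
  rw [lintegral_comp rA rB rκ τ σ (fun p => g p.1) (hg.comp measurable_fst)]
  rw [← lintegral_const_mul]
  · refine lintegral_congr fun u => ?_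
    show ∫⁻ z : ι → κ → ℝ,
        (∏ l, (S rκ (u (.inl (τ l))) (1 - u (.inr (σ l)))).indicator 1 (z l)) * g u = _
    rw [lintegral_mul_const]
    · rw [show (volume : Measure (ι → κ → ℝ)) = Measure.pi fun _ => volume from rfl,
        lintegral_pi_prod volume (fun l => (S rκ (u (.inl (τ l))) (1 - u (.inr (σ l)))).indicator 1)
          (fun l => measurable_one.indicator (measurableSet_S _ _ _))]
      simp_rw [lintegral_indicator_one (measurableSet_S _ _ _), volume_S]
      rw [Finset.prod_mul_distrib, Finset.prod_const, Finset.card_univ, We]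
      ring
    · refine Finset.measurable_prod _ fun l _ => ?_
      exact (measurable_one.indicator (measurableSet_S _ _ _)).comp (measurable_pi_apply l)
  · unfold We
    fun_prop

lemma lintegral_comp_M [Nonempty κ] (l0 : ι) (q0 : κ) :
    volume (O rκ) * ∫⁻ w in O (rP rA rB rκ τ σ), ENNReal.ofReal (w (.inr (l0, q0))) =
      volume (O rκ) ^ Fintype.card ι *
      ∫⁻ u in O (rD rA rB), (ENNReal.ofReal (u (.inl (τ l0))) * volume (O rκ) +
        ENNReal.ofReal (1 - u (.inr (σ l0)) - u (.inl (τ l0))) * ∫⁻ z in O rκ, ENNReal.ofReal (z q0))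
         * We τ σ (Fintype.card κ) u := by
  classical
  have h := lintegral_comp rA rB rκ τ σ (fun p => ENNReal.ofReal (p.2 l0 q0)) (by fun_prop)
  have h' : ∫⁻ w in O (rP rA rB rκ τ σ), ENNReal.ofReal (w (.inr (l0, q0))) =
    ∫⁻ w in O (rP rA rB rκ τ σ), (fun p : (A ⊕ B → ℝ) × (ι → κ → ℝ) => ENNReal.ofReal (p.2 l0 q0)) (Psi A B ι κ w) := rfl
  rw [h', h, ← lintegral_const_mul, ← lintegral_const_mul]
  · refine setLIntegral_congr_fun (measurableSet_O _) fun u hu => ?_
    show volume (O rκ) * ∫⁻ z : ι → κ → ℝ,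
        (∏ l, (S rκ (u (.inl (τ l))) (1 - u (.inr (σ l)))).indicator 1 (z l)) * ENNReal.ofReal (z l0 q0) = _
    have h1 : ∀ z : ι → κ → ℝ,
        (∏ l, (S rκ (u (.inl (τ l))) (1 - u (.inr (σ l)))).indicator (1 : (κ → ℝ) → ℝ≥0∞) (z l)) * ENNReal.ofReal (z l0 q0)
        = ∏ l, (fun ζ : κ → ℝ => (S rκ (u (.inl (τ l))) (1 - u (.inr (σ l)))).indicator (1 : (κ → ℝ) → ℝ≥0∞) ζ *
            (if l = l0 then ENNReal.ofReal (ζ q0) else 1)) (z l) := by
      intro z
      rw [Finset.prod_mul_distrib]
      congr 1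
      rw [Finset.prod_eq_single l0]
      · simp
      · intro l _ hl; simp [hl]
      · intro h; exact absurd (Finset.mem_univ _) h
    rw [lintegral_congr h1, show (volume : Measure (ι → κ → ℝ)) = Measure.pi fun _ => volume from rfl,
      lintegral_pi_prod volume (fun l (ζ : κ → ℝ) =>
        (S rκ (u (.inl (τ l))) (1 - u (.inr (σ l)))).indicator (1 : (κ → ℝ) → ℝ≥0∞) ζ *
            (if l = l0 then ENNReal.ofReal (ζ q0) else 1))]
    · rw [← Finset.mul_prod_erase Finset.univ _ (Finset.mem_univ l0)]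
      have h2 : ∀ l ∈ Finset.univ.erase l0,
          ∫⁻ ζ : κ → ℝ, ((S rκ (u (.inl (τ l))) (1 - u (.inr (σ l)))).indicator (1 : (κ → ℝ) → ℝ≥0∞) ζ *
            (if l = l0 then ENNReal.ofReal (ζ q0) else 1)) =
          ENNReal.ofReal (1 - u (.inr (σ l)) - u (.inl (τ l))) ^ Fintype.card κ * volume (O rκ) := by
        intro l hl
        have hne : l ≠ l0 := Finset.ne_of_mem_erase hl
        simp only [hne, if_false, mul_one]
        rw [lintegral_indicator_one (measurableSet_S _ _ _), volume_S]
      rw [Finset.prod_congr rfl h2, Finset.prod_mul_distrib, Finset.prod_const,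
        Finset.card_erase_of_mem (Finset.mem_univ _), Finset.card_univ]
      have h3 : ∫⁻ ζ : κ → ℝ, ((S rκ (u (.inl (τ l0))) (1 - u (.inr (σ l0)))).indicator (1 : (κ → ℝ) → ℝ≥0∞) ζ *
            (if l0 = l0 then ENNReal.ofReal (ζ q0) else 1)) =
          ∫⁻ ζ in S rκ (u (.inl (τ l0))) (1 - u (.inr (σ l0))), ENNReal.ofReal (ζ q0) := by
        rw [← lintegral_indicator (measurableSet_S _ _ _)]
        refine lintegral_congr fun ζ => ?_
        by_cases hζ : ζ ∈ S rκ (u (.inl (τ l0))) (1 - u (.inr (σ l0)))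
        · simp [hζ]
        · simp [hζ]
      rw [h3, moment_S _ _ _ (hu.1 (.inl (τ l0))).1.le]
      have hpos : 0 < Fintype.card ι := Fintype.card_pos_iff.2 ⟨l0⟩
      obtain ⟨k, hk⟩ : ∃ k, Fintype.card ι = k + 1 := ⟨Fintype.card ι - 1, by omega⟩
      rw [hk, We, ← Finset.mul_prod_erase Finset.univ _ (Finset.mem_univ l0)]
      simp only [Nat.add_sub_cancel]
      ring
    · intro l
      refine (measurable_one.indicator (measurableSet_S _ _ _)).mul ?_
      by_cases hl : l = l0
      · simp only [hl, if_true]; fun_prop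
      · simp only [hl, if_false]; exact measurable_const
  · unfold We
    fun_prop
  · have hT := measurableSet_T rA rB rκ τ σ
    have hH : Measurable (fun p : (A ⊕ B → ℝ) × (ι → κ → ℝ) =>
        (∏ l, (S rκ (p.1 (.inl (τ l))) (1 - p.1 (.inr (σ l)))).indicator 1 (p.2 l)) *
          ENNReal.ofReal (p.2 l0 q0)) := by
      refine Measurable.mul (Finset.measurable_prod _ fun l _ => ?_) (by fun_prop)
      have h1 : Measurable (fun p : (A ⊕ B → ℝ) × (ι → κ → ℝ) => (p.1, p.2 l)) := by fun_prop
      have h2 := (measurableSet_S_prod rκ (fun u : A ⊕ B → ℝ => u (.inl (τ l)))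
        (fun u => 1 - u (.inr (σ l))) (by fun_prop) (by fun_prop))
      have h3 : (fun p : (A ⊕ B → ℝ) × (ι → κ → ℝ) =>
          (S rκ (p.1 (.inl (τ l))) (1 - p.1 (.inr (σ l)))).indicator (1 : (κ → ℝ) → ℝ≥0∞) (p.2 l)) =
          (({p : (A ⊕ B → ℝ) × (κ → ℝ) | p.2 ∈ S rκ (p.1 (.inl (τ l))) (1 - p.1 (.inr (σ l)))}).indicator
            (fun _ => (1 : ℝ≥0∞))) ∘ (fun p : (A ⊕ B → ℝ) × (ι → κ → ℝ) => (p.1, p.2 l)) := by
        funext p
        by_cases hp : p.2 l ∈ S rκ (p.1 (.inl (τ l))) (1 - p.1 (.inr (σ l)))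
        · simp [hp]
        · simp [hp]
      rw [h3]
      exact (measurable_const.indicator h2).comp h1
    exact hH.lintegral_prod_right'

end comp

end Pool.MP6e
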