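import Pool.Agent.Work.MP_6e2e82_co.Orth

/-!
# Interface for the proof of S09382 (blocks still to be proved; statements only).

Paper proof: note 200 of the team database. Already proved and compiled on main:
`Vol, Moment` (order polytope), `Tools, Comp, Reals` (composition), `Limit` (N -> infinity),
`Orth` (exponential integrals on the orthant, partial sums `PS`, `Lm`).
-/

set_option autoImplicit false
open MeasureTheory Filter Topology Set

namespace Pool.MP6e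

/-- BLOCK S (spine). `W i = #{l | i ≤ ν l}`, change variables by `mp_PS`, then `integral_gw`,
`integral_mul_gw`; `T i = ∑ i' ≤ i, 1 / W i'`. Spine: for R = M, M-1, ..., 1 take ⌈R/q⌉ consecutive
elements, the last one is `ν (M - R)`. -/
def BlockS : Prop := ∀ (M q : ℕ), 1 ≤ M → 1 ≤ q →
    ∃ (Λ : ℕ) (ν : Fin M → Fin Λ) (T : Fin Λ → ℝ),
      Integrable (fA (fun i j : Fin Λ => i < j) ν) ∧
      (∀ i, Integrable (fun X : Fin Λ → ℝ => X i * fA (fun i j : Fin Λ => i < j) ν X)) ∧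
      0 < ZA (fun i j : Fin Λ => i < j) ν ∧
      (∀ i, NA (fun i j : Fin Λ => i < j) ν i / ZA (fun i j : Fin Λ => i < j) ν = T i) ∧
      (∀ i j, i < j → 1 / (M : ℝ) ≤ T j - T i) ∧
      (∀ l l', l < l' → 1 / (q : ℝ) ≤ T (ν l') - T (ν l)) ∧
      (∀ i, 0 ≤ T i ∧ T i ≤ (M : ℝ) / q + ∑ R ∈ Finset.range M, 1 / ((R : ℝ) + 1))

/-- BLOCK C (closure). The frozen statement from the relation form. The partial order on `α` is the
reflexive transitive closure of `r` (acyclic by the rank function); `LE`, `V`, `Mo` of the strict order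
equal those of `r`; `avg_eq` of `Moment.lean` converts averages. Also wanted as separate lemmas:
`V_pos : (∀ a b, r a b → rk a < rk b) → 0 < V r`. -/
def BlockC : Prop :=
  (∀ γ : ℝ, 0 < γ → ∃ (α : Type) (_ : Fintype α) (r : α → α → Prop) (rk : α → ℕ),
     (∀ a b, r a b → rk a < rk b) ∧ (∃ a b, a ≠ b ∧ rk a = rk b) ∧
     ∀ x y : α, x ≠ y →
       1 - γ < |((Fintype.card α : ℝ) + 1) * (Mo r y / V r) - ((Fintype.card α : ℝ) + 1) * (Mo r x / V r)|) →
  ¬ (∃ γ : ℝ, 0 < γ ∧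
      ∀ (α : Type) [Fintype α] [PartialOrder α],
        (∃ a b : α, ¬ a ≤ b ∧ ¬ b ≤ a) →
        ∀ L : Finset (α ≃ Fin (Fintype.card α)),
          (∀ f : α ≃ Fin (Fintype.card α), f ∈ L ↔ ∀ x y : α, x < y → f x < f y) →
          ∃ x y : α, x ≠ y ∧
            0 ≤ (∑ f ∈ L, ((f y : ℕ) : ℝ)) / (L.card : ℝ)
                - (∑ f ∈ L, ((f x : ℕ) : ℝ)) / (L.card : ℝ) ∧
            (∑ f ∈ L, ((f y : ℕ) : ℝ)) / (L.card : ℝ)
                - (∑ f ∈ L, ((f x : ℕ) : ℝ)) / (L.card : ℝ) ≤ 1 - γ)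

/-- error parameter of the Q estimate (generous) -/
noncomputable def theta (g s : ℕ) : ℝ := 10 ^ 6 * (s : ℝ) ^ 3 * (g : ℝ) ^ 8 * (800 / 841) ^ s

/-- `μ = s 2^{-s} / 2` -/
noncomputable def mu (s : ℕ) : ℝ := s * (1 / 2) ^ s / 2

/-- BLOCK P (parameters). Take `h = s^2`, `g = 2h+1`, `e = s + 4`, `q = ⌊1 / (g^2 μ)⌋`, `M = q (g - e)`,
`s` large: `M ≤ 1/(gμ) ≤ 2^s`, so the harmonic sum is `≤ 1 + log M ≤ 1 + s`. -/
def BlockP : Prop := ∀ γ : ℝ, 0 < γ → ∃ (s g h q M e : ℕ),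
    1 ≤ s ∧ g = 2 * h + 1 ∧ 1 ≤ h ∧ e < g ∧ 1 ≤ q ∧ M = q * (g - e) ∧
    theta g s ≤ γ ∧ theta g s ≤ 1 / 10 ∧
    1 - γ < M * g * mu s * (1 - 2 * theta g s) ∧
    1 - γ < (M : ℝ) / q - M * g * mu s * (g - 1 + 2 * theta g s) ∧
    1 < (M : ℝ) * (g * (1 - mu s * (g - 1) - 2 * theta g s * mu s) -
      ((M : ℝ) / q + ∑ R ∈ Finset.range M, 1 / ((R : ℝ) + 1)))

end Pool.MP6e
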