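import Pool.Agent.Work.MP_6e2e82_co.Interface

/-!
# Interface, second part: the statement of Block Q (helper8) and Block F (final assembly, helper77).
-/

set_option autoImplicit false
open MeasureTheory Filter Topology Set

namespace Pool.MP6e

/-- BLOCK Q: for every `η > 0` and every `N0` there is a copy `κ` with at least `N0` elements, levels
`lev` (the relation increases levels), chains `ch`, and (with `n = card κ`, `φ x = Mo x / V` the mean of
the coordinate `x` over the order region of the copy)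
(Q1) same level, `ch x < ch y`: `n (φ x - φ y) ≥ g μ (1 - 2θ) - η`
(Q2) same level: `n |φ x - φ y| ≤ g μ (g - 1 + 2θ) + η`
(Q3) `lev x < lev y`: `n (φ y - φ x) ≥ g (1 - μ (g - 1) - 2 θ μ) - η`
(Q4) `n φ x` and `n (1 - φ x)` are `≥ g (1 - μ (g - 1) - 2 θ μ) - η`. -/
def BlockQ : Prop := ∀ (g h s : ℕ), g = 2 * h + 1 → 1 ≤ h → 1 ≤ s → theta g s ≤ 1 / 10 →
    ∀ η : ℝ, 0 < η → ∀ N0 : ℕ,
    ∃ (κ : Type) (_ : Fintype κ) (_ : Nonempty κ) (rκ : κ → κ → Prop) (lev ch : κ → ℕ),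
      N0 ≤ Fintype.card κ ∧
      (∀ x y, rκ x y → lev x < lev y) ∧
      (∀ x y, lev x = lev y → ch x = ch y → x = y) ∧
      (∃ x y, x ≠ y ∧ lev x = lev y) ∧
      (∀ x y, lev x = lev y → ch x < ch y →
        g * mu s * (1 - 2 * theta g s) - η ≤ (Fintype.card κ : ℝ) * (Mo rκ x / V rκ - Mo rκ y / V rκ)) ∧
      (∀ x y, lev x = lev y →
        (Fintype.card κ : ℝ) * |Mo rκ x / V rκ - Mo rκ y / V rκ| ≤ g * mu s * (g - 1 + 2 * theta g s) + η) ∧
      (∀ x y, lev x < lev y →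
        g * (1 - mu s * (g - 1) - 2 * theta g s * mu s) - η ≤
          (Fintype.card κ : ℝ) * (Mo rκ y / V rκ - Mo rκ x / V rκ)) ∧
      (∀ x, g * (1 - mu s * (g - 1) - 2 * theta g s * mu s) - η ≤ (Fintype.card κ : ℝ) * (Mo rκ x / V rκ) ∧
        g * (1 - mu s * (g - 1) - 2 * theta g s * mu s) - η ≤ (Fintype.card κ : ℝ) * (1 - Mo rκ x / V rκ))

/-- BLOCK F (final assembly): hypothesis of `BlockC`. Take parameters from `blockP`, spine from
`blockS M q`, `κ` from `BlockQ` with `η` small and `N0` large, and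
`r = rP (· < ·) (· < ·) rκ ν (ν ∘ Fin.rev)` on `(Fin Λ ⊕ Fin Λ) ⊕ (Fin M × κ)`; `card = 2Λ + M n`.
Heights: `b i = Mo r (inl (inl i)) / V r`, `b' i = 1 - Mo r (inl (inr i)) / V r`, by `limit_bot`,
`limit_top`, `Mo_comp_bot`, `Mo_comp_top`, `V_comp`: `n b i → T i`, `n b' i → T i`
(`fA` for `ν ∘ rev` equals `fA` for `ν`), and `Mo_comp_mod`:
`h(l, x) = (1 - φ x) b (ν l) + φ x (1 - b' (ν (rev l)))`. -/
def BlockF : Prop := BlockQ → ∀ γ : ℝ, 0 < γ →
    ∃ (α : Type) (_ : Fintype α) (r : α → α → Prop) (rk : α → ℕ),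
     (∀ a b, r a b → rk a < rk b) ∧ (∃ a b, a ≠ b ∧ rk a = rk b) ∧
     ∀ x y : α, x ≠ y →
       1 - γ < |((Fintype.card α : ℝ) + 1) * (Mo r y / V r) - ((Fintype.card α : ℝ) + 1) * (Mo r x / V r)|

end Pool.MP6e
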