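import Pool.Agent.Work.MP_6e2e82_co.Reals

set_option autoImplicit false
set_option linter.unusedSectionVars false
open MeasureTheory Filter Topology

namespace Pool.MP6e

/-- order cone in the positive orthant -/
def Cn {D : Type*} (r : D → D → Prop) : Set (D → ℝ) := {x | (∀ i, 0 < x i) ∧ ∀ i j, r i j → x i < x j}

lemma measurableSet_Cn {D : Type*} [Fintype D] (r : D → D → Prop) : MeasurableSet (Cn r) := by
  have h : Cn r = (⋂ a, {x : D → ℝ | 0 < x a}) ∩
      ⋂ a, ⋂ b, ⋂ (_ : r a b), {x : D → ℝ | x a < x b} := by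
    ext x
    simp [Cn]
  rw [h]
  refine MeasurableSet.inter ?_ ?_
  · exact MeasurableSet.iInter fun a => measurableSet_lt measurable_const (measurable_pi_apply a)
  · refine MeasurableSet.iInter fun a => MeasurableSet.iInter fun b => MeasurableSet.iInter fun _ => ?_
    exact measurableSet_lt (measurable_pi_apply a) (measurable_pi_apply b)

section one
variable {A ι : Type*} [Fintype A] [Fintype ι]

/-- limiting density of the bottom part -/
noncomputable def fA (rA : A → A → Prop) (τ : ι → A) : (A → ℝ) → ℝ :=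
  (Cn rA).indicator (fun X => Real.exp (-∑ l, X (τ l)))

lemma fA_nonneg (rA : A → A → Prop) (τ : ι → A) (X : A → ℝ) : 0 ≤ fA rA τ X :=
  Set.indicator_nonneg (fun _ _ => (Real.exp_pos _).le) _

noncomputable def ZA (rA : A → A → Prop) (τ : ι → A) : ℝ := ∫ X, fA rA τ X

noncomputable def NA (rA : A → A → Prop) (τ : ι → A) (a : A) : ℝ := ∫ X, X a * fA rA τ X

end one

section lim
variable {A B ι : Type*} [Fintype A] [Fintype B] [Fintype ι]
  (rA : A → A → Prop) (rB : B → B → Prop) (τ : ι → A) (σ : ι → B)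

/-- limiting density on both parts -/
noncomputable def fD : (A ⊕ B → ℝ) → ℝ :=
  (Cn (rD rA rB)).indicator (fun X => Real.exp (-∑ l, (X (.inr (σ l)) + X (.inl (τ l)))))

lemma fD_split (x : A → ℝ) (y : B → ℝ) :
    fD rA rB τ σ (Sum.elim x y) = fA rA τ x * fA rB σ y := by
  unfold fD fA
  have hiff : Sum.elim x y ∈ Cn (rD rA rB) ↔ x ∈ Cn rA ∧ y ∈ Cn rB := by
    constructor
    · rintro ⟨h1, h2⟩
      exact ⟨⟨fun a => h1 (.inl a), fun a b hab => h2 (.inl a) (.inl b) hab⟩,
        ⟨fun a => h1 (.inr a), fun a b hab => h2 (.inr a) (.inr b) hab⟩⟩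
    · rintro ⟨⟨h1, h2⟩, ⟨h3, h4⟩⟩
      refine ⟨fun i => ?_, fun i j hij => ?_⟩
      · cases i with
        | inl a => exact h1 a
        | inr b => exact h3 b
      · cases i <;> cases j
        · exact h2 _ _ hij
        · exact hij.elim
        · exact hij.elim
        · exact h4 _ _ hij
  by_cases hx : x ∈ Cn rA
  · by_cases hy : y ∈ Cn rB
    · rw [Set.indicator_of_mem (hiff.2 ⟨hx, hy⟩), Set.indicator_of_mem hx, Set.indicator_of_mem hy,
        ← Real.exp_add]
      congr 1
      simp only [Sum.elim_inr, Sum.elim_inl, Finset.sum_add_distrib]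
      ring
    · rw [Set.indicator_of_notMem (fun h => hy (hiff.1 h).2), Set.indicator_of_notMem hy, mul_zero]
  · rw [Set.indicator_of_notMem (fun h => hx (hiff.1 h).1), Set.indicator_of_notMem hx, zero_mul]

lemma mp_sum : MeasurePreserving
    (MeasurableEquiv.sumPiEquivProdPi (fun _ : A ⊕ B => ℝ)).symm := 
  (volume_measurePreserving_sumPiEquivProdPi (fun _ : A ⊕ B => ℝ)).symm

lemma sum_symm_apply (p : (A → ℝ) × (B → ℝ)) :
    (MeasurableEquiv.sumPiEquivProdPi (fun _ : A ⊕ B => ℝ)).symm p = Sum.elim p.1 p.2 := by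
  funext i
  cases i <;> rfl

lemma integral_fD : ∫ X, fD rA rB τ σ X = ZA rA τ * ZA rB σ := by
  rw [← (mp_sum (A := A) (B := B)).integral_comp' (fD rA rB τ σ)]
  simp_rw [sum_symm_apply, fD_split]
  exact integral_prod_mul _ _

lemma integral_fD_inl (a : A) : ∫ X, X (.inl a) * fD rA rB τ σ X = NA rA τ a * ZA rB σ := by
  rw [← (mp_sum (A := A) (B := B)).integral_comp' (fun X => X (.inl a) * fD rA rB τ σ X)]
  simp_rw [sum_symm_apply, fD_split, Sum.elim_inl, ← mul_assoc]
  exact integral_prod_mul (fun x : A → ℝ => x a * fA rA τ x) (fun y => fA rB σ y)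

lemma integral_fD_inr (b : B) : ∫ X, X (.inr b) * fD rA rB τ σ X = ZA rA τ * NA rB σ b := by
  rw [← (mp_sum (A := A) (B := B)).integral_comp' (fun X => X (.inr b) * fD rA rB τ σ X)]
  simp_rw [sum_symm_apply, fD_split, Sum.elim_inr]
  have : ∀ p : (A → ℝ) × (B → ℝ), p.2 b * (fA rA τ p.1 * fA rB σ p.2) =
    fA rA τ p.1 * (p.2 b * fA rB σ p.2) := fun p => by ring
  simp_rw [this]
  exact integral_prod_mul (fun x : A → ℝ => fA rA τ x) (fun y => y b * fA rB σ y)

lemma integrable_fD (hA : Integrable (fA rA τ)) (hB : Integrable (fA rB σ)) :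
    Integrable (fD rA rB τ σ) := by
  rw [← (mp_sum (A := A) (B := B)).integrable_comp_emb (MeasurableEquiv.measurableEmbedding _)]
  have : (fD rA rB τ σ ∘ ⇑(MeasurableEquiv.sumPiEquivProdPi fun x : A ⊕ B => ℝ).symm) =
      fun p => fA rA τ p.1 * fA rB σ p.2 := by
    funext p
    simp only [Function.comp, sum_symm_apply, fD_split]
  rw [this]
  exact hA.mul_prod hB

lemma integrable_fD_inl (a : A) (hA : Integrable (fun X : A → ℝ => X a * fA rA τ X))
    (hB : Integrable (fA rB σ)) : Integrable (fun X => X (.inl a) * fD rA rB τ σ X) := by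
  rw [← (mp_sum (A := A) (B := B)).integrable_comp_emb (MeasurableEquiv.measurableEmbedding _)]
  have : ((fun X => X (.inl a) * fD rA rB τ σ X) ∘ ⇑(MeasurableEquiv.sumPiEquivProdPi fun x : A ⊕ B => ℝ).symm) =
      fun p => (p.1 a * fA rA τ p.1) * fA rB σ p.2 := by
    funext p
    simp only [Function.comp, sum_symm_apply, fD_split, Sum.elim_inl]
    ring
  rw [this]
  exact hA.mul_prod hB

lemma integrable_fD_inr (b : B) (hA : Integrable (fA rA τ))
    (hB : Integrable (fun X : B → ℝ => X b * fA rB σ X)) :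
    Integrable (fun X => X (.inr b) * fD rA rB τ σ X) := by
  rw [← (mp_sum (A := A) (B := B)).integrable_comp_emb (MeasurableEquiv.measurableEmbedding _)]
  have : ((fun X => X (.inr b) * fD rA rB τ σ X) ∘ ⇑(MeasurableEquiv.sumPiEquivProdPi fun x : A ⊕ B => ℝ).symm) =
      fun p => fA rA τ p.1 * (p.2 b * fA rB σ p.2) := by
    funext p
    simp only [Function.comp, sum_symm_apply, fD_split, Sum.elim_inr]
    ring
  rw [this]
  exact hA.mul_prod hB

/-- the rescaled integrand -/
noncomputable def fn (G : (A ⊕ B → ℝ) → ℝ) (n : ℕ) (X : A ⊕ B → ℝ) : ℝ :=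
  (O (rD rA rB)).indicator (fun u => G ((n : ℝ) • u) * Wr τ σ n u) ((n : ℝ)⁻¹ • X)

lemma max_pow_le_exp (n : ℕ) (hn : 0 < n) (t : ℝ) :
    (max (1 - t / n) 0) ^ n ≤ Real.exp (-t) := by
  rcases le_or_gt t n with h | h
  · have h0 : 0 ≤ 1 - t / n := by
      rw [sub_nonneg, div_le_one (by exact_mod_cast hn)]; exact h
    rw [max_eq_left h0]
    exact Real.one_sub_div_pow_le_exp_neg h
  · have h0 : 1 - t / n ≤ 0 := by
      rw [sub_nonpos, one_le_div (by exact_mod_cast hn)]; exact h.le
    rw [max_eq_right h0, zero_pow hn.ne']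
    exact (Real.exp_pos _).le

lemma max_pow_tendsto (t : ℝ) :
    Tendsto (fun n : ℕ => (max (1 - t / n) 0) ^ n) atTop (𝓝 (Real.exp (-t))) := by
  have h := Real.tendsto_one_add_div_pow_exp (-t)
  refine h.congr' ?_
  filter_upwards [eventually_ge_atTop (⌈|t|⌉₊ + 1)] with n hn
  have hn' : t < n := by
    have h1 := Nat.le_ceil |t|
    have h2 : ((⌈|t|⌉₊ + 1 : ℕ) : ℝ) ≤ n := by exact_mod_cast hn
    have h3 := le_abs_self t
    push_cast at h2
    linarith
  have hnpos : (0 : ℝ) < n := by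
    have : 0 < n := by omega
    exact_mod_cast this
  have h0 : 0 ≤ 1 - t / n := by
    rw [sub_nonneg, div_le_one hnpos]; exact hn'.le
  rw [max_eq_left h0]
  congr 1
  ring

lemma fn_bound (G : (A ⊕ B → ℝ) → ℝ) (n : ℕ) (hn : 0 < n) (X : A ⊕ B → ℝ) :
    ‖fn rA rB τ σ G n X‖ ≤ ‖G X * fD rA rB τ σ X‖ := by
  have hnpos : (0 : ℝ) < n := by exact_mod_cast hn
  unfold fn
  by_cases hX : (n : ℝ)⁻¹ • X ∈ O (rD rA rB)
  · rw [Set.indicator_of_mem hX]
    have hXC : X ∈ Cn (rD rA rB) := by
      refine ⟨fun i => ?_, fun i j hij => ?_⟩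
      · have := (hX.1 i).1
        simp only [Pi.smul_apply, smul_eq_mul] at this
        exact (mul_pos_iff_of_pos_left (inv_pos.2 hnpos)).1 this
      · have := hX.2 i j hij
        simp only [Pi.smul_apply, smul_eq_mul] at this
        exact lt_of_mul_lt_mul_left this (by positivity)
    unfold fD
    rw [Set.indicator_of_mem hXC, smul_smul, mul_inv_cancel₀ hnpos.ne', one_smul, norm_mul, norm_mul]
    refine mul_le_mul_of_nonneg_left ?_ (norm_nonneg _)
    rw [Real.norm_of_nonneg (Wr_nonneg τ σ n _), Real.norm_of_nonneg (Real.exp_pos _).le,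
      ← Finset.sum_neg_distrib, Real.exp_sum]
    unfold Wr
    refine Finset.prod_le_prod (fun _ _ => pow_nonneg (le_max_right _ _) _) fun l _ => ?_
    have := max_pow_le_exp n hn (X (.inr (σ l)) + X (.inl (τ l)))
    have e : 1 - ((n : ℝ)⁻¹ • X) (.inr (σ l)) - ((n : ℝ)⁻¹ • X) (.inl (τ l)) =
        1 - (X (.inr (σ l)) + X (.inl (τ l))) / n := by
      simp only [Pi.smul_apply, smul_eq_mul]
      field_simp
      ring
    rw [e]
    exact this
  · rw [Set.indicator_of_notMem hX, norm_zero]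
    exact norm_nonneg _

lemma fn_tendsto (G : (A ⊕ B → ℝ) → ℝ) (X : A ⊕ B → ℝ) :
    Tendsto (fun n => fn rA rB τ σ G n X) atTop (𝓝 (G X * fD rA rB τ σ X)) := by
  by_cases hXC : X ∈ Cn (rD rA rB)
  · have hev : ∀ᶠ n : ℕ in atTop, fn rA rB τ σ G n X =
        G X * ∏ l, (max (1 - (X (.inr (σ l)) + X (.inl (τ l))) / n) 0) ^ n := by
      obtain ⟨M, hM⟩ : ∃ M : ℕ, ∀ i, X i < M := by
        obtain ⟨M, hM⟩ := exists_nat_gt (∑ i, X i)
        refine ⟨M, fun i => lt_of_le_of_lt ?_ hM⟩
        exact Finset.single_le_sum (fun j _ => (hXC.1 j).le) (Finset.mem_univ i)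
      filter_upwards [eventually_ge_atTop (M + 1)] with n hn
      have hnpos : (0 : ℝ) < n := by
        have : 0 < n := by omega
        exact_mod_cast this
      have hMn : (M : ℝ) < n := by
        have : M < n := by omega
        exact_mod_cast this
      have hX : (n : ℝ)⁻¹ • X ∈ O (rD rA rB) := by
        refine ⟨fun i => ⟨?_, ?_⟩, fun i j hij => ?_⟩
        · simp only [Pi.smul_apply, smul_eq_mul]
          have := hXC.1 i
          positivity
        · simp only [Pi.smul_apply, smul_eq_mul]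
          rw [inv_mul_lt_iff₀ hnpos]
          linarith [hM i]
        · simp only [Pi.smul_apply, smul_eq_mul]
          exact mul_lt_mul_of_pos_left (hXC.2 i j hij) (by positivity)
      unfold fn
      rw [Set.indicator_of_mem hX, smul_smul, mul_inv_cancel₀ hnpos.ne', one_smul]
      congr 1
      unfold Wr
      refine Finset.prod_congr rfl fun l _ => ?_
      congr 2
      simp only [Pi.smul_apply, smul_eq_mul]
      field_simp
      ring
    refine Tendsto.congr' (EventuallyEq.symm hev) ?_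
    refine Tendsto.const_mul _ ?_
    unfold fD
    rw [Set.indicator_of_mem hXC, ← Finset.sum_neg_distrib, Real.exp_sum]
    exact tendsto_finsetProd _ fun l _ => max_pow_tendsto _
  · have h0 : ∀ n : ℕ, 0 < n → fn rA rB τ σ G n X = 0 := by
      intro n hn
      have hnpos : (0 : ℝ) < n := by exact_mod_cast hn
      unfold fn
      refine Set.indicator_of_notMem (fun hX => hXC ?_) _
      refine ⟨fun i => ?_, fun i j hij => ?_⟩
      · have := (hX.1 i).1
        simp only [Pi.smul_apply, smul_eq_mul] at this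
        exact (mul_pos_iff_of_pos_left (inv_pos.2 hnpos)).1 this
      · have := hX.2 i j hij
        simp only [Pi.smul_apply, smul_eq_mul] at this
        exact lt_of_mul_lt_mul_left this (by positivity)
    have hfD : fD rA rB τ σ X = 0 := Set.indicator_of_notMem hXC _
    rw [hfD, mul_zero]
    refine tendsto_const_nhds.congr' ?_
    filter_upwards [eventually_gt_atTop 0] with n hn
    exact (h0 n hn).symm

lemma J_eq_fn (G : (A ⊕ B → ℝ) → ℝ) (n : ℕ) (hn : 0 < n) :
    ∫ X, fn rA rB τ σ G n X = (n : ℝ) ^ (Fintype.card (A ⊕ B)) *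
      J rA rB τ σ n (fun u => G ((n : ℝ) • u)) := by
  have hnpos : (0 : ℝ) < n := by exact_mod_cast hn
  unfold fn J
  rw [← integral_indicator (measurableSet_O _)]
  rw [Measure.integral_comp_smul volume
    ((O (rD rA rB)).indicator (fun u => G ((n : ℝ) • u) * Wr τ σ n u)) (n : ℝ)⁻¹]
  rw [Module.finrank_fintype_fun_eq_card, inv_pow, inv_inv, abs_of_pos (by positivity), smul_eq_mul]

theorem fn_integral_tendsto (G : (A ⊕ B → ℝ) → ℝ) (hG : Measurable G)
    (hint : Integrable (fun X => G X * fD rA rB τ σ X)) :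
    Tendsto (fun n => ∫ X, fn rA rB τ σ G n X) atTop (𝓝 (∫ X, G X * fD rA rB τ σ X)) := by
  have hshift : Tendsto (fun n => ∫ X, fn rA rB τ σ G (n + 1) X) atTop
      (𝓝 (∫ X, G X * fD rA rB τ σ X)) := by
    refine tendsto_integral_of_dominated_convergence (fun X => ‖G X * fD rA rB τ σ X‖)
      (fun n => ?_) hint.norm (fun n => Eventually.of_forall fun X => fn_bound rA rB τ σ G _ (Nat.succ_pos n) X)
      (Eventually.of_forall fun X => (fn_tendsto rA rB τ σ G X).comp (tendsto_add_atTop_nat 1))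
    have h1 : Measurable ((O (rD rA rB)).indicator (fun u => G (((n + 1 : ℕ) : ℝ) • u) * Wr τ σ (n + 1) u)) :=
      ((hG.comp (measurable_const_smul _)).mul (measurable_Wr τ σ _)).indicator (measurableSet_O _)
    exact (h1.comp (measurable_const_smul _)).aestronglyMeasurable
  exact (tendsto_add_atTop_iff_nat 1).1 hshift

theorem limit_bot (a : A) (hA : Integrable (fA rA τ)) (hA' : Integrable (fun X : A → ℝ => X a * fA rA τ X))
    (hB : Integrable (fA rB σ)) (hZA : ZA rA τ ≠ 0) (hZB : ZA rB σ ≠ 0) :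
    Tendsto (fun n : ℕ => n * (J rA rB τ σ n (fun u => u (.inl a)) / J rA rB τ σ n (fun _ => 1))) atTop
      (𝓝 (NA rA τ a / ZA rA τ)) := by
  have h1 := fn_integral_tendsto rA rB τ σ (fun X => X (.inl a)) (by fun_prop)
    (integrable_fD_inl rA rB τ σ a hA' hB)
  have h2 := fn_integral_tendsto rA rB τ σ (fun _ => 1) (by fun_prop)
    (by simpa using integrable_fD rA rB τ σ hA hB)
  simp only [one_mul] at h2
  rw [integral_fD_inl] at h1
  rw [integral_fD] at h2
  have h3 := h1.div h2 (mul_ne_zero hZA hZB)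
  have h4 : NA rA τ a * ZA rB σ / (ZA rA τ * ZA rB σ) = NA rA τ a / ZA rA τ := by
    field_simp
  rw [h4] at h3
  refine h3.congr' ?_
  filter_upwards [eventually_gt_atTop 0] with n hn
  have hnpos : (0 : ℝ) < n := by exact_mod_cast hn
  simp only [Pi.div_apply]
  rw [J_eq_fn _ _ _ _ _ n hn, J_eq_fn _ _ _ _ _ n hn]
  have : J rA rB τ σ n (fun u => ((n : ℝ) • u) (.inl a)) = n * J rA rB τ σ n (fun u => u (.inl a)) := by
    unfold J
    rw [← integral_const_mul]
    refine setIntegral_congr_fun (measurableSet_O _) fun u _ => ?_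
    simp only [Pi.smul_apply, smul_eq_mul]
    ring
  rw [this]
  have hp : (n : ℝ) ^ Fintype.card (A ⊕ B) ≠ 0 := by positivity
  rw [mul_div_mul_left _ _ hp, mul_div_assoc]

theorem limit_top (b : B) (hA : Integrable (fA rA τ)) (hB : Integrable (fA rB σ))
    (hB' : Integrable (fun X : B → ℝ => X b * fA rB σ X)) (hZA : ZA rA τ ≠ 0) (hZB : ZA rB σ ≠ 0) :
    Tendsto (fun n : ℕ => n * (J rA rB τ σ n (fun u => u (.inr b)) / J rA rB τ σ n (fun _ => 1))) atTop
      (𝓝 (NA rB σ b / ZA rB σ)) := by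
  have h1 := fn_integral_tendsto rA rB τ σ (fun X => X (.inr b)) (by fun_prop)
    (integrable_fD_inr rA rB τ σ b hA hB')
  have h2 := fn_integral_tendsto rA rB τ σ (fun _ => 1) (by fun_prop)
    (by simpa using integrable_fD rA rB τ σ hA hB)
  simp only [one_mul] at h2
  rw [integral_fD_inr] at h1
  rw [integral_fD] at h2
  have h3 := h1.div h2 (mul_ne_zero hZA hZB)
  have h4 : ZA rA τ * NA rB σ b / (ZA rA τ * ZA rB σ) = NA rB σ b / ZA rB σ := by
    field_simp
  rw [h4] at h3
  refine h3.congr' ?_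
  filter_upwards [eventually_gt_atTop 0] with n hn
  have hnpos : (0 : ℝ) < n := by exact_mod_cast hn
  simp only [Pi.div_apply]
  rw [J_eq_fn _ _ _ _ _ n hn, J_eq_fn _ _ _ _ _ n hn]
  have : J rA rB τ σ n (fun u => ((n : ℝ) • u) (.inr b)) = n * J rA rB τ σ n (fun u => u (.inr b)) := by
    unfold J
    rw [← integral_const_mul]
    refine setIntegral_congr_fun (measurableSet_O _) fun u _ => ?_
    simp only [Pi.smul_apply, smul_eq_mul]
    ring
  rw [this]
  have hp : (n : ℝ) ^ Fintype.card (A ⊕ B) ≠ 0 := by positivity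
  rw [mul_div_mul_left _ _ hp, mul_div_assoc]

end lim

end Pool.MP6e
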