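import Pool.Agent.Work.MP_6e2e82_co.Vol

set_option autoImplicit false
open MeasureTheory

namespace Pool.MP6e

variable {α : Type*} [Fintype α]

/-- the relation on `Option α` where the extra point lies below `v` -/
def ropt (r : α → α → Prop) (v : α) : Option α → Option α → Prop
  | some a, some b => r a b
  | none, some b => b = v
  | _, none => False

/-- insertion -/
def ins {n : ℕ} (f : α ≃ Fin n) (k : Fin (n + 1)) : Option α ≃ Fin (n + 1) :=
  (Equiv.optionCongr f).trans (finSuccEquiv' k).symm

omit [Fintype α] in
@[simp] lemma ins_none {n : ℕ} (f : α ≃ Fin n) (k : Fin (n + 1)) : ins f k none = k := by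
  simp [ins]

omit [Fintype α] in
@[simp] lemma ins_some {n : ℕ} (f : α ≃ Fin n) (k : Fin (n + 1)) (a : α) :
    ins f k (some a) = k.succAbove (f a) := by
  simp [ins]

lemma ins_surj {n : ℕ} (g : Option α ≃ Fin (n + 1)) :
    ∃ (f : α ≃ Fin n) (k : Fin (n + 1)), ins f k = g := by
  let e : Option α ≃ Option (Fin n) := g.trans (finSuccEquiv' (g none))
  have he : e none = none := by simp [e]
  refine ⟨e.removeNone, g none, ?_⟩
  ext1 x
  cases x with
  | none => simp
  | some a =>
    rw [ins_some]
    have h1 : ∃ x', e (some a) = some x' := by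
      cases h : e (some a) with
      | none => exact absurd (e.injective (h.trans he.symm)) (by simp)
      | some y => exact ⟨y, rfl⟩
    have h2 : some (e.removeNone a) = e (some a) := Equiv.removeNone_some e h1
    have h3 : (finSuccEquiv' (g none)).symm (some (e.removeNone a)) = g (some a) := by
      rw [h2]; simp [e]
    rw [finSuccEquiv'_symm_some] at h3
    exact h3

lemma card_LE_ropt {n : ℕ} (r : α → α → Prop) (v : α) :
    (LE (n + 1) (ropt r v)).card = ∑ f ∈ LE n r, ((f v : ℕ) + 1) := by
  classical
  have h1 : ∑ f ∈ LE n r, ((f v : ℕ) + 1) =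
      ((LE n r).sigma (fun f => Finset.Iic (f v).castSucc)).card := by
    rw [Finset.card_sigma]
    refine Finset.sum_congr rfl fun f _ => ?_
    rw [Fin.card_Iic]; simp
  rw [h1]
  symm
  refine Finset.card_bij (fun p _ => ins p.1 p.2) ?_ ?_ ?_
  · rintro ⟨f, k⟩ hp
    simp only [Finset.mem_sigma, Finset.mem_Iic] at hp
    rw [mem_LE]
    intro x y hxy
    cases x with
    | none =>
      cases y with
      | none => exact hxy.elim
      | some b =>
        have hb : b = v := hxy
        subst hb
        rw [ins_none, ins_some, Fin.lt_succAbove_iff_le_castSucc]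
        exact hp.2
    | some a =>
      cases y with
      | none => exact hxy.elim
      | some b =>
        rw [ins_some, ins_some, Fin.succAbove_lt_succAbove_iff]
        exact mem_LE.1 hp.1 a b hxy
  · rintro ⟨f, k⟩ _ ⟨f', k'⟩ _ h
    have hk : k = k' := by
      have := congrArg (fun e : Option α ≃ Fin (n+1) => e none) h
      simpa using this
    subst hk
    have hf : f = f' := by
      ext a
      have := congrArg (fun e : Option α ≃ Fin (n+1) => e (some a)) h
      simp only [ins_some] at this
      exact congrArg _ (Fin.succAbove_right_injective this)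
    subst hf
    rfl
  · intro g hg
    obtain ⟨f, k, rfl⟩ := ins_surj g
    rw [mem_LE] at hg
    refine ⟨⟨f, k⟩, ?_, rfl⟩
    simp only [Finset.mem_sigma, Finset.mem_Iic]
    constructor
    · rw [mem_LE]
      intro a b hab
      have := hg (some a) (some b) hab
      rwa [ins_some, ins_some, Fin.succAbove_lt_succAbove_iff] at this
    · have := hg none (some v) rfl
      rwa [ins_none, ins_some, Fin.lt_succAbove_iff_le_castSucc] at this

lemma volume_O_ropt (r : α → α → Prop) (v : α) :
    volume (O (ropt r v)) = ∫⁻ x in O r, ENNReal.ofReal (x v) := by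
  have hmp := Measure.pi_map_piOptionEquivProd (β := fun _ : Option α => ℝ) (fun _ => (volume : Measure ℝ))
  have hmeas : MeasurableSet (O (ropt r v)) := measurableSet_O _
  have h1 : volume (O (ropt r v)) =
      ((Measure.pi fun _ : α => (volume : Measure ℝ)).prod volume)
        ((MeasurableEquiv.piOptionEquivProd (fun _ : Option α => ℝ)).symm ⁻¹' (O (ropt r v))) := by
    have : (volume : Measure (Option α → ℝ)) = Measure.pi fun _ => volume := rfl
    rw [this, ← hmp, MeasurableEquiv.map_apply]
  rw [h1, Measure.prod_apply (MeasurableEquiv.measurable _ hmeas), ← lintegral_indicator (measurableSet_O r)]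
  refine lintegral_congr fun x => ?_
  by_cases hx : x ∈ O r
  · rw [Set.indicator_of_mem hx]
    have : (Prod.mk x ⁻¹' ((MeasurableEquiv.piOptionEquivProd (fun _ : Option α => ℝ)).symm ⁻¹'
        (O (ropt r v)))) = Set.Ioo 0 (x v) := by
      ext y
      simp only [Set.mem_preimage, Set.mem_Ioo]
      have hs : ∀ a, (MeasurableEquiv.piOptionEquivProd (fun _ : Option α => ℝ)).symm (x, y) (some a) = x a :=
        fun a => rfl
      have hn : (MeasurableEquiv.piOptionEquivProd (fun _ : Option α => ℝ)).symm (x, y) none = y := rfl
      constructor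
      · rintro ⟨h1, h2⟩
        refine ⟨?_, ?_⟩
        · have := (h1 none).1; rwa [hn] at this
        · have := h2 none (some v) rfl; rwa [hn, hs] at this
      · rintro ⟨h1, h2⟩
        refine ⟨fun a => ?_, fun a b hab => ?_⟩
        · cases a with
          | none => rw [hn]; exact ⟨h1, h2.trans (hx.1 v).2⟩
          | some a => rw [hs]; exact hx.1 a
        · cases a with
          | none =>
            cases b with
            | none => exact hab.elim
            | some b =>
              have hb : b = v := hab
              rw [hn, hs, hb]; exact h2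
          | some a =>
            cases b with
            | none => exact hab.elim
            | some b => rw [hs, hs]; exact hx.2 a b hab
    rw [this, Real.volume_Ioo, sub_zero]
  · rw [Set.indicator_of_notMem hx]
    have : (Prod.mk x ⁻¹' ((MeasurableEquiv.piOptionEquivProd (fun _ : Option α => ℝ)).symm ⁻¹'
        (O (ropt r v)))) = ∅ := by
      rw [Set.eq_empty_iff_forall_notMem]
      intro y hy
      apply hx
      refine ⟨fun a => hy.1 (some a), fun a b hab => hy.2 (some a) (some b) hab⟩
    rw [this, measure_empty]

/-- real volume of the order region -/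
noncomputable def V (r : α → α → Prop) : ℝ := (volume (O r)).toReal

/-- first moment of the order region -/
noncomputable def Mo (r : α → α → Prop) (v : α) : ℝ := ∫ x in O r, x v

theorem V_eq {n : ℕ} (hn : Fintype.card α = n) (r : α → α → Prop) :
    V r = (LE n r).card / n.factorial := by
  rw [V, volume_O hn]
  simp [div_eq_mul_inv]

theorem Mo_eq {n : ℕ} (hn : Fintype.card α = n) (r : α → α → Prop) (v : α) :
    Mo r v = (∑ f ∈ LE n r, ((f v : ℝ) + 1)) / (n + 1).factorial := by
  have hn' : Fintype.card (Option α) = n + 1 := by rw [Fintype.card_option, hn]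
  have h := volume_O hn' (ropt r v)
  rw [volume_O_ropt, card_LE_ropt] at h
  rw [Mo, integral_eq_lintegral_of_nonneg_ae]
  · rw [h, ENNReal.toReal_mul, ENNReal.toReal_natCast, ENNReal.toReal_inv, ENNReal.toReal_natCast,
      div_eq_mul_inv]
    push_cast
    rfl
  · rw [Filter.EventuallyLE, ae_restrict_iff' (measurableSet_O r)]
    exact Filter.Eventually.of_forall fun x hx => (hx.1 v).1.le
  · exact (measurable_pi_apply v).aestronglyMeasurable

/-- average height (0-indexed) through the order region -/
theorem avg_eq {n : ℕ} (hn : Fintype.card α = n) (r : α → α → Prop) (v : α) (hV : V r ≠ 0) :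
    (∑ f ∈ LE n r, (f v : ℝ)) / (LE n r).card = (n + 1) * (Mo r v / V r) - 1 := by
  have h1 := V_eq hn r
  have h2 := Mo_eq hn r v
  have hc : ((LE n r).card : ℝ) ≠ 0 := by
    intro h; apply hV; rw [h1, h, zero_div]
  rw [h2, h1, Finset.sum_add_distrib, Finset.sum_const, nsmul_eq_mul, mul_one, Nat.factorial_succ]
  have hf : (n.factorial : ℝ) ≠ 0 := by positivity
  have hn1 : ((n : ℝ) + 1) ≠ 0 := by positivity
  push_cast
  field_simp
  ring

end Pool.MP6e
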