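import Mathlib

/-!
MP_6e2e82_co: order polytope formulas.

For a finite type `α`, a relation `r` and the finset `L` of `r`-increasing bijections
`α ≃ Fin (card α)`: the open order polytope `OP r` has volume `#L / n!`, and the integral of the
coordinate `x v` over it is `∑ f ∈ L, (f v + 1) / (n+1)!`.
-/

set_option autoImplicit false

open MeasureTheory Set

namespace Pool.Agent.Work.MP_6e2e82_co

/-! ### The standard simplex of increasing sequences -/

/-- increasing sequences in `(0,1)` -/
def Simp (n : ℕ) : Set (Fin n → ℝ) := {x | StrictMono x ∧ ∀ i, x i ∈ Ioo (0 : ℝ) 1}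

/-- `0, x 0, x 1, ..., x (n-1), 1, 1, ...` -/
def ext {n : ℕ} (x : Fin n → ℝ) (j : ℕ) : ℝ :=
  if j = 0 then 0 else if h : j - 1 < n then x ⟨j - 1, h⟩ else 1

@[simp] lemma ext_zero {n : ℕ} (x : Fin n → ℝ) : ext x 0 = 0 := by simp [ext]

lemma ext_succ {n : ℕ} (x : Fin n → ℝ) {j : ℕ} (h : j < n) : ext x (j + 1) = x ⟨j, h⟩ := by
  simp [ext, h]

lemma ext_last {n : ℕ} (x : Fin n → ℝ) : ext x (n + 1) = 1 := by
  simp [ext]

lemma mem_simp_insertNth {n : ℕ} (i : Fin (n + 1)) (y : ℝ) (x : Fin n → ℝ) :
    i.insertNth (α := fun _ => ℝ) y x ∈ Simp (n + 1) ↔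
      x ∈ Simp n ∧ y ∈ Ioo (ext x i) (ext x (i + 1)) := by
  have hmem : (∀ j, i.insertNth (α := fun _ => ℝ) y x j ∈ Ioo (0 : ℝ) 1) ↔
      y ∈ Ioo (0 : ℝ) 1 ∧ ∀ j, x j ∈ Ioo (0 : ℝ) 1 := by
    rw [Fin.forall_iff_succAbove i]
    simp
  unfold Simp
  simp only [mem_ofPred_eq]
  rw [hmem, Fin.strictMono_insertNth_iff]
  constructor
  · rintro ⟨⟨h1, h2, h3⟩, h4, h5⟩
    refine ⟨⟨h1, h5⟩, ?_, ?_⟩
    · rcases Nat.eq_zero_or_pos i.val with h0 | h0
      · rw [h0, ext_zero]; exact h4.1
      · have hlt : i.val - 1 < n := by omega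
        have e : i.val = (i.val - 1) + 1 := by omega
        rw [e, ext_succ x hlt]
        apply h2
        rw [Fin.lt_def]
        simp only [Fin.val_castSucc]
        omega
    · rcases Nat.lt_or_ge i.val n with h0 | h0
      · rw [ext_succ x h0]
        apply h3
        rw [Fin.le_def]
        simp
      · have : i.val = n := by omega
        rw [this, ext_last]
        exact h4.2
  · rintro ⟨⟨h1, h5⟩, h6, h7⟩
    have hlow : ∀ j : Fin n, j.castSucc < i → x j ≤ ext x i := by
      intro j hj
      rw [Fin.lt_def] at hj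
      simp only [Fin.val_castSucc] at hj
      have hlt : i.val - 1 < n := by omega
      have e : i.val = (i.val - 1) + 1 := by omega
      rw [e, ext_succ x hlt]
      apply h1.monotone
      rw [Fin.le_def]
      simp only
      omega
    have hhigh : ∀ j : Fin n, i ≤ j.castSucc → ext x (i + 1) ≤ x j := by
      intro j hj
      rw [Fin.le_def] at hj
      simp only [Fin.val_castSucc] at hj
      have hlt : i.val < n := by omega
      rw [ext_succ x hlt]
      apply h1.monotone
      rw [Fin.le_def]
      exact hj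
    have h0 : 0 ≤ ext x i := by
      rcases Nat.eq_zero_or_pos i.val with h0 | h0
      · rw [h0, ext_zero]
      · have hlt : i.val - 1 < n := by omega
        have e : i.val = (i.val - 1) + 1 := by omega
        rw [e, ext_succ x hlt]
        exact (h5 _).1.le
    have h1' : ext x (i + 1) ≤ 1 := by
      rcases Nat.lt_or_ge i.val n with h0 | h0
      · rw [ext_succ x h0]
        exact (h5 _).2.le
      · have : i.val = n := by omega
        rw [this, ext_last]
    refine ⟨⟨h1, fun j hj => (hlow j hj).trans_lt h6, fun j hj => h7.trans_le (hhigh j hj)⟩,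
      ⟨h0.trans_lt h6, h7.trans_le h1'⟩, h5⟩

lemma measurableSet_simp (n : ℕ) : MeasurableSet (Simp n) := by
  have : Simp n = (⋂ i : Fin n, ⋂ j : Fin n, {x | i < j → x i < x j}) ∩
      ⋂ i : Fin n, {x | x i ∈ Ioo (0 : ℝ) 1} := by
    ext x
    simp only [Simp, StrictMono, mem_ofPred_eq, mem_inter_iff, mem_iInter]
  rw [this]
  refine MeasurableSet.inter ?_ ?_
  · refine MeasurableSet.iInter fun i => MeasurableSet.iInter fun j => ?_
    by_cases h : i < j
    · simp only [h, true_implies]
      exact measurableSet_lt (measurable_pi_apply i) (measurable_pi_apply j)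
    · simp [h]
  · exact MeasurableSet.iInter fun i => measurable_pi_apply i measurableSet_Ioo

lemma simp_subset (n : ℕ) : Simp n ⊆ Set.univ.pi fun _ => Icc (0 : ℝ) 1 := by
  intro x hx i _
  exact Ioo_subset_Icc_self (hx.2 i)

lemma volume_simp_lt_top (n : ℕ) : volume (Simp n) < ⊤ := by
  refine (measure_mono (simp_subset n)).trans_lt ?_
  rw [volume_pi_pi]
  simp

lemma measurable_ext {n : ℕ} (j : ℕ) : Measurable fun x : Fin n → ℝ => ext x j := by
  unfold ext
  split_ifs with h h'
  · exact measurable_const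
  · exact measurable_pi_apply _
  · exact measurable_const

lemma ext_bound {n : ℕ} {x : Fin n → ℝ} (hx : x ∈ Simp n) (j : ℕ) : ext x j ∈ Icc (0 : ℝ) 1 := by
  unfold ext
  split_ifs with h h'
  · simp
  · exact Ioo_subset_Icc_self (hx.2 _)
  · simp

lemma ext_le_succ {n : ℕ} {x : Fin n → ℝ} (hx : x ∈ Simp n) (j : ℕ) (hj : j ≤ n) :
    ext x j ≤ ext x (j + 1) := by
  rcases Nat.eq_zero_or_pos j with h0 | h0
  · rw [h0, ext_zero]; exact (ext_bound hx _).1
  · have hlt : j - 1 < n := by omega
    have e : j = (j - 1) + 1 := by omega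
    rcases Nat.lt_or_ge j n with h1 | h1
    · rw [ext_succ x h1]
      have h2 : ext x j = x ⟨j - 1, hlt⟩ := by
        conv_lhs => rw [e]
        rw [ext_succ x hlt]
      rw [h2]
      apply hx.1.monotone
      rw [Fin.le_def]
      simp
    · have : j = n := by omega
      subst this
      rw [ext_last]
      exact (ext_bound hx _).2

lemma integrableOn_ext {n : ℕ} (j : ℕ) :
    IntegrableOn (fun x : Fin n → ℝ => ext x j) (Simp n) := by
  refine Measure.integrableOn_of_bounded (M := 1) (volume_simp_lt_top n).ne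
    (measurable_ext j).aestronglyMeasurable ?_
  filter_upwards [ae_restrict_mem (measurableSet_simp n)] with x hx
  rw [Real.norm_eq_abs, abs_le]
  have := ext_bound hx j
  constructor <;> linarith [this.1, this.2]

lemma integrableOn_gap {n : ℕ} (j k : ℕ) :
    IntegrableOn (fun x : Fin n → ℝ => ext x j - ext x k) (Simp n) :=
  (integrableOn_ext j).sub (integrableOn_ext k)

/-- key recursion: the volume of the next simplex is the integral of any gap -/
lemma volume_succ {n : ℕ} (i : Fin (n + 1)) :
    volume.real (Simp (n + 1)) = ∫ x in Simp n, (ext x (i + 1) - ext x i) := by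
  have hmp := (volume_preserving_piFinSuccAbove (fun _ : Fin (n + 1) => ℝ) i).symm
  have h1 : volume (Simp (n + 1)) =
      (volume : Measure (ℝ × (Fin n → ℝ)))
        ((MeasurableEquiv.piFinSuccAbove (fun _ : Fin (n + 1) => ℝ) i).symm ⁻¹' Simp (n + 1)) :=
    (hmp.measure_preimage (measurableSet_simp _).nullMeasurableSet).symm
  have hms : MeasurableSet ((MeasurableEquiv.piFinSuccAbove (fun _ : Fin (n + 1) => ℝ) i).symm ⁻¹'
      Simp (n + 1)) := (MeasurableEquiv.measurable _) (measurableSet_simp _)
  have h2 : volume (Simp (n + 1)) =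
      ∫⁻ x in Simp n, ENNReal.ofReal (ext x (i + 1) - ext x i) := by
    rw [h1, Measure.volume_eq_prod, Measure.prod_apply_symm hms,
      ← lintegral_indicator (measurableSet_simp n)]
    refine lintegral_congr fun x => ?_
    have : (fun y => (y, x)) ⁻¹'
        ((MeasurableEquiv.piFinSuccAbove (fun _ : Fin (n + 1) => ℝ) i).symm ⁻¹' Simp (n + 1)) =
        {y | x ∈ Simp n ∧ y ∈ Ioo (ext x i) (ext x (i + 1))} := by
      ext y
      rw [mem_preimage, mem_preimage, mem_ofPred_eq, ← mem_simp_insertNth]
      rfl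
    rw [this]
    by_cases hx : x ∈ Simp n
    · simp only [hx, true_and, ofPred_mem_eq, Real.volume_Ioo, indicator_of_mem]
    · simp [hx]
  have hint : IntegrableOn (fun x : Fin n → ℝ => ext x (i + 1) - ext x i) (Simp n) :=
    (integrableOn_ext _).sub (integrableOn_ext _)
  have hnn : 0 ≤ᵐ[volume.restrict (Simp n)] fun x : Fin n → ℝ => ext x (i + 1) - ext x i := by
    filter_upwards [ae_restrict_mem (measurableSet_simp n)] with x hx
    have := ext_le_succ hx i (by omega)
    simp only [Pi.zero_apply]
    linarith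
  rw [Measure.real, h2, ← ofReal_integral_eq_lintegral_ofReal hint hnn, ENNReal.toReal_ofReal]
  exact integral_nonneg_of_ae hnn

lemma volume_simp (n : ℕ) : volume.real (Simp n) = 1 / (n.factorial : ℝ) := by
  induction n with
  | zero =>
    have : Simp 0 = univ := by
      ext x
      simp [Simp, StrictMono]
    rw [this]
    simp [Measure.real, volume_pi]
  | succ n ih =>
    have hsum : ∑ i : Fin (n + 1), (∫ x in Simp n, (ext x (i + 1) - ext x i)) =
        volume.real (Simp n) := by
      rw [← integral_finsetSum _ (fun i _ => integrableOn_gap _ _)]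
      have : ∀ x : Fin n → ℝ, ∑ i : Fin (n + 1), (ext x (i + 1) - ext x i) = 1 := by
        intro x
        rw [Fin.sum_univ_eq_sum_range (fun j => ext x (j + 1) - ext x j) (n + 1),
          Finset.sum_range_sub, ext_last, ext_zero, sub_zero]
      simp only [this]
      simp
    have h2 : ∑ i : Fin (n + 1), (∫ x in Simp n, (ext x (i + 1) - ext x i)) =
        (n + 1 : ℝ) * volume.real (Simp (n + 1)) := by
      simp only [← volume_succ]
      simp
    rw [h2, ih] at hsum
    rw [Nat.factorial_succ]
    push_cast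
    have hf : (n.factorial : ℝ) ≠ 0 := by positivity
    field_simp
    field_simp at hsum
    linarith

lemma integral_simp {n : ℕ} (k : Fin n) :
    ∫ x in Simp n, x k = ((k : ℕ) + 1 : ℝ) / ((n + 1).factorial : ℝ) := by
  have h1 : ∀ x : Fin n → ℝ, x k = ∑ i ∈ Finset.range (k + 1), (ext x (i + 1) - ext x i) := by
    intro x
    rw [Finset.sum_range_sub, ext_zero, sub_zero, ext_succ x k.isLt]
  simp_rw [h1]
  rw [integral_finsetSum _ (fun i _ => integrableOn_gap _ _)]
  have h2 : ∀ i ∈ Finset.range ((k : ℕ) + 1), ∫ x in Simp n, (ext x (i + 1) - ext x i) =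
      volume.real (Simp (n + 1)) := by
    intro i hi
    have hk := k.isLt
    rw [Finset.mem_range] at hi
    rw [volume_succ (⟨i, by omega⟩ : Fin (n + 1))]
  rw [Finset.sum_congr rfl h2, volume_simp]
  simp
  ring

/-! ### General order polytopes -/

variable {α : Type} [Fintype α]

/-- the open order polytope of a relation -/
def OP (r : α → α → Prop) : Set (α → ℝ) :=
  {x | (∀ a, x a ∈ Ioo (0 : ℝ) 1) ∧ ∀ a b, r a b → x a < x b}

/-- points ordered according to the bijection `f` -/
def Cell (f : α ≃ Fin (Fintype.card α)) : Set (α → ℝ) :=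
  {x | (fun k => x (f.symm k)) ∈ Simp (Fintype.card α)}

/-- the null set of non-injective points -/
def Diag (α : Type) : Set (α → ℝ) := {x | ∃ a b, a ≠ b ∧ x a = x b}

lemma volume_diag : volume (Diag α) = 0 := by
  have : Diag α = ⋃ a : α, ⋃ b : α, {x | a ≠ b ∧ x a = x b} := by
    ext x; simp [Diag]
  rw [this]
  refine measure_iUnion_null fun a => measure_iUnion_null fun b => ?_
  by_cases hab : a = b
  · simp [hab]
  · have h2 : {x : α → ℝ | a ≠ b ∧ x a = x b} =
        ((LinearMap.ker (LinearMap.proj (R := ℝ) (φ := fun _ : α => ℝ) a -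
          LinearMap.proj (R := ℝ) (φ := fun _ : α => ℝ) b) : Submodule ℝ (α → ℝ)) :
            Set (α → ℝ)) := by
      ext x
      simp [hab, sub_eq_zero]
    rw [h2]
    refine Measure.addHaar_submodule _ _ ?_
    intro htop
    classical
    have : (Pi.single a 1 : α → ℝ) ∈ (⊤ : Submodule ℝ (α → ℝ)) := Submodule.mem_top
    rw [← htop] at this
    simp [Ne.symm hab] at this

lemma coe_reindex (f : α ≃ Fin (Fintype.card α)) :
    (⇑(MeasurableEquiv.piCongrLeft (fun _ => ℝ) f) : (α → ℝ) → Fin (Fintype.card α) → ℝ) =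
      fun x k => x (f.symm k) := by
  funext x k
  obtain ⟨a, rfl⟩ := f.surjective k
  rw [MeasurableEquiv.coe_piCongrLeft, Equiv.piCongrLeft_apply_apply, Equiv.symm_apply_apply]

lemma measurable_reindex (f : α ≃ Fin (Fintype.card α)) :
    MeasurePreserving (fun (x : α → ℝ) (k : Fin (Fintype.card α)) => x (f.symm k))
      volume volume := by
  have h := volume_measurePreserving_piCongrLeft (fun _ => ℝ) f
  rwa [coe_reindex] at h

lemma measurableSet_cell (f : α ≃ Fin (Fintype.card α)) : MeasurableSet (Cell f) :=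
  (measurable_reindex f).measurable (measurableSet_simp _)

lemma mem_cell {f : α ≃ Fin (Fintype.card α)} {x : α → ℝ} :
    x ∈ Cell f ↔ (∀ a b, f a < f b → x a < x b) ∧ ∀ a, x a ∈ Ioo (0 : ℝ) 1 := by
  unfold Cell Simp StrictMono
  simp only [mem_ofPred_eq]
  constructor
  · rintro ⟨h1, h2⟩
    refine ⟨fun a b hab => by simpa using h1 hab, fun a => by simpa using h2 (f a)⟩
  · rintro ⟨h1, h2⟩
    refine ⟨fun j k hjk => h1 _ _ (by simpa using hjk), fun k => h2 _⟩

lemma exists_cell {x : α → ℝ} (hx : Function.Injective x) (h01 : ∀ a, x a ∈ Ioo (0 : ℝ) 1) :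
    ∃ f : α ≃ Fin (Fintype.card α), x ∈ Cell f := by
  let _ : LinearOrder α := LinearOrder.lift' x hx
  let e : Fin (Fintype.card α) ≃o α := Fintype.orderIsoFinOfCardEq α rfl
  refine ⟨e.symm.toEquiv, mem_cell.2 ⟨fun a b hab => ?_, h01⟩⟩
  have : a < b := by
    have h := e.strictMono hab
    simpa using h
  exact this

lemma cell_unique {x : α → ℝ} {f g : α ≃ Fin (Fintype.card α)} (hf : x ∈ Cell f)
    (hg : x ∈ Cell g) : f = g := by
  rw [mem_cell] at hf hg
  have hmono : StrictMono (fun k => g (f.symm k)) := by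
    intro j k hjk
    by_contra hcon
    have h1 : x (f.symm j) < x (f.symm k) := hf.1 _ _ (by simpa using hjk)
    rcases (not_lt.1 hcon).lt_or_eq with h2 | h2
    · exact absurd (hg.1 _ _ h2) (not_lt.2 h1.le)
    · have : f.symm k = f.symm j := g.injective h2
      rw [this] at h1
      exact lt_irrefl _ h1
  have h3 : (fun k => g (f.symm k)) = id := by
    have := hmono.range_inj (f := fun k => g (f.symm k)) (g := id) strictMono_id
    rw [this.1]
    simp only [range_id]
    exact (f.symm.trans g).surjective.range_eq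
  ext a
  have := congrFun h3 (f a)
  simp at this
  rw [this]

lemma integral_cell (f : α ≃ Fin (Fintype.card α)) (g : (Fin (Fintype.card α) → ℝ) → ℝ) :
    ∫ x in Cell f, g (fun k => x (f.symm k)) = ∫ x in Simp (Fintype.card α), g x := by
  have hmp : MeasurePreserving (MeasurableEquiv.piCongrLeft (fun _ => ℝ) f) volume volume :=
    volume_measurePreserving_piCongrLeft (fun _ => ℝ) f
  have h := hmp.setIntegral_preimage_emb (MeasurableEquiv.measurableEmbedding _) g
    (Simp (Fintype.card α))
  simp only [coe_reindex] at h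
  exact h

lemma OP_ae (r : α → α → Prop) (L : Finset (α ≃ Fin (Fintype.card α)))
    (hL : ∀ f, f ∈ L ↔ ∀ a b, r a b → f a < f b) :
    OP r =ᵐ[volume] ⋃ f ∈ L, Cell f := by
  have hd : ∀ᵐ x : α → ℝ, x ∉ Diag α := measure_eq_zero_iff_ae_notMem.1 volume_diag
  filter_upwards [hd] with x hx
  have hinj : Function.Injective x := by
    intro a b hab
    by_contra hne
    exact hx ⟨a, b, hne, hab⟩
  have : x ∈ OP r ↔ x ∈ ⋃ f ∈ L, Cell f := by
    simp only [mem_iUnion, exists_prop]
    constructor
    · rintro ⟨h1, h2⟩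
      obtain ⟨f, hf⟩ := exists_cell hinj h1
      refine ⟨f, (hL f).2 fun a b hab => ?_, hf⟩
      by_contra hcon
      have h3 := h2 a b hab
      rcases (not_lt.1 hcon).lt_or_eq with h4 | h4
      · exact absurd ((mem_cell.1 hf).1 _ _ h4) (not_lt.2 h3.le)
      · have : b = a := f.injective h4
        rw [this] at h3
        exact lt_irrefl _ h3
    · rintro ⟨f, hfL, hf⟩
      exact ⟨(mem_cell.1 hf).2, fun a b hab => (mem_cell.1 hf).1 _ _ ((hL f).1 hfL a b hab)⟩
  exact propext this

lemma integrableOn_cell_coord (f : α ≃ Fin (Fintype.card α)) (v : α) :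
    IntegrableOn (fun x : α → ℝ => x v) (Cell f) := by
  have hfin : volume (Cell f) < ⊤ := by
    refine (measure_mono (t := Set.univ.pi fun _ => Icc (0 : ℝ) 1) ?_).trans_lt ?_
    · intro x hx a _
      exact Ioo_subset_Icc_self ((mem_cell.1 hx).2 a)
    · rw [volume_pi_pi]; simp
  refine Measure.integrableOn_of_bounded (M := 1) hfin.ne
    (measurable_pi_apply v).aestronglyMeasurable ?_
  filter_upwards [ae_restrict_mem (measurableSet_cell f)] with x hx
  have := (mem_cell.1 hx).2 v
  rw [Real.norm_eq_abs, abs_le]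
  constructor <;> linarith [this.1, this.2]

lemma pairwise_cell (L : Finset (α ≃ Fin (Fintype.card α))) :
    (L : Set (α ≃ Fin (Fintype.card α))).PairwiseDisjoint Cell := by
  intro f _ g _ hfg
  refine Set.disjoint_left.2 fun x hx hx' => hfg (cell_unique hx hx')

/-- the integral of a coordinate over the order polytope -/
theorem integral_OP (r : α → α → Prop) (L : Finset (α ≃ Fin (Fintype.card α)))
    (hL : ∀ f, f ∈ L ↔ ∀ a b, r a b → f a < f b) (v : α) :
    ∫ x in OP r, x v =
      (∑ f ∈ L, (((f v : ℕ) : ℝ) + 1)) / ((Fintype.card α + 1).factorial : ℝ) := by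
  rw [setIntegral_congr_set (OP_ae r L hL),
    integral_biUnion_finset L (fun f _ => measurableSet_cell f) (pairwise_cell L)
      (fun f _ => integrableOn_cell_coord f v), Finset.sum_div]
  refine Finset.sum_congr rfl fun f _ => ?_
  have := integral_cell f (fun x => x (f v))
  simp only [Equiv.symm_apply_apply] at this
  rw [this, integral_simp]

/-- the volume of the order polytope -/
theorem volume_OP (r : α → α → Prop) (L : Finset (α ≃ Fin (Fintype.card α)))
    (hL : ∀ f, f ∈ L ↔ ∀ a b, r a b → f a < f b) :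
    ∫ _ in OP r, (1 : ℝ) = (L.card : ℝ) / ((Fintype.card α).factorial : ℝ) := by
  have hfin : ∀ f : α ≃ Fin (Fintype.card α), volume (Cell f) < ⊤ := by
    intro f
    refine (measure_mono (t := Set.univ.pi fun _ => Icc (0 : ℝ) 1) ?_).trans_lt ?_
    · intro x hx a _
      exact Ioo_subset_Icc_self ((mem_cell.1 hx).2 a)
    · rw [volume_pi_pi]; simp
  rw [setIntegral_congr_set (OP_ae r L hL),
    integral_biUnion_finset L (fun f _ => measurableSet_cell f) (pairwise_cell L)
      (fun f _ => integrableOn_const (hfin f).ne)]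
  have : ∀ f ∈ L, ∫ _ in Cell f, (1 : ℝ) = 1 / ((Fintype.card α).factorial : ℝ) := by
    intro f _
    rw [← volume_simp]
    have := integral_cell f (fun _ => (1 : ℝ))
    rw [this]
    simp
  rw [Finset.sum_congr rfl this]
  simp
  ring

end Pool.Agent.Work.MP_6e2e82_co
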