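import Pool.Agent.Work.MP_6e2e82_co.Limit

set_option autoImplicit false
set_option linter.unusedSectionVars false
open MeasureTheory Filter Topology Set

namespace Pool.MP6e

/-- 1D functions -/
noncomputable def e0 (w : ℝ) : ℝ → ℝ := (Ioi (0:ℝ)).indicator (fun x => Real.exp (-(w * x)))
noncomputable def e1 (w : ℝ) : ℝ → ℝ := (Ioi (0:ℝ)).indicator (fun x => x * Real.exp (-(w * x)))

lemma integrable_e0 {w : ℝ} (hw : 0 < w) : Integrable (e0 w) := by
  unfold e0
  rw [integrable_indicator_iff measurableSet_Ioi]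
  have := integrableOn_exp_mul_Ioi (a := -w) (by linarith) 0
  simpa using this

lemma integral_e0 {w : ℝ} (hw : 0 < w) : ∫ x, e0 w x = 1 / w := by
  unfold e0
  rw [integral_indicator measurableSet_Ioi]
  have := integral_exp_mul_Ioi (a := -w) (by linarith) 0
  simp only [neg_mul, mul_zero, Real.exp_zero] at this
  rw [this]
  field_simp

lemma integrable_e1 {w : ℝ} (hw : 0 < w) : Integrable (e1 w) := by
  unfold e1
  rw [integrable_indicator_iff measurableSet_Ioi]
  have := integrableOn_rpow_mul_exp_neg_mul_rpow (p := 1) (s := 1) (b := w) (by norm_num) (by norm_num) hw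
  simpa using this

lemma integral_e1 {w : ℝ} (hw : 0 < w) : ∫ x, e1 w x = 1 / w * (1 / w) := by
  unfold e1
  rw [integral_indicator measurableSet_Ioi]
  have := Real.integral_rpow_mul_exp_neg_mul_Ioi (a := 2) (r := w) (by norm_num) hw
  have h2 : Real.Gamma 2 = 1 := Real.Gamma_two
  rw [h2] at this
  have h3 : (2 : ℝ) - 1 = 1 := by norm_num
  rw [h3] at this
  simp only [Real.rpow_one] at this
  rw [this]
  have : (2 : ℝ) = ((2 : ℕ) : ℝ) := by norm_num
  rw [this, Real.rpow_natCast]
  ring

section
variable {A : Type*} [Fintype A]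

/-- open positive orthant -/
def orth (A : Type*) : Set (A → ℝ) := {ξ | ∀ a, 0 < ξ a}

lemma measurableSet_orth : MeasurableSet (orth A) := by
  have h : orth A = (⋂ a, {x : A → ℝ | 0 < x a}) := by
    ext x
    simp [orth]
  rw [h]
  exact MeasurableSet.iInter fun a => measurableSet_lt measurable_const (measurable_pi_apply a)

/-- exponential weight on the orthant -/
noncomputable def gw (w : A → ℝ) : (A → ℝ) → ℝ :=
  (orth A).indicator (fun ξ => Real.exp (-∑ a, w a * ξ a))

lemma gw_eq_prod (w : A → ℝ) (ξ : A → ℝ) : gw w ξ = ∏ a, e0 (w a) (ξ a) := by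
  unfold gw e0
  by_cases h : ξ ∈ orth A
  · rw [indicator_of_mem h, ← Finset.sum_neg_distrib, Real.exp_sum]
    refine Finset.prod_congr rfl fun a _ => ?_
    rw [indicator_of_mem (show ξ a ∈ Ioi (0:ℝ) from h a)]
  · rw [indicator_of_notMem h]
    simp only [orth, Set.mem_setOf_eq, not_forall, not_lt] at h
    obtain ⟨a, ha⟩ := h
    symm
    refine Finset.prod_eq_zero (Finset.mem_univ a) ?_
    rw [indicator_of_notMem]
    exact fun h' => absurd h' (not_lt.2 ha)

lemma integrable_gw {w : A → ℝ} (hw : ∀ a, 0 < w a) : Integrable (gw w) := by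
  have : gw w = fun ξ => ∏ a, e0 (w a) (ξ a) := funext (gw_eq_prod w)
  rw [this]
  exact Integrable.fintype_prod (fun a => integrable_e0 (hw a))

lemma integral_gw {w : A → ℝ} (hw : ∀ a, 0 < w a) : ∫ ξ, gw w ξ = ∏ a, 1 / w a := by
  simp_rw [gw_eq_prod]
  rw [integral_fintype_prod_volume_eq_prod (fun a => e0 (w a))]
  exact Finset.prod_congr rfl fun a _ => integral_e0 (hw a)

lemma mul_gw_eq_prod [DecidableEq A] (w : A → ℝ) (b : A) (ξ : A → ℝ) :
    ξ b * gw w ξ = ∏ a, (if a = b then e1 (w a) else e0 (w a)) (ξ a) := by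
  rw [gw_eq_prod, ← Finset.mul_prod_erase Finset.univ _ (Finset.mem_univ b),
    ← Finset.mul_prod_erase Finset.univ (fun a => (if a = b then e1 (w a) else e0 (w a)) (ξ a))
    (Finset.mem_univ b), ← mul_assoc]
  congr 1
  · simp only [if_true]
    unfold e0 e1
    by_cases h : ξ b ∈ Ioi (0:ℝ)
    · rw [indicator_of_mem h, indicator_of_mem h]
    · rw [indicator_of_notMem h, indicator_of_notMem h, mul_zero]
  · refine Finset.prod_congr rfl fun a ha => ?_
    rw [if_neg (Finset.ne_of_mem_erase ha)]

lemma integrable_mul_gw {w : A → ℝ} (hw : ∀ a, 0 < w a) (b : A) :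
    Integrable (fun ξ : A → ℝ => ξ b * gw w ξ) := by
  classical
  simp_rw [mul_gw_eq_prod]
  refine Integrable.fintype_prod (f := fun a => (if a = b then e1 (w a) else e0 (w a))) (fun a => ?_)
  split_ifs
  · exact integrable_e1 (hw a)
  · exact integrable_e0 (hw a)

lemma integral_mul_gw {w : A → ℝ} (hw : ∀ a, 0 < w a) (b : A) :
    ∫ ξ : A → ℝ, ξ b * gw w ξ = 1 / w b * ∏ a, 1 / w a := by
  classical
  simp_rw [mul_gw_eq_prod]
  rw [integral_fintype_prod_volume_eq_prod (fun a => (if a = b then e1 (w a) else e0 (w a)))]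
  rw [← Finset.mul_prod_erase Finset.univ _ (Finset.mem_univ b),
    ← Finset.mul_prod_erase Finset.univ (fun a => 1 / w a) (Finset.mem_univ b), ← mul_assoc]
  congr 1
  · simp only [if_true]
    exact integral_e1 (hw b)
  · refine Finset.prod_congr rfl fun a ha => ?_
    rw [if_neg (Finset.ne_of_mem_erase ha)]
    exact integral_e0 (hw a)

/-- integral of a linear form against the weight -/
lemma integral_lin_gw {w : A → ℝ} (hw : ∀ a, 0 < w a) (c : A → ℝ) :
    ∫ ξ : A → ℝ, (∑ b, c b * ξ b) * gw w ξ = (∑ b, c b / w b) * ∏ a, 1 / w a := by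
  simp_rw [Finset.sum_mul, mul_assoc]
  rw [integral_finsetSum]
  · refine Finset.sum_congr rfl fun b _ => ?_
    rw [integral_const_mul, integral_mul_gw hw]
    ring
  · intro b _
    exact (integrable_mul_gw hw b).const_mul _

lemma integrable_lin_gw {w : A → ℝ} (hw : ∀ a, 0 < w a) (c : A → ℝ) :
    Integrable (fun ξ : A → ℝ => (∑ b, c b * ξ b) * gw w ξ) := by
  simp_rw [Finset.sum_mul, mul_assoc]
  exact integrable_finsetSum _ fun b _ => (integrable_mul_gw hw b).const_mul _

/-- a matrix of determinant one preserves volume -/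
lemma mp_matrix [DecidableEq A] (M : Matrix A A ℝ) (hM : M.det = 1) :
    MeasurePreserving (fun ξ : A → ℝ => M.mulVec ξ) := by
  have h := Real.map_matrix_volume_pi_eq_smul_volume_pi (M := M) (by rw [hM]; exact one_ne_zero)
  rw [hM] at h
  simp only [inv_one, abs_one, ENNReal.ofReal_one, one_smul] at h
  refine ⟨?_, ?_⟩
  · exact (LinearMap.continuous_on_pi (Matrix.toLin' M)).measurable
  · exact h

end

/-- partial sums on `Fin s` -/
def PS (s : ℕ) (ξ : Fin s → ℝ) : Fin s → ℝ := fun j => ∑ i ∈ Finset.Iic j, ξ i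

lemma mp_PS (s : ℕ) : MeasurePreserving (PS s) := by
  let M : Matrix (Fin s) (Fin s) ℝ := Matrix.of fun j i => if i ≤ j then 1 else 0
  have hdet : M.det = 1 := by
    rw [Matrix.det_of_isLowerTriangular]
    · simp [M]
    · intro i j hij
      have : i < j := hij
      simp [M, this]
  have h := mp_matrix M hdet
  have : (fun ξ : Fin s → ℝ => M.mulVec ξ) = PS s := by
    funext ξ j
    simp only [Matrix.mulVec, dotProduct, M, Matrix.of_apply, PS, ite_mul, one_mul, zero_mul]
    rw [← Finset.sum_filter]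
    congr 1
    ext i; simp
  rwa [this] at h

/-- partial sums along the second coordinate -/
def Lm (K : Type*) (s : ℕ) (ξ : K × Fin s → ℝ) : K × Fin s → ℝ :=
  fun p => ∑ i ∈ Finset.Iic p.2, ξ (p.1, i)

lemma mp_Lm (K : Type*) [Fintype K] (s : ℕ) : MeasurePreserving (Lm K s) := by
  have h1 := mp_curry K (Fin s)
  have h2 : MeasurePreserving (fun (a : K → Fin s → ℝ) (k : K) => PS s (a k)) :=
    volume_preserving_pi (fun _ => mp_PS s)
  have h3 := (mp_curry K (Fin s)).symm
  have h4 := (h3.comp h2).comp h1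
  have he : Lm K s = (⇑(MeasurableEquiv.curry K (Fin s) ℝ).symm ∘ fun a k => PS s (a k)) ∘
      ⇑(MeasurableEquiv.curry K (Fin s) ℝ) := by
    funext ξ p
    rfl
  rw [he]
  exact h4

/-- chain relation -/
def r0 (K : Type*) (s : ℕ) : K × Fin s → K × Fin s → Prop := fun p q => p.1 = q.1 ∧ p.2 < q.2

lemma Lm_mem_Cn {K : Type*} {s : ℕ} (ξ : K × Fin s → ℝ) :
    Lm K s ξ ∈ Cn (r0 K s) ↔ ξ ∈ orth (K × Fin s) := by
  constructor
  · rintro ⟨h1, h2⟩ ⟨k, j⟩
    rcases Nat.eq_zero_or_pos j.val with hj | hj
    · have h := h1 (k, j)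
      have hI : Finset.Iic j = {j} := by
        ext i; simp only [Finset.mem_Iic, Finset.mem_singleton]
        constructor
        · intro h; apply Fin.ext; have : i.val ≤ j.val := h; omega
        · rintro rfl; exact le_rfl
      simpa [Lm, hI] using h
    · let j' : Fin s := ⟨j.val - 1, by omega⟩
      have hlt : j' < j := by show j.val - 1 < j.val; omega
      have h := h2 (k, j') (k, j) ⟨rfl, hlt⟩
      have hI : Finset.Iic j = insert j (Finset.Iic j') := by
        ext i
        simp only [Finset.mem_Iic, Finset.mem_insert]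
        constructor
        · intro h
          rcases eq_or_lt_of_le h with h | h
          · left; exact h
          · right; show i.val ≤ j.val - 1; have : i.val < j.val := h; omega
        · rintro (h | h)
          · exact h.le
          · exact h.trans hlt.le
      simp only [Lm] at h
      rw [hI, Finset.sum_insert (by simp [hlt])] at h
      linarith
  · intro h
    refine ⟨fun p => ?_, fun p q hpq => ?_⟩
    · exact Finset.sum_pos (fun i _ => h _) ⟨p.2, by simp⟩
    · obtain ⟨k, j⟩ := p
      obtain ⟨k', j'⟩ := q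
      obtain ⟨h1, h2⟩ := hpq
      simp only at h1 h2
      subst h1
      simp only [Lm]
      refine Finset.sum_lt_sum_of_subset (i := j') ?_ (by simp) (by simp [h2]) (h _) (fun i _ _ => (h _).le)
      intro i hi
      simp only [Finset.mem_Iic] at hi ⊢
      exact hi.trans h2.le

lemma Lm_injective (K : Type*) (s : ℕ) : Function.Injective (Lm K s) := by
  intro ξ η h
  have key : ∀ n : ℕ, ∀ k : K, ∀ j : Fin s, j.val = n → ξ (k, j) = η (k, j) := by
    intro n
    induction n using Nat.strong_induction_on with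
    | _ n ih =>
      intro k j hj
      have hh := congrFun h (k, j)
      simp only [Lm] at hh
      rw [← Finset.add_sum_erase _ _ (show j ∈ Finset.Iic j by simp),
        ← Finset.add_sum_erase _ _ (show j ∈ Finset.Iic j by simp)] at hh
      have : ∑ x ∈ (Finset.Iic j).erase j, ξ (k, x) = ∑ x ∈ (Finset.Iic j).erase j, η (k, x) := by
        refine Finset.sum_congr rfl fun i hi => ?_
        have hlt : i < j := lt_of_le_of_ne (Finset.mem_Iic.1 (Finset.mem_of_mem_erase hi)) (Finset.ne_of_mem_erase hi)
        exact ih i.val (by rw [← hj]; exact hlt) k i rfl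
      linarith
  funext p
  exact key p.2.val p.1 p.2 rfl

end Pool.MP6e
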