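import Pool.Agent.Work.MP_6e2e82_co.Orth

set_option autoImplicit false
set_option linter.unusedSectionVars false
open MeasureTheory Filter Topology Set

namespace Pool.MP6e

/-- the weak relations between chains -/
def Rel (g i z : ℕ) : Prop := (i < z ∧ z ≤ 2 * i) ∨ z + g ≤ 2 * i

instance (g i z : ℕ) : Decidable (Rel g i z) := by unfold Rel; infer_instance

lemma Rel_ne {g i z : ℕ} (hz : z < g) (h : Rel g i z) : i ≠ z := by
  rintro rfl
  rcases h with h | h <;> omega

/-- out-degree of `i` is `i` -/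
lemma card_out (g : ℕ) (i : Fin g) :
    (Finset.univ.filter (fun z : Fin g => Rel g i z)).card = i.val := by
  have h1 : (Finset.univ.filter (fun z : Fin g => Rel g i z)).card =
      ((Finset.range g).filter (fun z => Rel g i z)).card := by
    rw [← Finset.card_map Fin.valEmbedding]
    congr 1
    ext z
    simp only [Finset.mem_map, Finset.mem_filter, Finset.mem_univ, true_and, Fin.valEmbedding_apply,
      Finset.mem_range]
    constructor
    · rintro ⟨a, ha, rfl⟩; exact ⟨a.2, ha⟩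
    · rintro ⟨h1, h2⟩; exact ⟨⟨z, h1⟩, h2, rfl⟩
  rw [h1]
  obtain ⟨i, hi⟩ := i
  simp only
  rcases Nat.lt_or_ge (2 * i) g with h | h
  · have : (Finset.range g).filter (fun z => Rel g i z) = Finset.Ioc i (2 * i) := by
      ext z
      rw [Finset.mem_filter, Finset.mem_range, Finset.mem_Ioc]
      unfold Rel
      omega
    rw [this, Nat.card_Ioc]; omega
  · have : (Finset.range g).filter (fun z => Rel g i z) =
        Finset.Ico (i + 1) g ∪ Finset.range (2 * i + 1 - g) := by
      ext z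
      rw [Finset.mem_filter, Finset.mem_range, Finset.mem_union, Finset.mem_Ico, Finset.mem_range]
      unfold Rel
      omega
    rw [this, Finset.card_union_of_disjoint, Nat.card_Ico, Finset.card_range]
    · omega
    · rw [Finset.disjoint_left]
      intro a ha hb
      simp only [Finset.mem_Ico, Finset.mem_range] at ha hb
      omega

/-- in-degree of every `z` is `h` -/
lemma card_in (g h : ℕ) (hg : g = 2 * h + 1) (z : Fin g) :
    (Finset.univ.filter (fun i : Fin g => Rel g i z)).card = h := by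
  have h1 : (Finset.univ.filter (fun i : Fin g => Rel g i z)).card =
      ((Finset.range g).filter (fun i => Rel g i z)).card := by
    rw [← Finset.card_map Fin.valEmbedding]
    congr 1
    ext i
    simp only [Finset.mem_map, Finset.mem_filter, Finset.mem_univ, true_and, Fin.valEmbedding_apply,
      Finset.mem_range]
    constructor
    · rintro ⟨a, ha, rfl⟩; exact ⟨a.2, ha⟩
    · rintro ⟨h1, h2⟩; exact ⟨⟨i, h1⟩, h2, rfl⟩
  rw [h1]
  obtain ⟨z, hz⟩ := z
  simp only
  have : (Finset.range g).filter (fun i => Rel g i z) =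
      Finset.Ico ((z + 1) / 2) z ∪ Finset.Ico ((z + g + 1) / 2) g := by
    ext i
    rw [Finset.mem_filter, Finset.mem_range, Finset.mem_union, Finset.mem_Ico, Finset.mem_Ico]
    unfold Rel
    omega
  rw [this, Finset.card_union_of_disjoint, Nat.card_Ico, Nat.card_Ico]
  · omega
  · rw [Finset.disjoint_left]
    intro a ha hb
    simp only [Finset.mem_Ico] at ha hb
    omega

section
variable (g S : ℕ)

/-- the index type of one end of `Q` -/
abbrev AQ := Fin g × Fin (S + 1)

/-- relation at one end -/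
def rQ : AQ g S → AQ g S → Prop := fun a b =>
  r0 (Fin g) (S + 1) a b ∨ (a.2 = 0 ∧ b.2 = Fin.last S ∧ Rel g a.1 b.1)

def tQ : Fin g → AQ g S := fun i => (i, Fin.last S)

variable {g S}

/-- violation of the relation `r = (i, z)` in increments -/
def viol (r : Fin g × Fin g) (ξ : AQ g S → ℝ) : Prop :=
  ∑ k, ξ (r.2, k) ≤ ξ (r.1, 0)

noncomputable def vf (r : Fin g × Fin g) : (AQ g S → ℝ) → ℝ :=
  {ξ | viol r ξ}.indicator 1

variable (g) in
def DR : Finset (Fin g × Fin g) := Finset.univ.filter (fun r => Rel g r.1 r.2)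

noncomputable def noV : (AQ g S → ℝ) → ℝ :=
  {ξ | ∀ r ∈ DR g, ¬ viol r ξ}.indicator 1

lemma vf_mem (r : Fin g × Fin g) (ξ : AQ g S → ℝ) : vf r ξ = 0 ∨ vf r ξ = 1 := by
  unfold vf
  by_cases h : viol r ξ
  · right; rw [indicator_of_mem (show ξ ∈ {ξ | viol r ξ} from h)]; rfl
  · left; rw [indicator_of_notMem (show ξ ∉ {ξ | viol r ξ} from h)]

lemma vf_nonneg (r : Fin g × Fin g) (ξ : AQ g S → ℝ) : 0 ≤ vf r ξ := by
  rcases vf_mem r ξ with h | h <;> rw [h] <;> norm_num

lemma measurable_vf (r : Fin g × Fin g) : Measurable (vf (g := g) (S := S) r) := by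
  unfold vf viol
  exact measurable_one.indicator (measurableSet_le (by fun_prop) (by fun_prop))

lemma measurable_noV : Measurable (noV (g := g) (S := S)) := by
  unfold noV viol
  refine measurable_one.indicator ?_
  have : {ξ : AQ g S → ℝ | ∀ r ∈ DR g, ¬∑ k, ξ (r.2, k) ≤ ξ (r.1, 0)} =
      ⋂ r, ⋂ (_ : r ∈ DR g), {ξ : AQ g S → ℝ | ∑ k, ξ (r.2, k) ≤ ξ (r.1, 0)}ᶜ := by
    ext ξ; simp
  rw [this]
  exact MeasurableSet.iInter fun r => MeasurableSet.iInter fun _ =>
    (measurableSet_le (by fun_prop) (by fun_prop)).compl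

lemma noV_bound (ξ : AQ g S → ℝ) :
    |noV ξ - 1 + ∑ r ∈ DR g, vf r ξ| ≤
      ∑ r ∈ DR g, ∑ r' ∈ (DR g).erase r, vf r ξ * vf r' ξ := by
  classical
  set W := ∑ r ∈ DR g, vf r ξ with hW
  have hWn : W = (((DR g).filter (fun r => viol r ξ)).card : ℝ) := by
    rw [hW, Finset.card_filter]
    push_cast
    refine Finset.sum_congr rfl fun r _ => ?_
    unfold vf
    by_cases h : viol r ξ
    · rw [indicator_of_mem (show ξ ∈ {ξ | viol r ξ} from h), if_pos h]; rfl
    · rw [indicator_of_notMem (show ξ ∉ {ξ | viol r ξ} from h), if_neg h]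
  have h2 : ∑ r ∈ DR g, ∑ r' ∈ (DR g).erase r, vf r ξ * vf r' ξ = W ^ 2 - W := by
    have : ∀ r ∈ DR g, ∑ r' ∈ (DR g).erase r, vf r ξ * vf r' ξ = vf r ξ * W - vf r ξ := by
      intro r hr
      rw [← Finset.mul_sum, hW, ← Finset.add_sum_erase _ _ hr]
      rcases vf_mem r ξ with h | h <;> rw [h] <;> ring
    rw [Finset.sum_congr rfl this, Finset.sum_sub_distrib, ← Finset.sum_mul]
    ring
  rw [h2]
  rcases Nat.eq_zero_or_pos ((DR g).filter (fun r => viol r ξ)).card with h0 | h0
  · have hno : noV ξ = 1 := by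
      unfold noV
      rw [indicator_of_mem]; · rfl
      intro r hr hv
      have := Finset.card_eq_zero.1 h0
      have hmem : r ∈ (DR g).filter (fun r => viol r ξ) := Finset.mem_filter.2 ⟨hr, hv⟩
      rw [this] at hmem
      exact absurd hmem (Finset.notMem_empty r)
    rw [hno, hWn, h0]; simp
  · have hno : noV ξ = 0 := by
      unfold noV
      rw [indicator_of_notMem]
      intro hall
      obtain ⟨r, hr⟩ := Finset.card_pos.1 h0
      rw [Finset.mem_filter] at hr
      exact hall r hr.1 hr.2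
    rw [hno]
    have hW1 : (1 : ℝ) ≤ W := by rw [hWn]; exact_mod_cast h0
    rw [abs_of_nonneg (by linarith)]
    nlinarith [sq_nonneg (W - 1)]

lemma fA_Lm (ξ : AQ g S → ℝ) : fA (rQ g S) (tQ g S) (Lm (Fin g) (S + 1) ξ) = noV ξ * gw (fun _ => 1) ξ := by
  unfold fA
  have hsum : ∑ l, Lm (Fin g) (S + 1) ξ (tQ g S l) = ∑ a, ξ a := by
    rw [Fintype.sum_prod_type]
    refine Finset.sum_congr rfl fun l _ => ?_
    unfold Lm tQ
    refine Finset.sum_congr ?_ fun _ _ => rfl
    ext i; simp [Fin.le_last]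
  have hiff : Lm (Fin g) (S + 1) ξ ∈ Cn (rQ g S) ↔ ξ ∈ orth (AQ g S) ∧ ∀ r ∈ DR g, ¬ viol r ξ := by
    rw [← Lm_mem_Cn]
    have h0 : ∀ i : Fin g, Lm (Fin g) (S + 1) ξ (i, 0) = ξ (i, 0) := by
      intro i
      unfold Lm
      have : Finset.Iic (0 : Fin (S + 1)) = {0} := by
        ext j; simp [Fin.le_zero_iff]
      simp [this]
    have hl : ∀ i : Fin g, Lm (Fin g) (S + 1) ξ (i, Fin.last S) = ∑ k, ξ (i, k) := by
      intro i
      unfold Lm
      refine Finset.sum_congr ?_ fun _ _ => rfl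
      ext i; simp [Fin.le_last]
    constructor
    · rintro ⟨h1, h2⟩
      refine ⟨⟨h1, fun a b hab => h2 a b (Or.inl hab)⟩, fun r hr => ?_⟩
      unfold viol
      rw [not_le]
      have := h2 (r.1, 0) (r.2, Fin.last S) (Or.inr ⟨rfl, rfl, (Finset.mem_filter.1 hr).2⟩)
      rwa [h0, hl] at this
    · rintro ⟨⟨h1, h2⟩, h3⟩
      refine ⟨h1, fun a b hab => ?_⟩
      rcases hab with hab | ⟨ha, hb, hab⟩
      · exact h2 a b hab
      · obtain ⟨a1, a2⟩ := a
        obtain ⟨b1, b2⟩ := b
        simp only at ha hb hab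
        subst ha; subst hb
        rw [h0, hl]
        have := h3 (a1, b1) (Finset.mem_filter.2 ⟨Finset.mem_univ _, hab⟩)
        unfold viol at this
        rwa [not_le] at this
  by_cases hξ : ξ ∈ orth (AQ g S)
  · by_cases hv : ∀ r ∈ DR g, ¬ viol r ξ
    · rw [indicator_of_mem (hiff.2 ⟨hξ, hv⟩), hsum]
      unfold noV gw
      rw [indicator_of_mem (show ξ ∈ {ξ | ∀ r ∈ DR g, ¬ viol r ξ} from hv), indicator_of_mem hξ]
      simp
    · rw [indicator_of_notMem (fun h => hv (hiff.1 h).2)]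
      unfold noV
      rw [indicator_of_notMem (show ξ ∉ {ξ | ∀ r ∈ DR g, ¬ viol r ξ} from hv), zero_mul]
  · rw [indicator_of_notMem (fun h => hξ (hiff.1 h).1)]
    unfold gw
    rw [indicator_of_notMem hξ, mul_zero]

/-- weight dominated integrals -/
lemma integral_Lm_gw {w : AQ g S → ℝ} (hw : ∀ a, 0 < w a) (a : AQ g S) :
    ∫ ξ, Lm (Fin g) (S + 1) ξ a * gw w ξ = (∑ k ∈ Finset.Iic a.2, 1 / w (a.1, k)) * ∏ b, 1 / w b := by
  unfold Lm
  simp_rw [Finset.sum_mul]
  rw [integral_finsetSum]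
  · refine Finset.sum_congr rfl fun k _ => ?_
    rw [integral_mul_gw hw]
  · intro k _
    exact integrable_mul_gw hw _

lemma integrable_Lm_gw {w : AQ g S → ℝ} (hw : ∀ a, 0 < w a) (a : AQ g S) :
    Integrable (fun ξ => Lm (Fin g) (S + 1) ξ a * gw w ξ) := by
  unfold Lm
  simp_rw [Finset.sum_mul]
  exact integrable_finsetSum _ fun k _ => integrable_mul_gw hw _

end

end Pool.MP6e
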