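import Pool.Agent.Work.MP_6e2e82_co.QShear

set_option autoImplicit false
set_option linter.unusedSectionVars false
open MeasureTheory Filter Topology Set

namespace Pool.MP6e

section
variable {g S : ℕ}

lemma integrable_bdd_mul {A : Type*} [MeasureSpace A] {b G : A → ℝ} (hb : Measurable b)
    (hb1 : ∀ x, |b x| ≤ 1) (hG : Integrable G) : Integrable (fun x => b x * G x) := by
  refine Integrable.mono' hG.norm (hb.aestronglyMeasurable.mul hG.aestronglyMeasurable)
    (Eventually.of_forall fun x => ?_)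
  rw [norm_mul]
  have h1 := hb1 x
  rw [← Real.norm_eq_abs] at h1
  have h2 := norm_nonneg (G x)
  nlinarith

lemma abs_vf_le (r : Fin g × Fin g) (ξ : AQ g S → ℝ) : |vf r ξ| ≤ 1 := by
  rcases vf_mem r ξ with h | h <;> rw [h] <;> norm_num

lemma noV_mem (ξ : AQ g S → ℝ) : noV ξ = 0 ∨ noV ξ = 1 := by
  unfold noV
  by_cases h : ξ ∈ {ξ : AQ g S → ℝ | ∀ r ∈ DR g, ¬ viol r ξ}
  · right; rw [indicator_of_mem h]; rfl
  · left; rw [indicator_of_notMem h]

lemma abs_noV_le (ξ : AQ g S → ℝ) : |noV ξ| ≤ 1 := by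
  rcases noV_mem ξ with h | h <;> rw [h] <;> norm_num

lemma general_est (F : (AQ g S → ℝ) → ℝ) (C : ℝ)
    (hFm : Measurable F) (hF0 : ∀ ξ ∈ orth (AQ g S), 0 ≤ F ξ)
    (hFi : ∀ w : AQ g S → ℝ, (∀ a, 0 < w a) → Integrable (fun ξ => F ξ * gw w ξ))
    (hFb : ∀ w : AQ g S → ℝ, (∀ a, 1 / 10 ≤ w a) → ∫ ξ, F ξ * gw w ξ ≤ C * ∏ a, 1 / w a) (hC : 0 ≤ C) :
    |(∫ ξ, F ξ * (noV ξ * gw (fun _ => 1) ξ)) - (∫ ξ, F ξ * gw (fun _ => 1) ξ) +
      ∑ r ∈ DR g, ∫ ξ, F ξ * (vf r ξ * gw (fun _ => 1) ξ)| ≤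
    (g : ℝ) ^ 4 * (200 * C * (400 / 841) ^ (S + 1)) := by
  have hG := hFi (fun _ => 1) (fun _ => one_pos)
  have i1 : Integrable (fun ξ => F ξ * (noV ξ * gw (fun _ => 1) ξ)) := by
    have := integrable_bdd_mul (measurable_noV (g := g) (S := S)) abs_noV_le hG
    refine this.congr (Eventually.of_forall fun ξ => ?_)
    ring
  have i2 : ∀ r, Integrable (fun ξ => F ξ * (vf r ξ * gw (fun _ => 1) ξ)) := by
    intro r
    have := integrable_bdd_mul (measurable_vf (g := g) (S := S) r) (abs_vf_le r) hG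
    refine this.congr (Eventually.of_forall fun ξ => ?_)
    ring
  have i3 : ∀ r r', Integrable (fun ξ => F ξ * (vf r ξ * vf r' ξ * gw (fun _ => 1) ξ)) := by
    intro r r'
    have := integrable_bdd_mul (measurable_vf (g := g) (S := S) r) (abs_vf_le r) (i2 r')
    refine this.congr (Eventually.of_forall fun ξ => ?_)
    ring
  have e1 : (∫ ξ, F ξ * (noV ξ * gw (fun _ => 1) ξ)) - (∫ ξ, F ξ * gw (fun _ => 1) ξ) +
      ∑ r ∈ DR g, ∫ ξ, F ξ * (vf r ξ * gw (fun _ => 1) ξ) =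
      ∫ ξ, F ξ * ((noV ξ - 1 + ∑ r ∈ DR g, vf r ξ) * gw (fun _ => 1) ξ) := by
    have i4 : Integrable (fun ξ => F ξ * (noV ξ * gw (fun _ => 1) ξ) - F ξ * gw (fun _ => 1) ξ) := i1.sub hG
    rw [← integral_sub i1 hG, ← integral_finsetSum _ (fun r _ => i2 r), ← integral_add i4
      (integrable_finsetSum _ fun r _ => i2 r)]
    refine integral_congr_ae (Eventually.of_forall fun ξ => ?_)
    simp only
    rw [← Finset.mul_sum, ← Finset.sum_mul]
    ring
  rw [e1]
  have e2 : |∫ ξ, F ξ * ((noV ξ - 1 + ∑ r ∈ DR g, vf r ξ) * gw (fun _ => 1) ξ)| ≤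
      ∫ ξ, ∑ r ∈ DR g, ∑ r' ∈ (DR g).erase r, F ξ * (vf r ξ * vf r' ξ * gw (fun _ => 1) ξ) := by
    refine (abs_integral_le_integral_abs).trans ?_
    refine integral_mono_of_nonneg (Eventually.of_forall fun ξ => abs_nonneg _)
      (integrable_finsetSum _ fun r _ => integrable_finsetSum _ fun r' _ => i3 r r')
      (Eventually.of_forall fun ξ => ?_)
    simp only
    by_cases hξ : ξ ∈ orth (AQ g S)
    · rw [abs_mul, abs_mul, abs_of_nonneg (hF0 ξ hξ), abs_of_nonneg (gw_nonneg _ ξ)]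
      simp_rw [← Finset.mul_sum, ← Finset.sum_mul]
      exact mul_le_mul_of_nonneg_left (mul_le_mul_of_nonneg_right (noV_bound ξ) (gw_nonneg _ _)) (hF0 ξ hξ)
    · have : gw (fun _ => 1) ξ = 0 := by
        unfold gw
        rw [indicator_of_notMem hξ]
      simp [this]
  refine e2.trans ?_
  rw [integral_finsetSum _ (fun r _ => integrable_finsetSum _ fun r' _ => i3 r r')]
  have e3 : ∀ r ∈ DR g, ∀ r' ∈ (DR g).erase r,
      ∫ ξ, F ξ * (vf r ξ * vf r' ξ * gw (fun _ => 1) ξ) ≤ 200 * C * (400 / 841) ^ (S + 1) := by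
    intro r hr r' hr'
    obtain ⟨w1, w2, h1, h2, p1, p2, hw⟩ := pair_weights (S := S) r r' hr (Finset.mem_of_mem_erase hr')
      (Finset.ne_of_mem_erase hr').symm
    have j1 := hFi w1 (fun a => lt_of_lt_of_le (by norm_num) (h1 a))
    have j2 := hFi w2 (fun a => lt_of_lt_of_le (by norm_num) (h2 a))
    calc ∫ ξ, F ξ * (vf r ξ * vf r' ξ * gw (fun _ => 1) ξ) ≤ ∫ ξ, (F ξ * gw w1 ξ + F ξ * gw w2 ξ) := by
          refine integral_mono (i3 r r') (j1.add j2) fun ξ => ?_
          simp only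
          by_cases hξ : ξ ∈ orth (AQ g S)
          · rw [← mul_add]
            exact mul_le_mul_of_nonneg_left (hw ξ) (hF0 ξ hξ)
          · have : ∀ w : AQ g S → ℝ, gw w ξ = 0 := by
              intro w
              unfold gw
              rw [indicator_of_notMem hξ]
            simp [this]
      _ = (∫ ξ, F ξ * gw w1 ξ) + ∫ ξ, F ξ * gw w2 ξ := integral_add j1 j2
      _ ≤ C * ∏ a, 1 / w1 a + C * ∏ a, 1 / w2 a := add_le_add (hFb w1 h1) (hFb w2 h2)
      _ ≤ C * (100 * (400 / 841) ^ (S + 1)) + C * (100 * (400 / 841) ^ (S + 1)) :=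
          add_le_add (mul_le_mul_of_nonneg_left p1 hC) (mul_le_mul_of_nonneg_left p2 hC)
      _ = _ := by ring
  have e4 : ∀ r ∈ DR g, ∫ ξ, ∑ r' ∈ (DR g).erase r, F ξ * (vf r ξ * vf r' ξ * gw (fun _ => 1) ξ) ≤
      (g : ℝ) ^ 2 * (200 * C * (400 / 841) ^ (S + 1)) := by
    intro r hr
    rw [integral_finsetSum _ (fun r' _ => i3 r r')]
    refine (Finset.sum_le_card_nsmul _ _ _ (e3 r hr)).trans ?_
    rw [nsmul_eq_mul]
    refine mul_le_mul_of_nonneg_right ?_ (by positivity)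
    have hc : ((DR g).erase r).card ≤ g * g := by
      refine (Finset.card_le_univ _).trans ?_
      simp
    calc ((((DR g).erase r).card : ℕ) : ℝ) ≤ ((g * g : ℕ) : ℝ) := by exact_mod_cast hc
      _ = (g : ℝ) ^ 2 := by push_cast; ring
  refine (Finset.sum_le_card_nsmul _ _ _ e4).trans ?_
  rw [nsmul_eq_mul]
  have hc : (DR g).card ≤ g * g := by
    refine (Finset.card_le_univ _).trans ?_
    simp
  calc ((DR g).card : ℝ) * ((g : ℝ) ^ 2 * (200 * C * (400 / 841) ^ (S + 1)))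
      ≤ ((g * g : ℕ) : ℝ) * ((g : ℝ) ^ 2 * (200 * C * (400 / 841) ^ (S + 1))) := by
        refine mul_le_mul_of_nonneg_right ?_ (by positivity)
        exact_mod_cast hc
    _ = _ := by push_cast; ring

lemma ZA_eq : ZA (rQ g S) (tQ g S) = ∫ ξ : AQ g S → ℝ, noV ξ * gw (fun _ => 1) ξ := by
  unfold ZA
  rw [← (mp_Lm (Fin g) (S + 1)).integral_comp
    ((mp_Lm (Fin g) (S + 1)).measurable.measurableEmbedding (Lm_injective _ _))]
  simp_rw [fA_Lm]

lemma NA_eq (a : AQ g S) : NA (rQ g S) (tQ g S) a =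
    ∫ ξ, Lm (Fin g) (S + 1) ξ a * (noV ξ * gw (fun _ => 1) ξ) := by
  unfold NA
  rw [← (mp_Lm (Fin g) (S + 1)).integral_comp
    ((mp_Lm (Fin g) (S + 1)).measurable.measurableEmbedding (Lm_injective _ _))]
  simp_rw [fA_Lm]

lemma integrable_fA_Q : Integrable (fA (rQ g S) (tQ g S)) := by
  rw [← (mp_Lm (Fin g) (S + 1)).integrable_comp_emb
    ((mp_Lm (Fin g) (S + 1)).measurable.measurableEmbedding (Lm_injective _ _))]
  have : (fA (rQ g S) (tQ g S) ∘ Lm (Fin g) (S + 1)) = fun ξ => noV ξ * gw (fun _ => 1) ξ := by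
    funext ξ
    exact fA_Lm ξ
  rw [this]
  exact integrable_bdd_mul measurable_noV abs_noV_le (integrable_gw fun _ => one_pos)

lemma integrable_mul_fA_Q (a : AQ g S) : Integrable (fun X : AQ g S → ℝ => X a * fA (rQ g S) (tQ g S) X) := by
  rw [← (mp_Lm (Fin g) (S + 1)).integrable_comp_emb
    ((mp_Lm (Fin g) (S + 1)).measurable.measurableEmbedding (Lm_injective _ _))]
  have : ((fun X : AQ g S → ℝ => X a * fA (rQ g S) (tQ g S) X) ∘ Lm (Fin g) (S + 1)) =
      fun ξ => noV ξ * (Lm (Fin g) (S + 1) ξ a * gw (fun _ => 1) ξ) := by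
    funext ξ
    simp only [Function.comp]
    rw [fA_Lm ξ]
    ring
  rw [this]
  exact integrable_bdd_mul measurable_noV abs_noV_le (integrable_Lm_gw (fun _ => one_pos) a)

lemma est_Z : |ZA (rQ g S) (tQ g S) - 1 + (DR g).card * (1 / 2) ^ (S + 1)| ≤
    (g : ℝ) ^ 4 * (200 * (400 / 841) ^ (S + 1)) := by
  have h := general_est (g := g) (S := S) (fun _ => 1) 1 measurable_const (fun _ _ => zero_le_one)
    (fun w hw => by simpa using integrable_gw hw)
    (fun w hw => by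
      simp only [one_mul]
      rw [integral_gw (fun a => lt_of_lt_of_le (by norm_num) (hw a))]) zero_le_one
  simp only [one_mul, mul_one] at h
  rw [← ZA_eq, integral_gw (fun _ => one_pos), Finset.sum_congr rfl (fun r hr => integral_vf hr),
    Finset.sum_const, nsmul_eq_mul] at h
  simpa using h

lemma est_N (a : AQ g S) : |NA (rQ g S) (tQ g S) a - (a.2 + 1) +
    ∑ r ∈ DR g, (1 / 2) ^ (S + 1) * (((a.2 : ℝ) + 1) * (1 - if a.1 = r.2 then 1 / 2 else 0) +
        if a.1 = r.1 then ((S : ℝ) + 1) / 2 else 0)| ≤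
    (g : ℝ) ^ 4 * (200 * (10 * (S + 1)) * (400 / 841) ^ (S + 1)) := by
  have h := general_est (g := g) (S := S) (fun ξ => Lm (Fin g) (S + 1) ξ a) (10 * (S + 1))
    (by unfold Lm; fun_prop)
    (fun ξ hξ => Finset.sum_nonneg fun k _ => (hξ _).le)
    (fun w hw => integrable_Lm_gw hw a)
    (fun w hw => by
      have hw' : ∀ a, 0 < w a := fun a => lt_of_lt_of_le (by norm_num) (hw a)
      rw [integral_Lm_gw hw']
      refine mul_le_mul_of_nonneg_right ?_ (Finset.prod_nonneg fun b _ => (div_pos one_pos (hw' b)).le)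
      have : ∀ k ∈ Finset.Iic a.2, 1 / w (a.1, k) ≤ 10 := by
        intro k _
        rw [div_le_iff₀ (hw' _)]
        have := hw (a.1, k)
        linarith
      refine (Finset.sum_le_card_nsmul _ _ _ this).trans ?_
      rw [nsmul_eq_mul, Fin.card_Iic]
      have : (a.2.val : ℝ) ≤ S := by
        have := a.2.2
        exact_mod_cast (by omega : a.2.val ≤ S)
      push_cast
      linarith) (by positivity)
  rw [← NA_eq, integral_Lm_gw (fun _ => one_pos), Finset.sum_congr rfl (fun r hr => integral_Lm_vf hr a)] at h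
  simpa using h

end

end Pool.MP6e
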