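import Pool.Agent.Work.MP_6e2e82_co.QEst
import Pool.Agent.Work.MP_6e2e82_co.Interface

set_option autoImplicit false
set_option linter.unusedSectionVars false
open MeasureTheory Filter Topology Set

namespace Pool.MP6e

section
variable {g S : ℕ}

lemma sum_DR_snd (h : ℕ) (hg : g = 2 * h + 1) (z : Fin g) (c : ℝ) :
    ∑ r ∈ DR g, (if z = r.2 then c else 0) = c * h := by
  unfold DR
  rw [Finset.sum_filter, Fintype.sum_prod_type]
  have : ∀ i : Fin g, ∑ y : Fin g, (if Rel g (i, y).1 (i, y).2 then (if z = (i, y).2 then c else 0) else 0) =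
      if Rel g i z then c else 0 := by
    intro i
    rw [Finset.sum_eq_single z]
    · simp
    · intro b _ hb
      simp [Ne.symm hb]
    · simp
  rw [Finset.sum_congr rfl fun i _ => this i, ← Finset.sum_filter, Finset.sum_const, card_in g h hg z,
    nsmul_eq_mul]
  ring

lemma sum_DR_fst (i : Fin g) (c : ℝ) :
    ∑ r ∈ DR g, (if i = r.1 then c else 0) = c * i := by
  unfold DR
  rw [Finset.sum_filter, Fintype.sum_prod_type, Finset.sum_eq_single i]
  · have : ∀ y : Fin g, (if Rel g (i, y).1 (i, y).2 then (if i = (i, y).1 then c else 0) else 0) =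
      if Rel g i y then c else 0 := by
      intro y
      simp
    rw [Finset.sum_congr rfl fun i _ => this i, ← Finset.sum_filter, Finset.sum_const, card_out g i,
    nsmul_eq_mul]
    ring
  · intro b _ hb
    simp [Ne.symm hb]
  · simp

lemma card_DR_le : ((DR g).card : ℝ) ≤ (g : ℝ) ^ 2 := by
  have hc : (DR g).card ≤ g * g := by
    refine (Finset.card_le_univ _).trans ?_
    simp
  calc ((DR g).card : ℝ) ≤ ((g * g : ℕ) : ℝ) := by exact_mod_cast hc
    _ = _ := by push_cast; ring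

/-- center of the bottom heights -/
noncomputable def ctr (g h s : ℕ) (a j : ℕ) : ℝ := ((j : ℝ) + 1) * (1 + (1 / 2) ^ s * h / 2) - mu s * a

theorem Qbot (h : ℕ) (hg : g = 2 * h + 1) (hθ : theta g (S + 1) ≤ 1 / 10) :
    1 / 2 ≤ ZA (rQ g S) (tQ g S) ∧
    ∀ a : AQ g S, |NA (rQ g S) (tQ g S) a / ZA (rQ g S) (tQ g S) - ctr g h (S + 1) a.1 a.2| ≤
      theta g (S + 1) * mu (S + 1) := by
  set Z := ZA (rQ g S) (tQ g S) with hZ
  set s : ℝ := (S : ℝ) + 1 with hs
  set p : ℝ := (1 / 2) ^ (S + 1) with hp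
  set q2 : ℝ := (800 / 841) ^ (S + 1) with hq2
  have hc2 : ((400 : ℝ) / 841) ^ (S + 1) = q2 * p := by
    rw [hq2, hp, ← mul_pow]; norm_num
  have hs1 : 1 ≤ s := by rw [hs]; linarith [Nat.cast_nonneg (α := ℝ) S]
  have hg1 : (1 : ℝ) ≤ g := by rw [hg]; push_cast; linarith [Nat.cast_nonneg (α := ℝ) h]
  have hp0 : 0 < p := by positivity
  have hp1 : p ≤ 1 := pow_le_one₀ (by norm_num) (by norm_num)
  have hq0 : 0 < q2 := by positivity
  have hpq : p ≤ q2 := pow_le_pow_left₀ (by norm_num) (by norm_num) _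
  set X : ℝ := s ^ 3 * (g : ℝ) ^ 8 * q2 with hX
  have hθX : theta g (S + 1) = 10 ^ 6 * X := by
    unfold theta; rw [hX, hs, hq2]; push_cast; ring
  have hμ : mu (S + 1) = s * p / 2 := by
    unfold mu; rw [hs, hp]; push_cast; ring
  have hμ0 : 0 < s * p / 2 := by positivity
  have hs3 : 1 ≤ s ^ 3 := one_le_pow₀ hs1
  have hgk : ∀ k, k ≤ 8 → (g : ℝ) ^ k ≤ (g : ℝ) ^ 8 := fun k hk => pow_le_pow_right₀ hg1 hk
  have hXk : ∀ k, k ≤ 8 → (g : ℝ) ^ k * q2 ≤ X := by
    intro k hk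
    rw [hX]
    refine mul_le_mul_of_nonneg_right ?_ hq0.le
    have h1 := hgk k hk
    have h2 : (0 : ℝ) ≤ (g : ℝ) ^ 8 := by positivity
    nlinarith
  have hX0 : 0 ≤ X := by positivity
  have hXs : X ≤ 1 / 10 ^ 7 := by
    rw [hθX] at hθ
    norm_num at hθ ⊢
    linarith
  set E : ℝ := (g : ℝ) ^ 4 * (200 * (q2 * p)) with hE
  have hE0 : 0 ≤ E := by positivity
  have hE1 : E ≤ 200 * X := by
    have h1 := hXk 4 (by norm_num)
    have h2 : (g : ℝ) ^ 4 * q2 * p ≤ (g : ℝ) ^ 4 * q2 * 1 := mul_le_mul_of_nonneg_left hp1 (by positivity)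
    rw [hE]; nlinarith
  have hg2p : (g : ℝ) ^ 2 * p ≤ X := (mul_le_mul_of_nonneg_left hpq (by positivity)).trans (hXk 2 (by norm_num))
  have hg3p : (g : ℝ) ^ 3 * p ≤ X := (mul_le_mul_of_nonneg_left hpq (by positivity)).trans (hXk 3 (by norm_num))
  have hZe : |Z - 1 + (DR g).card * p| ≤ E := by
    have := est_Z (g := g) (S := S)
    rw [hc2] at this
    exact this
  have hD := card_DR_le (g := g)
  have hDp : (DR g).card * p ≤ (g : ℝ) ^ 2 * p := mul_le_mul_of_nonneg_right hD hp0.le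
  have hDp0 : 0 ≤ (DR g).card * p := by positivity
  have hZ1 : |1 - Z| ≤ (g : ℝ) ^ 2 * p + E := by
    rw [abs_le] at hZe ⊢
    constructor <;> linarith [hZe.1, hZe.2]
  have hZ2 : 1 / 2 ≤ Z := by
    have h1 := (abs_le.1 hZ1).2
    have : X ≤ 1 / 10 ^ 7 := hXs
    norm_num at this
    linarith
  refine ⟨hZ2, fun a => ?_⟩
  have hN := est_N a
  have hsum : ∑ r ∈ DR g, (1 / 2) ^ (S + 1) * (((a.2 : ℝ) + 1) * (1 - if a.1 = r.2 then 1 / 2 else 0) +
        if a.1 = r.1 then ((S : ℝ) + 1) / 2 else 0) =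
      p * ((a.2 : ℝ) + 1) * (DR g).card - p * ((a.2 : ℝ) + 1) * h / 2 + s * p / 2 * a.1 := by
    have e : ∀ r ∈ DR g, (1 / 2 : ℝ) ^ (S + 1) * (((a.2 : ℝ) + 1) * (1 - if a.1 = r.2 then 1 / 2 else 0) +
        if a.1 = r.1 then ((S : ℝ) + 1) / 2 else 0) = p * ((a.2 : ℝ) + 1) -
        (if a.1 = r.2 then p * ((a.2 : ℝ) + 1) / 2 else 0) + (if a.1 = r.1 then s * p / 2 else 0) := by
      intro r _
      rw [hp, hs]
      split_ifs <;> ring
    rw [Finset.sum_congr rfl e, Finset.sum_add_distrib, Finset.sum_sub_distrib, Finset.sum_const,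
      sum_DR_snd h hg, sum_DR_fst, nsmul_eq_mul]
    ring
  rw [hsum, hc2] at hN
  set N := NA (rQ g S) (tQ g S) a with hNdef
  set j1 : ℝ := (a.2 : ℝ) + 1 with hj1
  have hj0 : 0 ≤ j1 := by positivity
  have hjs : j1 ≤ s := by
    have : (a.2.val : ℝ) ≤ S := by
      have := a.2.2
      exact_mod_cast (by omega : a.2.val ≤ S)
    rw [hj1, hs]; linarith
  have ha0 : (0 : ℝ) ≤ a.1 := Nat.cast_nonneg _
  have hag : ((a.1 : ℕ) : ℝ) ≤ g := by
    have := a.1.2
    exact_mod_cast this.le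
  have hh0 : (0 : ℝ) ≤ h := Nat.cast_nonneg _
  have hhg : (h : ℝ) ≤ g := by rw [hg]; push_cast; linarith
  set D0 : ℝ := p * j1 * h / 2 - s * p / 2 * a.1 with hD0
  have hctr : ctr g h (S + 1) a.1 a.2 = j1 + D0 := by
    unfold ctr; rw [hμ, hD0, hj1, hp]; ring
  have hD0b : |D0| ≤ s * p / 2 * g := by
    have h1 : 0 ≤ p * j1 * h / 2 := by positivity
    have h2 : p * j1 * h / 2 ≤ s * p / 2 * g := by
      have : p * j1 * h ≤ p * s * g := by gcongr
      linarith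
    have h3 : 0 ≤ s * p / 2 * (a.1 : ℝ) := by positivity
    have h4 : s * p / 2 * (a.1 : ℝ) ≤ s * p / 2 * g := by gcongr
    rw [abs_le]
    constructor <;> rw [hD0] <;> linarith
  have hA1 : |N - j1 * Z - D0| ≤ 11 * s * E := by
    have e : N - j1 * Z - D0 = (N - j1 + (p * j1 * (DR g).card - p * j1 * h / 2 + s * p / 2 * a.1)) -
        j1 * (Z - 1 + (DR g).card * p) := by
      rw [hD0]; ring
    rw [e]
    refine (abs_sub _ _).trans ?_
    rw [abs_mul, abs_of_nonneg hj0]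
    have h1 : |N - j1 + (p * j1 * (DR g).card - p * j1 * h / 2 + s * p / 2 * a.1)| ≤ 10 * s * E := by
      refine hN.trans (le_of_eq ?_)
      rw [hE, hs]; ring
    have h2 : j1 * |Z - 1 + (DR g).card * p| ≤ s * E :=
      mul_le_mul hjs hZe (abs_nonneg _) (by linarith)
    linarith
  have hZpos : 0 < Z := by linarith
  have hfin : N / Z - (j1 + D0) = (N - j1 * Z - D0 + D0 * (1 - Z)) / Z := by
    field_simp
    ring
  rw [hctr, hfin, abs_div, abs_of_pos hZpos, div_le_iff₀ hZpos]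
  have hB : |N - j1 * Z - D0 + D0 * (1 - Z)| ≤ 11 * s * E + s * p / 2 * g * ((g : ℝ) ^ 2 * p + E) := by
    refine (abs_add_le _ _).trans ?_
    rw [abs_mul]
    exact add_le_add hA1 (mul_le_mul hD0b hZ1 (abs_nonneg _) (by positivity))
  refine hB.trans ?_
  rw [hθX, hμ]
  -- 11 s E = 11 * 200 * g^4 q2 * s p = 4400 μ g^4 q2
  have t1 : 11 * s * E ≤ 4400 * (s * p / 2) * X := by
    have := hXk 4 (by norm_num)
    have e : 11 * s * E = 4400 * (s * p / 2) * ((g : ℝ) ^ 4 * q2) := by rw [hE]; ring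
    rw [e]
    exact mul_le_mul_of_nonneg_left this (by positivity)
  have t2 : s * p / 2 * g * ((g : ℝ) ^ 2 * p + E) ≤ 201 * (s * p / 2) * X := by
    have h5 : (g : ℝ) ^ 5 * (q2 * p) ≤ X := by
      have h2 : (g : ℝ) ^ 5 * q2 * p ≤ (g : ℝ) ^ 5 * q2 * 1 := mul_le_mul_of_nonneg_left hp1 (by positivity)
      have := hXk 5 (by norm_num)
      nlinarith
    have e : s * p / 2 * g * ((g : ℝ) ^ 2 * p + E) = (s * p / 2) * ((g : ℝ) ^ 3 * p + 200 * ((g : ℝ) ^ 5 * (q2 * p))) := by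
      rw [hE]; ring
    rw [e]
    have : (g : ℝ) ^ 3 * p + 200 * ((g : ℝ) ^ 5 * (q2 * p)) ≤ 201 * X := by linarith
    have := mul_le_mul_of_nonneg_left this hμ0.le
    linarith
  have t3 : 10 ^ 6 * X * (s * p / 2) * (1 / 2) ≤ 10 ^ 6 * X * (s * p / 2) * Z :=
    mul_le_mul_of_nonneg_left hZ2 (by positivity)
  have t4 : 0 ≤ X * (s * p / 2) := by positivity
  nlinarith

end

end Pool.MP6e
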