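import Pool.Agent.Work.MP_6e2e82_co.QFinal
import Pool.Agent.Work.MP_6e2e82_co.InterfaceQ
import Pool.Agent.Work.MP_6e2e82_co.BlockC

set_option autoImplicit false
set_option linter.unusedSectionVars false
open MeasureTheory Filter Topology Set

namespace Pool.MP6e

/-! ### chains -/

lemma chain_LE (N : ℕ) (f : Fin N ≃ Fin N) : f ∈ LE N (fun i j : Fin N => i < j) ↔ f = Equiv.refl _ := by
  rw [mem_LE]
  constructor
  · intro h
    have hs : StrictMono f := fun a b hab => h a b hab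
    have h1 : (hs.orderIsoOfSurjective f f.surjective : Fin N ≃o Fin N) = OrderIso.refl _ :=
      Subsingleton.elim _ _
    refine Equiv.ext fun x => ?_
    have := congrArg (fun e : Fin N ≃o Fin N => e x) h1
    simpa using this
  · rintro rfl a b hab
    exact hab

lemma chain_V (N : ℕ) : 0 < V (fun i j : Fin N => i < j) :=
  V_pos _ (fun i => i.val) (fun _ _ h => h)

lemma chain_avg (N : ℕ) (q : Fin N) :
    Mo (fun i j : Fin N => i < j) q / V (fun i j : Fin N => i < j) = ((q : ℝ) + 1) / (N + 1) := by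
  have h := avg_eq (Fintype.card_fin N) (fun i j : Fin N => i < j) q (chain_V N).ne'
  have hLE : LE N (fun i j : Fin N => i < j) = {Equiv.refl _} := by
    ext f
    rw [chain_LE, Finset.mem_singleton]
  rw [hLE] at h
  simp only [Finset.sum_singleton, Equiv.refl_apply, Finset.card_singleton, Nat.cast_one, div_one] at h
  have hN : (N : ℝ) + 1 ≠ 0 := by positivity
  rw [eq_div_iff hN]
  linarith

/-! ### fA is invariant under reindexing -/

lemma fA_comp_equiv {A ι : Type*} [Fintype A] [Fintype ι] (r : A → A → Prop) (τ : ι → A) (e : ι ≃ ι) :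
    fA r (fun l => τ (e l)) = fA r τ := by
  unfold fA
  congr 1
  funext X
  congr 2
  exact Equiv.sum_comp e (fun l => X (τ l))

section
variable (g S N : ℕ)

/-- the copy -/
abbrev KN := (AQ g S ⊕ AQ g S) ⊕ (Fin g × Fin N)

def sQ : Fin g → AQ g S := fun i => tQ g S (Fin.revPerm i)

def rK : KN g S N → KN g S N → Prop :=
  rP (rQ g S) (rQ g S) (fun i j : Fin N => i < j) (tQ g S) (sQ g S)

variable {g S N}

def lev : KN g S N → ℕ
  | .inl (.inl a) => a.2
  | .inr p => S + 1 + p.2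
  | .inl (.inr b) => S + 1 + N + (S - b.2)

def chn : KN g S N → ℕ
  | .inl (.inl a) => a.1
  | .inr p => p.1
  | .inl (.inr b) => (Fin.rev b.1 : Fin g)

lemma rQ_lt (hS : 1 ≤ S) {a b : AQ g S} (h : rQ g S a b) : a.2 < b.2 := by
  rcases h with h | ⟨h1, h2, _⟩
  · exact h.2
  · rw [h1, h2]
    show (0 : ℕ) < S
    omega

lemma rK_lev (hS : 1 ≤ S) {x y : KN g S N} (h : rK g S N x y) : lev x < lev y := by
  rcases x with (a | b) | p <;> rcases y with (a' | b') | p'
  · exact rQ_lt hS h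
  · exact h.elim
  · show a.2.val < S + 1 + p'.2.val
    have := a.2.2
    omega
  · exact h.elim
  · have h' : b'.2 < b.2 := rQ_lt hS h
    have h'' : b'.2.val < b.2.val := h'
    show S + 1 + N + (S - b.2.val) < S + 1 + N + (S - b'.2.val)
    have := b.2.2
    omega
  · exact h.elim
  · exact h.elim
  · show S + 1 + p.2.val < S + 1 + N + (S - b'.2.val)
    have := p.2.2
    omega
  · show S + 1 + p.2.val < S + 1 + p'.2.val
    have : p.2.val < p'.2.val := h.2
    omega

lemma lev_chn_inj {x y : KN g S N} (h1 : lev x = lev y) (h2 : chn x = chn y) : x = y := by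
  rcases x with (a | b) | p <;> rcases y with (a' | b') | p'
  · have e1 : a.2.val = a'.2.val := h1
    have e2 : a.1.val = a'.1.val := h2
    rw [Prod.ext (Fin.ext e2) (Fin.ext e1)]
  · have e1 : a.2.val = S + 1 + N + (S - b'.2.val) := h1
    have := a.2.2
    omega
  · have e1 : a.2.val = S + 1 + p'.2.val := h1
    have := a.2.2
    omega
  · have e1 : S + 1 + N + (S - b.2.val) = a'.2.val := h1
    have := a'.2.2
    omega
  · have e1 : S + 1 + N + (S - b.2.val) = S + 1 + N + (S - b'.2.val) := h1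
    have e2 : (Fin.rev b.1).val = (Fin.rev b'.1).val := h2
    have := b.2.2
    have := b'.2.2
    have e3 : b.2.val = b'.2.val := by omega
    have e4 : b.1 = b'.1 := Fin.rev_injective (Fin.ext e2)
    rw [Prod.ext e4 (Fin.ext e3)]
  · have e1 : S + 1 + N + (S - b.2.val) = S + 1 + p'.2.val := h1
    have := p'.2.2
    omega
  · have e1 : S + 1 + p.2.val = a'.2.val := h1
    have := a'.2.2
    omega
  · have e1 : S + 1 + p.2.val = S + 1 + N + (S - b'.2.val) := h1
    have := p.2.2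
    omega
  · have e1 : S + 1 + p.2.val = S + 1 + p'.2.val := h1
    have e2 : p.1.val = p'.1.val := h2
    have e3 : p.2.val = p'.2.val := by omega
    rw [Prod.ext (Fin.ext e2) (Fin.ext e3)]

lemma card_KN : Fintype.card (KN g S N) = g * (N + 2 * (S + 1)) := by
  simp only [KN, AQ, Fintype.card_sum, Fintype.card_prod, Fintype.card_fin]
  ring

/-- centers of the levels -/
noncomputable def Gam (S N : ℕ) (c1 w : ℝ) (t : ℕ) : ℝ :=
  if t ≤ S then ((t : ℝ) + 1) * c1
  else if t ≤ S + N then ((S : ℝ) + 1) * c1 + ((t : ℝ) - S) / (N + 1) * (N - 2 * (((S : ℝ) + 1) * c1) + w)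
  else N - (2 * S + N + 2 - t) * c1 + w

lemma Gam_step (S N : ℕ) (c1 w d : ℝ) (hd1 : d ≤ c1) (hd2 : d * (N + 1) ≤ N - 2 * (((S : ℝ) + 1) * c1) + w)
    (t : ℕ) : Gam S N c1 w t + d ≤ Gam S N c1 w (t + 1) := by
  have hN : (0 : ℝ) < (N : ℝ) + 1 := by positivity
  have hX : d ≤ (N - 2 * (((S : ℝ) + 1) * c1) + w) / (N + 1) := by
    rw [le_div_iff₀ hN]; exact hd2
  set X := N - 2 * (((S : ℝ) + 1) * c1) + w with hXd
  unfold Gam
  rcases lt_trichotomy t S with h | h | h
  · rw [if_pos h.le, if_pos (by omega : t + 1 ≤ S)]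
    push_cast; linarith
  · subst h
    rw [if_pos le_rfl, if_neg (by omega : ¬ t + 1 ≤ t)]
    rcases Nat.eq_zero_or_pos N with h0 | h0
    · subst h0
      rw [if_neg (by omega)]
      rw [hXd] at hX
      push_cast at hX ⊢
      linarith
    · rw [if_pos (by omega)]
      push_cast
      have : ((t : ℝ) + 1 - t) / (N + 1) * X = X / (N + 1) := by ring
      rw [this]
      linarith
  · rw [if_neg (by omega : ¬ t ≤ S), if_neg (by omega : ¬ t + 1 ≤ S)]
    rcases lt_trichotomy t (S + N) with h' | h' | h'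
    · rw [if_pos h'.le, if_pos (by omega)]
      push_cast
      have : ((t : ℝ) + 1 - S) / (N + 1) * X = ((t : ℝ) - S) / (N + 1) * X + X / (N + 1) := by ring
      rw [this]
      linarith
    · rw [if_pos h'.le, if_neg (by omega)]
      have ht : (t : ℝ) = S + N := by rw [h']; push_cast; ring
      have e : ((t : ℝ) - S) / (N + 1) * X = X - X / (N + 1) := by
        rw [ht]
        field_simp
        ring
      rw [e]
      push_cast
      rw [ht]
      have : X = N - 2 * (((S : ℝ) + 1) * c1) + w := hXd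
      linarith
    · rw [if_neg (by omega), if_neg (by omega)]
      push_cast; linarith

lemma Gam_lt (S N : ℕ) (c1 w d : ℝ) (hd0 : 0 ≤ d) (hd1 : d ≤ c1)
    (hd2 : d * (N + 1) ≤ N - 2 * (((S : ℝ) + 1) * c1) + w)
    (t t' : ℕ) (h : t < t') : Gam S N c1 w t + d ≤ Gam S N c1 w t' := by
  obtain ⟨k, rfl⟩ := Nat.exists_eq_add_of_lt h
  clear h
  induction k with
  | zero => exact Gam_step S N c1 w d hd1 hd2 t
  | succ k ih =>
    have := Gam_step S N c1 w d hd1 hd2 (t + k + 1)
    have e : t + (k + 1) + 1 = t + k + 1 + 1 := by ring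
    rw [e]
    linarith

/-- mean of a coordinate -/
noncomputable def ph (x : KN g S N) : ℝ := Mo (rK g S N) x / V (rK g S N)

/-- bottom mean as a function of `N` -/
noncomputable def Bq (g S N : ℕ) (a : AQ g S) : ℝ :=
  J (rQ g S) (rQ g S) (tQ g S) (sQ g S) N (fun u => u (.inl a)) /
    J (rQ g S) (rQ g S) (tQ g S) (sQ g S) N (fun _ => 1)

noncomputable def Bq' (g S N : ℕ) (b : AQ g S) : ℝ :=
  J (rQ g S) (rQ g S) (tQ g S) (sQ g S) N (fun u => u (.inr b)) /
    J (rQ g S) (rQ g S) (tQ g S) (sQ g S) N (fun _ => 1)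

lemma V_rK_pos (hS : 1 ≤ S) : 0 < V (rK g S N) := V_pos _ lev (fun _ _ h => rK_lev hS h)

lemma J_ne (hS : 1 ≤ S) (hN : 1 ≤ N) :
    J (rQ g S) (rQ g S) (tQ g S) (sQ g S) N (fun _ => 1) ≠ 0 := by
  have : Nonempty (Fin N) := ⟨⟨0, hN⟩⟩
  have h := V_comp (rQ g S) (rQ g S) (fun i j : Fin N => i < j) (tQ g S) (sQ g S)
  rw [Fintype.card_fin, Fintype.card_fin] at h
  intro h0
  rw [h0, mul_zero] at h
  exact (V_rK_pos (g := g) (N := N) hS).ne' h

lemma ph_bot (hN : 1 ≤ N) (a : AQ g S) :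
    ph (N := N) (.inl (.inl a)) = Bq g S N a := by
  have : Nonempty (Fin N) := ⟨⟨0, hN⟩⟩
  have h := V_comp (rQ g S) (rQ g S) (fun i j : Fin N => i < j) (tQ g S) (sQ g S)
  have h2 := Mo_comp_bot (rQ g S) (rQ g S) (fun i j : Fin N => i < j) (tQ g S) (sQ g S) a
  rw [Fintype.card_fin, Fintype.card_fin] at h h2
  have hV : V (fun i j : Fin N => i < j) ^ g ≠ 0 := pow_ne_zero _ (chain_V N).ne'
  unfold ph rK Bq
  rw [h, h2, mul_div_mul_left _ _ hV]

lemma ph_top (hS : 1 ≤ S) (hN : 1 ≤ N) (b : AQ g S) :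
    ph (N := N) (.inl (.inr b)) = 1 - Bq' g S N b := by
  have : Nonempty (Fin N) := ⟨⟨0, hN⟩⟩
  have h := V_comp (rQ g S) (rQ g S) (fun i j : Fin N => i < j) (tQ g S) (sQ g S)
  have h2 := Mo_comp_top (rQ g S) (rQ g S) (fun i j : Fin N => i < j) (tQ g S) (sQ g S) b
  rw [Fintype.card_fin, Fintype.card_fin] at h h2
  have hV : V (fun i j : Fin N => i < j) ^ g ≠ 0 := pow_ne_zero _ (chain_V N).ne'
  have hJ : J (rQ g S) (rQ g S) (tQ g S) (sQ g S) N (fun u => 1 - u (.inr b)) =
      J (rQ g S) (rQ g S) (tQ g S) (sQ g S) N (fun _ => 1) -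
      J (rQ g S) (rQ g S) (tQ g S) (sQ g S) N (fun u => u (.inr b)) := by
    unfold J
    rw [← integral_sub]
    · refine setIntegral_congr_fun (measurableSet_O _) fun u _ => ?_
      simp only
      ring
    · exact J_integrable _ _ _ _ _ (fun _ => 1) measurable_const 1 (fun _ _ => by simp)
    · exact J_integrable _ _ _ _ _ (fun u => u (.inr b)) (by fun_prop) 1
        (fun u hu => by rw [abs_of_pos (hu.1 _).1]; exact (hu.1 _).2.le)
  unfold ph rK Bq'
  rw [h, h2, mul_div_mul_left _ _ hV, hJ, sub_div, div_self (J_ne hS hN)]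

lemma ph_mid (hS : 1 ≤ S) (hN : 1 ≤ N) (i : Fin g) (q : Fin N) :
    ph (S := S) (N := N) (.inr (i, q)) = (1 - ((q : ℝ) + 1) / (N + 1)) * Bq g S N (tQ g S i) +
      ((q : ℝ) + 1) / (N + 1) * (1 - Bq' g S N (sQ g S i)) := by
  have : Nonempty (Fin N) := ⟨⟨0, hN⟩⟩
  have h := Mo_comp_mod (rQ g S) (rQ g S) (fun i j : Fin N => i < j) (tQ g S) (sQ g S) i q
  rw [← ph_bot hN, ← ph_top hS hN, ← chain_avg]
  have hV := (chain_V N).ne'
  have hV2 := (V_rK_pos (g := g) (N := N) hS).ne'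
  unfold ph rK at *
  field_simp
  linarith

lemma tend_bot (h : ℕ) (hg : g = 2 * h + 1) (hθ : theta g (S + 1) ≤ 1 / 10) (a : AQ g S) :
    Tendsto (fun N : ℕ => (N : ℝ) * Bq g S N a) atTop (𝓝 (NA (rQ g S) (tQ g S) a / ZA (rQ g S) (tQ g S))) := by
  have hZ : ZA (rQ g S) (tQ g S) ≠ 0 := by
    have := (Qbot (S := S) h hg hθ).1
    intro h0
    rw [h0] at this
    norm_num at this
  have hf : fA (rQ g S) (sQ g S) = fA (rQ g S) (tQ g S) := fA_comp_equiv _ _ Fin.revPerm
  have hZ2 : ZA (rQ g S) (sQ g S) = ZA (rQ g S) (tQ g S) := by unfold ZA; rw [hf]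
  exact limit_bot (rQ g S) (rQ g S) (tQ g S) (sQ g S) a integrable_fA_Q (integrable_mul_fA_Q a)
    (by rw [hf]; exact integrable_fA_Q) hZ (by rw [hZ2]; exact hZ)

lemma tend_top (h : ℕ) (hg : g = 2 * h + 1) (hθ : theta g (S + 1) ≤ 1 / 10) (b : AQ g S) :
    Tendsto (fun N : ℕ => (N : ℝ) * Bq' g S N b) atTop (𝓝 (NA (rQ g S) (tQ g S) b / ZA (rQ g S) (tQ g S))) := by
  have hZ : ZA (rQ g S) (tQ g S) ≠ 0 := by
    have := (Qbot (S := S) h hg hθ).1
    intro h0
    rw [h0] at this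
    norm_num at this
  have hf : fA (rQ g S) (sQ g S) = fA (rQ g S) (tQ g S) := fA_comp_equiv _ _ Fin.revPerm
  have hZ2 : ZA (rQ g S) (sQ g S) = ZA (rQ g S) (tQ g S) := by unfold ZA; rw [hf]
  have hN2 : NA (rQ g S) (sQ g S) b = NA (rQ g S) (tQ g S) b := by unfold NA; rw [hf]
  have := limit_top (rQ g S) (rQ g S) (tQ g S) (sQ g S) b integrable_fA_Q
    (by rw [hf]; exact integrable_fA_Q) (by rw [hf]; exact integrable_mul_fA_Q b) hZ (by rw [hZ2]; exact hZ)
  rw [hN2, hZ2] at this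
  exact this

end

end Pool.MP6e
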