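import Pool.Agent.Work.MP_6e2e82_co.QBot

set_option autoImplicit false
set_option linter.unusedSectionVars false
open MeasureTheory Filter Topology Set

namespace Pool.MP6e

section
variable {g S : ℕ}

/-- perturbed weight -/
noncomputable def pw (z z' t t' : Fin g) (α β a b : ℝ) : AQ g S → ℝ := fun p =>
  1 + (if p.1 = z then α else 0) + (if p.1 = z' then β else 0)
    - (if p = (t, 0) then a else 0) - (if p = (t', 0) then b else 0)

lemma sum_chain (z : Fin g) (c : ℝ) (ξ : AQ g S → ℝ) :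
    ∑ p : AQ g S, (if p.1 = z then c else 0) * ξ p = c * ∑ k, ξ (z, k) := by
  rw [Fintype.sum_prod_type, Finset.sum_eq_single z]
  · simp [Finset.mul_sum]
  · intro b _ hb
    simp [hb]
  · simp

lemma sum_point (t : Fin g) (c : ℝ) (ξ : AQ g S → ℝ) :
    ∑ p : AQ g S, (if p = (t, 0) then c else 0) * ξ p = c * ξ (t, 0) := by
  rw [Finset.sum_eq_single (t, 0)]
  · simp
  · intro b _ hb
    simp [hb]
  · simp

lemma sum_pw (z z' t t' : Fin g) (α β a b : ℝ) (ξ : AQ g S → ℝ) :
    ∑ p, pw z z' t t' α β a b p * ξ p = (∑ p, 1 * ξ p) + α * (∑ k, ξ (z, k)) + β * (∑ k, ξ (z', k))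
      - a * ξ (t, 0) - b * ξ (t', 0) := by
  rw [← sum_chain z α ξ, ← sum_chain z' β ξ, ← sum_point t a ξ, ← sum_point t' b ξ,
    ← Finset.sum_add_distrib, ← Finset.sum_add_distrib, ← Finset.sum_sub_distrib,
    ← Finset.sum_sub_distrib]
  refine Finset.sum_congr rfl fun p _ => ?_
  unfold pw
  ring

lemma prod_chain (z : Fin g) (c : ℝ) :
    ∏ p : AQ g S, (if p.1 = z then c else 1) = c ^ (S + 1) := by
  rw [Fintype.prod_prod_type, Finset.prod_eq_single z]
  · simp
  · intro b _ hb
    simp [hb]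
  · simp

lemma prod_point (t : Fin g) (c : ℝ) :
    ∏ p : AQ g S, (if p = (t, 0) then c else 1) = c := by
  rw [Finset.prod_eq_single (t, 0)]
  · simp
  · intro b _ hb
    simp [hb]
  · simp

lemma prod_pw_le (z z' t t' : Fin g) (α β a b A B C D : ℝ)
    (h0 : ∀ p : AQ g S, 0 < pw z z' t t' α β a b p)
    (h : ∀ p : AQ g S, 1 / pw z z' t t' α β a b p ≤ (if p.1 = z then A else 1) * (if p.1 = z' then B else 1)
      * (if p = (t, 0) then C else 1) * (if p = (t', 0) then D else 1)) :
    ∏ p : AQ g S, 1 / pw z z' t t' α β a b p ≤ A ^ (S + 1) * B ^ (S + 1) * C * D := by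
  calc ∏ p : AQ g S, 1 / pw z z' t t' α β a b p
      ≤ ∏ p : AQ g S, ((if p.1 = z then A else 1) * (if p.1 = z' then B else 1)
      * (if p = (t, 0) then C else 1) * (if p = (t', 0) then D else 1)) :=
        Finset.prod_le_prod (fun p _ => (div_pos one_pos (h0 p)).le) fun p _ => h p
    _ = _ := by
        rw [Finset.prod_mul_distrib, Finset.prod_mul_distrib, Finset.prod_mul_distrib, prod_chain,
          prod_chain, prod_point, prod_point]

lemma gw_le_of {w : AQ g S → ℝ} (ξ : AQ g S → ℝ) (hξ : ξ ∈ orth (AQ g S))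
    (h : ∑ p, w p * ξ p ≤ ∑ p, 1 * ξ p) : gw (fun _ => 1) ξ ≤ gw w ξ := by
  unfold gw
  rw [indicator_of_mem hξ, indicator_of_mem hξ]
  exact Real.exp_le_exp.2 (by linarith)

lemma gw_nonneg (w : AQ g S → ℝ) (ξ : AQ g S → ℝ) : 0 ≤ gw w ξ :=
  indicator_nonneg (fun _ _ => (Real.exp_pos _).le) _

lemma vf_eq_one {r : Fin g × Fin g} {ξ : AQ g S → ℝ} (h : vf r ξ ≠ 0) : viol r ξ := by
  by_contra hv
  apply h
  unfold vf
  exact indicator_of_notMem (show ξ ∉ {ξ | viol r ξ} from hv) _

lemma pair_weights (r r' : Fin g × Fin g) (hr : r ∈ DR g) (hr' : r' ∈ DR g) (hne : r ≠ r') :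
    ∃ w1 w2 : AQ g S → ℝ, (∀ a, 1 / 10 ≤ w1 a) ∧ (∀ a, 1 / 10 ≤ w2 a) ∧
      (∏ a, 1 / w1 a ≤ 100 * (400 / 841) ^ (S + 1)) ∧ (∏ a, 1 / w2 a ≤ 100 * (400 / 841) ^ (S + 1)) ∧
      ∀ ξ, vf r ξ * vf r' ξ * gw (fun _ => 1) ξ ≤ gw w1 ξ + gw w2 ξ := by
  obtain ⟨i, z⟩ := r
  obtain ⟨i', z'⟩ := r'
  have hiz : i ≠ z := fun h => Rel_ne z.2 (Finset.mem_filter.1 hr).2 (by rw [h])
  have hiz' : i' ≠ z' := fun h => Rel_ne z'.2 (Finset.mem_filter.1 hr').2 (by rw [h])
  by_cases hz : z = z'
  · subst hz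
    have hii : i ≠ i' := fun h => hne (by rw [h])
    have hb : ∀ p : AQ g S, 1 / 10 ≤ pw z z i i' (9 / 5) 0 (9 / 10) (9 / 10) p := by
      rintro ⟨p1, p2⟩
      unfold pw
      simp only [Prod.mk.injEq]
      by_cases h1 : p1 = z
      · subst h1
        rw [if_pos rfl, if_pos rfl, if_neg (fun h => hiz h.1.symm), if_neg (fun h => hiz' h.1.symm)]
        norm_num
      · rw [if_neg h1, if_neg h1]
        by_cases h2 : p1 = i ∧ p2 = 0
        · rw [if_pos h2, if_neg (fun h => hii (h2.1.symm.trans h.1))]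
          norm_num
        · rw [if_neg h2]
          split_ifs <;> norm_num
    have hP : ∏ a : AQ g S, 1 / pw z z i i' (9 / 5) 0 (9 / 10) (9 / 10) a ≤ 100 * (400 / 841) ^ (S + 1) := by
      refine (prod_pw_le z z i i' (9 / 5) 0 (9 / 10) (9 / 10) (5 / 14) 1 10 10
        (fun p => lt_of_lt_of_le (by norm_num) (hb p)) ?_).trans ?_
      · rintro ⟨p1, p2⟩
        unfold pw
        simp only [Prod.mk.injEq]
        by_cases h1 : p1 = z
        · subst h1
          rw [if_pos rfl, if_pos rfl, if_neg (fun h => hiz h.1.symm), if_neg (fun h => hiz' h.1.symm)]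
          rw [if_pos rfl, if_pos rfl, if_neg (fun h => hiz h.1.symm), if_neg (fun h => hiz' h.1.symm)]
          norm_num
        · rw [if_neg h1, if_neg h1, if_neg h1, if_neg h1]
          by_cases h2 : p1 = i ∧ p2 = 0
          · rw [if_pos h2, if_neg (fun h => hii (h2.1.symm.trans h.1)), if_pos h2,
              if_neg (fun h => hii (h2.1.symm.trans h.1))]
            norm_num
          · rw [if_neg h2, if_neg h2]
            split_ifs <;> norm_num
      · rw [one_pow, mul_one]
        have : ((5:ℝ) / 14) ^ (S + 1) ≤ (400 / 841) ^ (S + 1) :=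
          pow_le_pow_left₀ (by norm_num) (by norm_num) _
        nlinarith
    refine ⟨_, _, hb, hb, hP, hP, fun ξ => ?_⟩
    by_cases hξ : ξ ∈ orth (AQ g S)
    · rcases vf_mem (i, z) ξ with h | h
      · rw [h, zero_mul, zero_mul]; exact add_nonneg (gw_nonneg _ _) (gw_nonneg _ _)
      rcases vf_mem (i', z) ξ with h' | h'
      · rw [h', mul_zero, zero_mul]; exact add_nonneg (gw_nonneg _ _) (gw_nonneg _ _)
      have hv := vf_eq_one (by rw [h]; exact one_ne_zero)
      have hv' := vf_eq_one (by rw [h']; exact one_ne_zero)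
      unfold viol at hv hv'
      simp only at hv hv'
      rw [h, h', one_mul, one_mul]
      refine (gw_le_of ξ hξ ?_).trans (le_add_of_nonneg_right (gw_nonneg _ _))
      rw [sum_pw]
      linarith
    · unfold gw
      rw [indicator_of_notMem hξ, indicator_of_notMem hξ, mul_zero, add_zero]
  · have hb : ∀ t : Fin g, ∀ p : AQ g S, 1 / 10 ≤ pw z z' t t (9 / 20) (9 / 20) (9 / 10) 0 p := by
      rintro t ⟨p1, p2⟩
      unfold pw
      split_ifs <;> norm_num
    have hP : ∀ t : Fin g, ∏ a : AQ g S, 1 / pw z z' t t (9 / 20) (9 / 20) (9 / 10) 0 a ≤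
        100 * (400 / 841) ^ (S + 1) := by
      intro t
      refine (prod_pw_le z z' t t (9 / 20) (9 / 20) (9 / 10) 0 (20 / 29) (20 / 29) 10 1
        (fun p => lt_of_lt_of_le (by norm_num) (hb t p)) ?_).trans ?_
      · rintro ⟨p1, p2⟩
        unfold pw
        by_cases h1 : p1 = z
        · subst h1
          rw [if_pos rfl, if_neg hz, if_pos rfl, if_neg hz]
          split_ifs <;> norm_num
        · rw [if_neg h1, if_neg h1]
          split_ifs <;> norm_num
      · rw [← mul_pow]
        have : (0:ℝ) ≤ (400 / 841) ^ (S + 1) := by positivity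
        norm_num
        linarith
    refine ⟨_, _, hb i, hb i', hP i, hP i', fun ξ => ?_⟩
    by_cases hξ : ξ ∈ orth (AQ g S)
    · rcases vf_mem (i, z) ξ with h | h
      · rw [h, zero_mul, zero_mul]; exact add_nonneg (gw_nonneg _ _) (gw_nonneg _ _)
      rcases vf_mem (i', z') ξ with h' | h'
      · rw [h', mul_zero, zero_mul]; exact add_nonneg (gw_nonneg _ _) (gw_nonneg _ _)
      have hv := vf_eq_one (by rw [h]; exact one_ne_zero)
      have hv' := vf_eq_one (by rw [h']; exact one_ne_zero)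
      unfold viol at hv hv'
      simp only at hv hv'
      rw [h, h', one_mul, one_mul]
      rcases le_total (ξ (i, 0)) (ξ (i', 0)) with hle | hle
      · refine (gw_le_of ξ hξ ?_).trans (le_add_of_nonneg_left (gw_nonneg _ _))
        rw [sum_pw]
        linarith
      · refine (gw_le_of ξ hξ ?_).trans (le_add_of_nonneg_right (gw_nonneg _ _))
        rw [sum_pw]
        linarith
    · unfold gw
      rw [indicator_of_notMem hξ, indicator_of_notMem hξ, indicator_of_notMem hξ, mul_zero, add_zero]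

/-- linear functionals considered -/
def Fn (c : ℝ) (o : Option (AQ g S)) : (AQ g S → ℝ) → ℝ := fun ξ =>
  match o with
  | none => c
  | some a => Lm (Fin g) (S + 1) ξ a

end

end Pool.MP6e
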