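import Pool.Agent.Work.MP_6e2e82_co.QPair

set_option autoImplicit false
set_option linter.unusedSectionVars false
open MeasureTheory Filter Topology Set

namespace Pool.MP6e

section
variable {g S : ℕ}

/-- shear -/
def shear (i z : Fin g) (ξ : AQ g S → ℝ) : AQ g S → ℝ :=
  fun p => ξ p + (if p = (i, 0) then ∑ k, ξ (z, k) else 0)

lemma mp_shear {i z : Fin g} (h : i ≠ z) : MeasurePreserving (shear (S := S) i z) := by
  let u : AQ g S → ℝ := Pi.single (i, 0) 1
  let v : AQ g S → ℝ := fun p => if p.1 = z then 1 else 0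
  have hdet : (1 + Matrix.replicateCol Unit u * Matrix.replicateRow Unit v).det = 1 := by
    rw [Matrix.det_one_add_replicateCol_mul_replicateRow]
    simp [u, v, dotProduct, Pi.single_apply, h]
  have hmp := mp_matrix _ hdet
  have : (fun ξ : AQ g S → ℝ => (1 + Matrix.replicateCol Unit u * Matrix.replicateRow Unit v).mulVec ξ) =
      shear i z := by
    funext ξ p
    rw [Matrix.add_mulVec, Matrix.one_mulVec, ← Matrix.mulVec_mulVec]
    unfold shear
    simp only [Pi.add_apply]
    congr 1
    have h1 : ∑ k, ξ (z, k) = ∑ p, v p * ξ p := by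
      have := sum_chain z 1 ξ
      rw [one_mul] at this
      rw [← this]
    rw [h1]
    simp only [Matrix.mulVec, dotProduct, Matrix.replicateCol_apply, Matrix.replicateRow_apply,
      Finset.univ_unique, Finset.sum_singleton, u, Pi.single_apply]
    split_ifs <;> simp
  rwa [this] at hmp

lemma shear_injective {i z : Fin g} (h : i ≠ z) : Function.Injective (shear (S := S) i z) := by
  intro ξ η he
  have h1 : ∀ p : AQ g S, p ≠ (i, 0) → ξ p = η p := by
    intro p hp
    have := congrFun he p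
    simpa [shear, hp] using this
  have h2 : ∑ k, ξ (z, k) = ∑ k, η (z, k) :=
    Finset.sum_congr rfl fun k _ => h1 _ (fun h' => h (by
      have := congrArg Prod.fst h'
      exact this.symm))
  funext p
  by_cases hp : p = (i, 0)
  · subst hp
    have := congrFun he (i, 0)
    simp only [shear, if_true, h2] at this
    linarith
  · exact h1 p hp

lemma me_shear {i z : Fin g} (h : i ≠ z) : MeasurableEmbedding (shear (S := S) i z) :=
  (mp_shear h).measurable.measurableEmbedding (shear_injective h)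

/-- chain weight -/
noncomputable def cw (z : Fin g) : AQ g S → ℝ := fun p => 1 + (if p.1 = z then 1 else 0)

lemma cw_pos (z : Fin g) (p : AQ g S) : 0 < cw z p := by
  unfold cw; split_ifs <;> norm_num

lemma one_div_cw (z : Fin g) (p : AQ g S) : 1 / cw z p = if p.1 = z then 1 / 2 else 1 := by
  unfold cw; split_ifs <;> norm_num

lemma prod_cw (z : Fin g) : ∏ p : AQ g S, 1 / cw z p = (1 / 2) ^ (S + 1) := by
  simp_rw [one_div_cw]
  exact prod_chain z (1 / 2)

lemma shear_weight {i z : Fin g} (h : i ≠ z) (ξ : AQ g S → ℝ) (h0 : ξ (i, 0) ≠ 0) :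
    vf (i, z) (shear i z ξ) * gw (fun _ => 1) (shear i z ξ) = gw (cw z) ξ := by
  have hz : ∀ k, shear i z ξ (z, k) = ξ (z, k) := by
    intro k
    unfold shear
    rw [if_neg (fun h' => h (congrArg Prod.fst h').symm), add_zero]
  have hi : shear i z ξ (i, 0) = ξ (i, 0) + ∑ k, ξ (z, k) := by
    unfold shear
    rw [if_pos rfl]
  have hviol : viol (i, z) (shear i z ξ) ↔ 0 ≤ ξ (i, 0) := by
    unfold viol
    simp only [hz, hi]
    constructor <;> intro h <;> linarith
  have hsum : ∑ p, 1 * shear i z ξ p = ∑ p, cw z p * ξ p := by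
    have h1 : ∑ p, cw z p * ξ p = ∑ p, 1 * ξ p + ∑ p : AQ g S, (if p.1 = z then (1:ℝ) else 0) * ξ p := by
      rw [← Finset.sum_add_distrib]
      refine Finset.sum_congr rfl fun p _ => ?_
      unfold cw; ring
    rw [h1, sum_chain, one_mul]
    unfold shear
    simp_rw [mul_add, Finset.sum_add_distrib]
    congr 1
    rw [Finset.sum_eq_single (i, 0)]
    · simp
    · intro b _ hb; simp [hb]
    · simp
  by_cases hξ : ξ ∈ orth (AQ g S)
  · have hs : shear i z ξ ∈ orth (AQ g S) := by
      intro p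
      unfold shear
      have h1 := hξ p
      split_ifs
      · exact add_pos_of_pos_of_nonneg h1 (Finset.sum_nonneg fun k _ => (hξ _).le)
      · simpa using h1
    have hv : vf (i, z) (shear i z ξ) = 1 := by
      unfold vf
      rw [indicator_of_mem (show shear i z ξ ∈ {ξ | viol (i, z) ξ} from hviol.2 (hξ _).le)]
      rfl
    rw [hv, one_mul]
    unfold gw
    rw [indicator_of_mem hs, indicator_of_mem hξ, hsum]
  · have hr : gw (cw z) ξ = 0 := by
      unfold gw
      rw [indicator_of_notMem hξ]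
    rw [hr]
    by_cases hv : viol (i, z) (shear i z ξ)
    · have h1 : 0 < ξ (i, 0) := lt_of_le_of_ne (hviol.1 hv) (Ne.symm h0)
      have hns : shear i z ξ ∉ orth (AQ g S) := by
        intro hs
        apply hξ
        intro p
        by_cases hp : p = (i, 0)
        · rw [hp]; exact h1
        · have := hs p
          unfold shear at this
          rwa [if_neg hp, add_zero] at this
      unfold gw
      rw [indicator_of_notMem hns, mul_zero]
    · unfold vf
      rw [indicator_of_notMem (show shear i z ξ ∉ {ξ | viol (i, z) ξ} from hv), zero_mul]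

lemma integral_shear {i z : Fin g} (h : i ≠ z) (F : (AQ g S → ℝ) → ℝ) :
    ∫ ξ, F ξ * (vf (i, z) ξ * gw (fun _ => 1) ξ) = ∫ ξ, F (shear i z ξ) * gw (cw z) ξ := by
  rw [← (mp_shear (S := S) h).integral_comp (me_shear h)]
  refine integral_congr_ae ?_
  have hae : ∀ᵐ ξ : AQ g S → ℝ, ξ (i, 0) ≠ 0 := Measure.ae_eval_ne (fun _ => volume) (i, 0) 0
  filter_upwards [hae] with ξ hξ
  rw [shear_weight h ξ hξ]

lemma integral_vf {r : Fin g × Fin g} (hr : r ∈ DR g) :
    ∫ ξ : AQ g S → ℝ, vf r ξ * gw (fun _ => 1) ξ = (1 / 2) ^ (S + 1) := by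
  obtain ⟨i, z⟩ := r
  have hiz : i ≠ z := fun h => Rel_ne z.2 (Finset.mem_filter.1 hr).2 (by rw [h])
  have := integral_shear (S := S) hiz (fun _ => 1)
  simp only [one_mul] at this
  rw [this, integral_gw (cw_pos z), prod_cw]

lemma Lm_shear (i z : Fin g) (ξ : AQ g S → ℝ) (a : AQ g S) :
    Lm (Fin g) (S + 1) (shear i z ξ) a = Lm (Fin g) (S + 1) ξ a + (if a.1 = i then ∑ k, ξ (z, k) else 0) := by
  unfold Lm shear
  rw [Finset.sum_add_distrib]
  congr 1
  rw [Finset.sum_eq_single (0 : Fin (S + 1))]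
  · simp
  · intro b _ hb
    rw [if_neg (fun h => hb (congrArg Prod.snd h))]
  · intro h; simp at h

lemma integral_Lm_vf {r : Fin g × Fin g} (hr : r ∈ DR g) (a : AQ g S) :
    ∫ ξ : AQ g S → ℝ, Lm (Fin g) (S + 1) ξ a * (vf r ξ * gw (fun _ => 1) ξ) =
      (1 / 2) ^ (S + 1) * (((a.2 : ℝ) + 1) * (1 - if a.1 = r.2 then 1 / 2 else 0) +
        if a.1 = r.1 then ((S : ℝ) + 1) / 2 else 0) := by
  obtain ⟨i, z⟩ := r
  have hiz : i ≠ z := fun h => Rel_ne z.2 (Finset.mem_filter.1 hr).2 (by rw [h])
  rw [integral_shear (S := S) hiz]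
  simp_rw [Lm_shear, add_mul]
  have hS : ∀ ξ : AQ g S → ℝ, (if a.1 = i then ∑ k, ξ (z, k) else 0) * gw (cw z) ξ =
      (if a.1 = i then 1 else 0) * (Lm (Fin g) (S + 1) ξ (z, Fin.last S) * gw (cw z) ξ) := by
    intro ξ
    have : Lm (Fin g) (S + 1) ξ (z, Fin.last S) = ∑ k, ξ (z, k) := by
      unfold Lm
      refine Finset.sum_congr ?_ fun _ _ => rfl
      ext i; simp [Fin.le_last]
    rw [this]
    split_ifs <;> simp
  simp_rw [hS]
  rw [integral_add (integrable_Lm_gw (cw_pos z) a)
    ((integrable_Lm_gw (cw_pos z) _).const_mul _), integral_const_mul, integral_Lm_gw (cw_pos z),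
    integral_Lm_gw (cw_pos z), prod_cw]
  have h1 : ∑ k ∈ Finset.Iic a.2, 1 / cw z (a.1, k) = ((a.2 : ℝ) + 1) * (1 - if a.1 = z then 1 / 2 else 0) := by
    simp_rw [one_div_cw]
    by_cases h : a.1 = z
    · simp only [h, if_true, Finset.sum_const, Fin.card_Iic, nsmul_eq_mul]
      push_cast; ring
    · simp only [h, if_false, Finset.sum_const, Fin.card_Iic, nsmul_eq_mul]
      push_cast; ring
  have h2 : ∑ k ∈ Finset.Iic (Fin.last S), 1 / cw z (z, k) = ((S : ℝ) + 1) / 2 := by
    simp_rw [one_div_cw]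
    rw [Finset.sum_const, Fin.card_Iic]
    simp only [nsmul_eq_mul, Fin.val_last]
    push_cast
    ring
  simp only [h1, h2]
  split_ifs <;> ring

end

end Pool.MP6e
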