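import Pool.Agent.Work.MP_6e2e82_co.Comp

set_option autoImplicit false
open MeasureTheory ENNReal

namespace Pool.MP6e

section
variable {A B ι κ : Type*} [Fintype A] [Fintype B] [Fintype ι] [Fintype κ]
  (rA : A → A → Prop) (rB : B → B → Prop) (rκ : κ → κ → Prop) (τ : ι → A) (σ : ι → B)

/-- real weight -/
noncomputable def Wr (n : ℕ) (u : A ⊕ B → ℝ) : ℝ :=
  ∏ l, (max (1 - u (.inr (σ l)) - u (.inl (τ l))) 0) ^ n

lemma Wr_nonneg (n : ℕ) (u : A ⊕ B → ℝ) : 0 ≤ Wr τ σ n u :=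
  Finset.prod_nonneg fun _ _ => pow_nonneg (le_max_right _ _) _

lemma We_eq (n : ℕ) (u : A ⊕ B → ℝ) : We τ σ n u = ENNReal.ofReal (Wr τ σ n u) := by
  unfold We Wr
  rw [ENNReal.ofReal_prod_of_nonneg (fun _ _ => pow_nonneg (le_max_right _ _) _)]
  refine Finset.prod_congr rfl fun l _ => ?_
  rw [ENNReal.ofReal_pow (le_max_right _ _)]
  congr 1
  rcases le_total (1 - u (.inr (σ l)) - u (.inl (τ l))) 0 with h | h
  · rw [max_eq_right h, ENNReal.ofReal_of_nonpos h, ENNReal.ofReal_zero]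
  · rw [max_eq_left h]

lemma measurable_Wr (n : ℕ) : Measurable (Wr (A := A) (B := B) τ σ n) := by
  unfold Wr; fun_prop

lemma Wr_le_one (n : ℕ) (u : A ⊕ B → ℝ) (hu : u ∈ O (rD rA rB)) : Wr τ σ n u ≤ 1 := by
  unfold Wr
  refine Finset.prod_le_one (fun _ _ => pow_nonneg (le_max_right _ _) _) fun l _ => ?_
  refine pow_le_one₀ (le_max_right _ _) (max_le ?_ zero_le_one)
  have h1 := (hu.1 (.inr (σ l))).1
  have h2 := (hu.1 (.inl (τ l))).1
  linarith

/-- weighted integrals over the order region -/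
noncomputable def J (n : ℕ) (F : (A ⊕ B → ℝ) → ℝ) : ℝ :=
  ∫ u in O (rD rA rB), F u * Wr τ σ n u

lemma volume_O_lt_top {α : Type*} [Fintype α] (r : α → α → Prop) : volume (O r) < ⊤ := by
  calc volume (O r) ≤ volume (O (fun _ _ : α => False)) := by
        refine measure_mono fun x hx => ⟨hx.1, fun _ _ h => h.elim⟩
    _ = 1 := volume_cube
    _ < ⊤ := ENNReal.one_lt_top

lemma J_integrable (n : ℕ) (F : (A ⊕ B → ℝ) → ℝ) (hF : Measurable F) (C : ℝ)
    (hC : ∀ u ∈ O (rD rA rB), |F u| ≤ C) :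
    IntegrableOn (fun u => F u * Wr τ σ n u) (O (rD rA rB)) := by
  refine Measure.integrableOn_of_bounded (M := C) (volume_O_lt_top _).ne
    (hF.mul (measurable_Wr τ σ n)).aestronglyMeasurable ?_
  refine (ae_restrict_iff' (measurableSet_O _)).2 (Filter.Eventually.of_forall fun u hu => ?_)
  rw [norm_mul, Real.norm_eq_abs, Real.norm_eq_abs, abs_of_nonneg (Wr_nonneg τ σ n u)]
  have h1 := hC u hu
  have h2 := Wr_le_one rA rB τ σ n u hu
  have h3 := Wr_nonneg τ σ n u
  have h4 := abs_nonneg (F u)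
  nlinarith

lemma J_eq_toReal (n : ℕ) (F : (A ⊕ B → ℝ) → ℝ) (hF : Measurable F)
    (hF0 : ∀ u ∈ O (rD rA rB), 0 ≤ F u) :
    J rA rB τ σ n F =
      (∫⁻ u in O (rD rA rB), ENNReal.ofReal (F u) * We τ σ n u).toReal := by
  unfold J
  rw [integral_eq_lintegral_of_nonneg_ae]
  · congr 1
    refine setLIntegral_congr_fun (measurableSet_O _) fun u hu => ?_
    show ENNReal.ofReal (F u * Wr τ σ n u) = ENNReal.ofReal (F u) * We τ σ n u
    rw [ENNReal.ofReal_mul (hF0 u hu), We_eq]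
  · refine (ae_restrict_iff' (measurableSet_O _)).2 (Filter.Eventually.of_forall fun u hu => ?_)
    exact mul_nonneg (hF0 u hu) (Wr_nonneg τ σ n u)
  · exact (hF.mul (measurable_Wr τ σ n)).aestronglyMeasurable

theorem V_comp [Nonempty κ] : V (rP rA rB rκ τ σ) =
    V rκ ^ Fintype.card ι * J rA rB τ σ (Fintype.card κ) (fun _ => 1) := by
  have h := lintegral_comp_D rA rB rκ τ σ (fun _ => 1) measurable_const
  rw [J_eq_toReal _ _ _ _ _ _ measurable_const (fun _ _ => zero_le_one)]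
  have h1 : volume (O (rP rA rB rκ τ σ)) = ∫⁻ w in O (rP rA rB rκ τ σ), 1 := by simp
  rw [V, h1, h, ENNReal.toReal_mul, ENNReal.toReal_pow]
  simp [V]

theorem Mo_eq_toReal {α : Type*} [Fintype α] (r : α → α → Prop) (v : α) :
    Mo r v = (∫⁻ x in O r, ENNReal.ofReal (x v)).toReal := by
  rw [Mo, integral_eq_lintegral_of_nonneg_ae]
  · rw [Filter.EventuallyLE, ae_restrict_iff' (measurableSet_O r)]
    exact Filter.Eventually.of_forall fun x hx => (hx.1 v).1.le
  · exact (measurable_pi_apply v).aestronglyMeasurable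

theorem Mo_comp_bot [Nonempty κ] (a : A) : Mo (rP rA rB rκ τ σ) (.inl (.inl a)) =
    V rκ ^ Fintype.card ι * J rA rB τ σ (Fintype.card κ) (fun u => u (.inl a)) := by
  have h := lintegral_comp_D rA rB rκ τ σ (fun u => ENNReal.ofReal (u (.inl a))) (by fun_prop)
  rw [J_eq_toReal _ _ _ _ _ _ (by fun_prop) (fun u hu => (hu.1 _).1.le), Mo_eq_toReal]
  have h1 : ∫⁻ x in O (rP rA rB rκ τ σ), ENNReal.ofReal (x (.inl (.inl a))) =
      ∫⁻ w in O (rP rA rB rκ τ σ), (fun u : A ⊕ B → ℝ => ENNReal.ofReal (u (.inl a))) (Psi A B ι κ w).1 := rfl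
  rw [h1, h, ENNReal.toReal_mul, ENNReal.toReal_pow]
  simp [V]

theorem Mo_comp_top [Nonempty κ] (b : B) : Mo (rP rA rB rκ τ σ) (.inl (.inr b)) =
    V rκ ^ Fintype.card ι * J rA rB τ σ (Fintype.card κ) (fun u => 1 - u (.inr b)) := by
  have h := lintegral_comp_D rA rB rκ τ σ (fun u => ENNReal.ofReal (1 - u (.inr b))) (by fun_prop)
  rw [J_eq_toReal _ _ _ _ _ _ (by fun_prop) (fun u hu => (sub_nonneg.2 (hu.1 _).2.le)), Mo_eq_toReal]
  have h1 : ∫⁻ x in O (rP rA rB rκ τ σ), ENNReal.ofReal (x (.inl (.inr b))) =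
      ∫⁻ w in O (rP rA rB rκ τ σ), (fun u : A ⊕ B → ℝ => ENNReal.ofReal (1 - u (.inr b))) (Psi A B ι κ w).1 := by
    refine lintegral_congr fun w => ?_
    simp [Psi]
  rw [h1, h, ENNReal.toReal_mul, ENNReal.toReal_pow]
  simp [V]

theorem Mo_comp_mod [Nonempty κ] (l : ι) (q : κ) :
    V rκ * Mo (rP rA rB rκ τ σ) (.inr (l, q)) =
    (V rκ - Mo rκ q) * Mo (rP rA rB rκ τ σ) (.inl (.inl (τ l))) +
      Mo rκ q * Mo (rP rA rB rκ τ σ) (.inl (.inr (σ l))) := by
  have h := lintegral_comp_M rA rB rκ τ σ l q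
  set n := Fintype.card κ with hn
  have hVt := (volume_O_lt_top rκ).ne
  have hMt : ∫⁻ z in O rκ, ENNReal.ofReal (z q) ≠ ⊤ := by
    have : ∫⁻ z in O rκ, ENNReal.ofReal (z q) ≤ ∫⁻ z in O rκ, 1 := by
      refine setLIntegral_mono measurable_const fun z hz => ?_
      rw [← ENNReal.ofReal_one]
      exact ENNReal.ofReal_le_ofReal (hz.1 q).2.le
    refine (this.trans_lt ?_).ne
    simpa using hVt.lt_top
  have h' := congrArg ENNReal.toReal h
  rw [ENNReal.toReal_mul, ENNReal.toReal_mul, ENNReal.toReal_pow, ← Mo_eq_toReal] at h'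
  have hV : (volume (O rκ)).toReal = V rκ := rfl
  rw [hV] at h'
  -- rewrite the inner integral as J of a function
  have key : (∫⁻ u in O (rD rA rB), (ENNReal.ofReal (u (.inl (τ l))) * volume (O rκ) +
        ENNReal.ofReal (1 - u (.inr (σ l)) - u (.inl (τ l))) * ∫⁻ z in O rκ, ENNReal.ofReal (z q))
         * We τ σ n u).toReal =
      J rA rB τ σ n (fun u => u (.inl (τ l)) * V rκ +
        (max (1 - u (.inr (σ l)) - u (.inl (τ l))) 0) * Mo rκ q) := by
    have hM0 : 0 ≤ Mo rκ q := by rw [Mo_eq_toReal]; exact ENNReal.toReal_nonneg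
    have hV0 : 0 ≤ V rκ := ENNReal.toReal_nonneg
    rw [J_eq_toReal _ _ _ _ _ _ (by fun_prop) (fun u hu => add_nonneg
      (mul_nonneg (hu.1 _).1.le hV0) (mul_nonneg (le_max_right _ _) hM0))]
    congr 1
    refine setLIntegral_congr_fun (measurableSet_O _) fun u hu => ?_
    show _ = ENNReal.ofReal _ * _
    congr 1
    rw [ENNReal.ofReal_add (mul_nonneg (hu.1 _).1.le hV0) (mul_nonneg (le_max_right _ _) hM0),
      ENNReal.ofReal_mul (hu.1 _).1.le, ENNReal.ofReal_mul (le_max_right _ _)]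
    congr 2
    · exact (ENNReal.ofReal_toReal hVt).symm
    · rcases le_total (1 - u (.inr (σ l)) - u (.inl (τ l))) 0 with h | h
      · rw [max_eq_right h, ENNReal.ofReal_of_nonpos h, ENNReal.ofReal_zero]
      · rw [max_eq_left h]
    · rw [Mo_eq_toReal, ENNReal.ofReal_toReal hMt]
  rw [key] at h'
  have hJ : J rA rB τ σ n (fun u => u (.inl (τ l)) * V rκ +
        (max (1 - u (.inr (σ l)) - u (.inl (τ l))) 0) * Mo rκ q) =
      (V rκ - Mo rκ q) * J rA rB τ σ n (fun u => u (.inl (τ l))) +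
      Mo rκ q * J rA rB τ σ n (fun u => 1 - u (.inr (σ l))) := by
    unfold J
    rw [← integral_const_mul, ← integral_const_mul, ← integral_add]
    · refine setIntegral_congr_fun (measurableSet_O _) fun u hu => ?_
      show _ = _
      -- if the factor is negative, weight is zero (n ≥ 1)
      have hn0 : n ≠ 0 := Fintype.card_ne_zero
      rcases le_total (1 - u (.inr (σ l)) - u (.inl (τ l))) 0 with h0 | h0
      · have : Wr τ σ n u = 0 := by
          unfold Wr
          refine Finset.prod_eq_zero (Finset.mem_univ l) ?_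
          rw [max_eq_right h0, zero_pow hn0]
        simp [this]
      · simp only [max_eq_left h0]
        ring
    · exact (J_integrable rA rB τ σ n (fun u => u (.inl (τ l))) (by fun_prop) 1
        (fun u hu => by rw [abs_of_pos (hu.1 _).1]; exact (hu.1 _).2.le)).const_mul _
    · exact (J_integrable rA rB τ σ n (fun u => 1 - u (.inr (σ l))) (by fun_prop) 1
        (fun u hu => by
          rw [abs_of_nonneg (sub_nonneg.2 (hu.1 _).2.le)]
          linarith [(hu.1 (.inr (σ l))).1])).const_mul _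
  rw [hJ] at h'
  rw [h', Mo_comp_bot, Mo_comp_top]
  ring

end
end Pool.MP6e
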