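import Pool.Agent.Work.MP_6e2e82_co.Moment

set_option autoImplicit false
open MeasureTheory ENNReal

namespace Pool.MP6e

/-- Tonelli for finite products, `Fin n` version -/
theorem lintegral_fin_prod {n : ℕ} {E : Type*} [MeasurableSpace E] (μ : Measure E) [SigmaFinite μ]
    (f : Fin n → E → ℝ≥0∞) (hf : ∀ i, Measurable (f i)) :
    ∫⁻ x : Fin n → E, ∏ i, f i (x i) ∂(Measure.pi fun _ => μ) = ∏ i, ∫⁻ x, f i x ∂μ := by
  induction n with
  | zero => simp
  | succ n ih =>
    have hmp := (measurePreserving_piFinSuccAbove (fun _ : Fin (n + 1) => μ) 0).symm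
    rw [← hmp.lintegral_comp_emb (MeasurableEquiv.measurableEmbedding _)]
    rw [Fin.prod_univ_succ]
    have hs : ∀ a : E × (Fin n → E), ∏ i, f i ((MeasurableEquiv.piFinSuccAbove (fun _ => E) 0).symm a i)
        = f 0 a.1 * ∏ i : Fin n, f i.succ (a.2 i) := by
      intro a
      rw [Fin.prod_univ_succ]
      rfl
    rw [lintegral_congr hs]
    rw [← ih (fun i => f i.succ) (fun i => hf _), ← lintegral_prod_mul (hf 0).aemeasurable]
    exact (Finset.measurable_prod _ fun i _ => (hf _).comp (measurable_pi_apply i)).aemeasurable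

theorem lintegral_pi_prod {ι E : Type*} [Fintype ι] [MeasurableSpace E] (μ : Measure E) [SigmaFinite μ]
    (f : ι → E → ℝ≥0∞) (hf : ∀ i, Measurable (f i)) :
    ∫⁻ x : ι → E, ∏ i, f i (x i) ∂(Measure.pi fun _ => μ) = ∏ i, ∫⁻ x, f i x ∂μ := by
  let e := (Fintype.equivFin ι).symm
  rw [← (measurePreserving_piCongrLeft (fun _ : ι => μ) e).lintegral_comp_emb
    (MeasurableEquiv.measurableEmbedding _)]
  simp_rw [← e.prod_comp, MeasurableEquiv.coe_piCongrLeft, Equiv.piCongrLeft_apply_apply]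
  exact lintegral_fin_prod μ (fun i => f (e i)) (fun i => hf _)

lemma mp_curry (ι κ : Type*) [Fintype ι] [Fintype κ] :
    MeasurePreserving (MeasurableEquiv.curry ι κ ℝ) := by
  have h : MeasurePreserving (MeasurableEquiv.curry ι κ ℝ).symm := by
    refine ⟨(MeasurableEquiv.curry ι κ ℝ).symm.measurable, ?_⟩
    refine (Measure.pi_eq fun s hs => ?_).symm
    rw [MeasurableEquiv.map_apply]
    have : (MeasurableEquiv.curry ι κ ℝ).symm ⁻¹' (Set.univ.pi s) =
        Set.univ.pi (fun i => Set.univ.pi (fun j => s (i, j))) := by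
      ext x
      simp only [Set.mem_preimage, Set.mem_univ_pi]
      constructor
      · intro h i j; exact h (i, j)
      · intro h p; exact h p.1 p.2
    rw [this, volume_pi_pi]
    simp_rw [volume_pi_pi]
    rw [Fintype.prod_prod_type]
  exact h.symm

/-- reflect the coordinates in `inr` -/
def refl1 (A B : Type*) : (A ⊕ B → ℝ) → (A ⊕ B → ℝ) :=
  fun u i => Sum.elim (fun _ => u i) (fun _ => 1 - u i) i

@[simp] lemma refl1_inl {A B : Type*} (u : A ⊕ B → ℝ) (a : A) : refl1 A B u (Sum.inl a) = u (Sum.inl a) := rfl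
@[simp] lemma refl1_inr {A B : Type*} (u : A ⊕ B → ℝ) (b : B) : refl1 A B u (Sum.inr b) = 1 - u (Sum.inr b) := rfl

lemma mp_refl1 (A B : Type*) [Fintype A] [Fintype B] : MeasurePreserving (refl1 A B) := by
  have : refl1 A B = fun (u : A ⊕ B → ℝ) (i : A ⊕ B) =>
      (Sum.elim (fun _ => (id : ℝ → ℝ)) (fun _ => fun t : ℝ => 1 - t) i : ℝ → ℝ) (u i) := by
    funext u i
    cases i <;> rfl
  rw [this]
  apply volume_preserving_pi
  intro i
  cases i with
  | inl a => exact MeasurePreserving.id _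
  | inr b => exact Measure.measurePreserving_sub_left volume 1

lemma refl1_refl1 {A B : Type*} (u : A ⊕ B → ℝ) : refl1 A B (refl1 A B u) = u := by
  funext i; cases i <;> simp

/-- affine change of variables -/
lemma lintegral_affine {κ : Type*} [Fintype κ] (a c : ℝ) (hc : 0 < c) (f : (κ → ℝ) → ℝ≥0∞)
    (hf : Measurable f) :
    ∫⁻ z, f z = ENNReal.ofReal c ^ Fintype.card κ * ∫⁻ u : κ → ℝ, f (fun q => a + c * u q) := by
  have h1 : ∫⁻ z, f z = ∫⁻ z : κ → ℝ, f ((fun _ => a) + z) := by
    rw [lintegral_add_left_eq_self]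
  have h2 : ∀ g : (κ → ℝ) → ℝ≥0∞, Measurable g →
      ∫⁻ z, g z = ENNReal.ofReal c ^ Fintype.card κ * ∫⁻ u : κ → ℝ, g (c • u) := by
    intro g hg
    have hm := Measure.map_addHaar_smul (volume : Measure (κ → ℝ)) hc.ne'
    have : ∫⁻ u : κ → ℝ, g (c • u) = ∫⁻ z, g z ∂(Measure.map (fun x => c • x) volume) := by
      rw [lintegral_map hg (measurable_const_smul c)]
    have hm' : Measure.map (fun x : κ → ℝ => c • x) volume = ENNReal.ofReal |(c ^ Module.finrank ℝ (κ → ℝ))⁻¹| • volume := hm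
    rw [this, hm', lintegral_smul_measure, Module.finrank_fintype_fun_eq_card, abs_of_pos (by positivity)]
    rw [ENNReal.ofReal_inv_of_pos (by positivity), ENNReal.ofReal_pow hc.le, smul_eq_mul, ← mul_assoc,
      ENNReal.mul_inv_cancel, one_mul]
    · have : ENNReal.ofReal c ≠ 0 := by simpa using hc
      exact pow_ne_zero _ this
    · exact ENNReal.pow_ne_top ENNReal.ofReal_ne_top
  rw [h1, h2 (fun z => f ((fun _ => a) + z)) (hf.comp (measurable_const_add _))]
  rfl

end Pool.MP6e
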