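import Mathlib

set_option autoImplicit false
open MeasureTheory

namespace Pool.MP6e

variable {α : Type*} [Fintype α]

open Classical in
/-- bijections with `Fin n` that respect the relation `r` -/
noncomputable def LE (n : ℕ) (r : α → α → Prop) : Finset (α ≃ Fin n) :=
  Finset.univ.filter (fun f => ∀ x y, r x y → f x < f y)

lemma mem_LE {n : ℕ} {r : α → α → Prop} {f : α ≃ Fin n} :
    f ∈ LE n r ↔ ∀ x y, r x y → f x < f y := by
  classical
  simp [LE]

/-- the (open) order region of `r` in the unit cube -/
def O (r : α → α → Prop) : Set (α → ℝ) :=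
  {x | (∀ a, 0 < x a ∧ x a < 1) ∧ ∀ a b, r a b → x a < x b}

lemma measurableSet_O (r : α → α → Prop) : MeasurableSet (O r) := by
  have h : O r = (⋂ a, {x : α → ℝ | 0 < x a ∧ x a < 1}) ∩
      ⋂ a, ⋂ b, ⋂ (_ : r a b), {x : α → ℝ | x a < x b} := by
    ext x
    simp [O]
  rw [h]
  refine MeasurableSet.inter ?_ ?_
  · refine MeasurableSet.iInter fun a => ?_
    exact (measurableSet_lt measurable_const (measurable_pi_apply a)).inter
      (measurableSet_lt (measurable_pi_apply a) measurable_const)
  · refine MeasurableSet.iInter fun a => MeasurableSet.iInter fun b => MeasurableSet.iInter fun _ => ?_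
    exact measurableSet_lt (measurable_pi_apply a) (measurable_pi_apply b)

lemma exists_sort {n : ℕ} (hn : Fintype.card α = n) (x : α → ℝ) (hx : Function.Injective x) :
    ∃ f : α ≃ Fin n, ∀ a b, f a < f b ↔ x a < x b := by
  letI : LinearOrder α := LinearOrder.lift' x hx
  let e := Fintype.orderIsoFinOfCardEq α hn
  refine ⟨e.symm.toEquiv, fun a b => ?_⟩
  have : e.symm a < e.symm b ↔ a < b := e.symm.lt_iff_lt
  exact this

lemma volume_noninj : (volume : Measure (α → ℝ)) {x | ¬ Function.Injective x} = 0 := by
  classical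
  have h : {x : α → ℝ | ¬ Function.Injective x} ⊆
      ⋃ p : {p : α × α // p.1 ≠ p.2}, {x : α → ℝ | x p.1.1 = x p.1.2} := by
    intro x hx
    simp only [Set.mem_setOf_eq, Function.Injective, not_forall] at hx
    obtain ⟨a, b, hab, hne⟩ := hx
    exact Set.mem_iUnion.2 ⟨⟨(a, b), hne⟩, hab⟩
  refine measure_mono_null h (measure_iUnion_null fun p => ?_)
  obtain ⟨⟨a, b⟩, hne⟩ := p
  let S : Submodule ℝ (α → ℝ) :=
    LinearMap.ker ((LinearMap.proj a : (α → ℝ) →ₗ[ℝ] ℝ) - LinearMap.proj b)
  have hS : {x : α → ℝ | x a = x b} = S := by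
    ext x
    simp [S, sub_eq_zero]
  have hS' : S ≠ ⊤ := by
    intro h
    have : (Pi.single a (1 : ℝ) : α → ℝ) ∈ S := by rw [h]; trivial
    have hb : b ≠ a := fun h => hne h.symm
    simp [S, hb] at this
  show volume {x : α → ℝ | x a = x b} = 0
  rw [hS]
  exact Measure.addHaar_submodule _ S hS'

/-- region attached to a bijection -/
def R {n : ℕ} (f : α ≃ Fin n) : Set (α → ℝ) := O (fun a b => f a < f b)

lemma volume_O_eq_sum {n : ℕ} (hn : Fintype.card α = n) (r : α → α → Prop) :
    volume (O r) = ∑ f ∈ LE n r, volume (R f) := by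
  classical
  have hsub : (⋃ f ∈ LE n r, R f) ⊆ O r := by
    intro x hx
    simp only [Set.mem_iUnion] at hx
    obtain ⟨f, hf, hx⟩ := hx
    refine ⟨hx.1, fun a b hab => hx.2 a b ?_⟩
    exact mem_LE.1 hf a b hab
  have hsup : O r ⊆ (⋃ f ∈ LE n r, R f) ∪ {x | ¬ Function.Injective x} := by
    intro x hx
    by_cases hinj : Function.Injective x
    · left
      obtain ⟨f, hf⟩ := exists_sort hn x hinj
      simp only [Set.mem_iUnion]
      refine ⟨f, mem_LE.2 fun a b hab => (hf a b).2 (hx.2 a b hab), hx.1, fun a b hab => (hf a b).1 hab⟩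
    · right; exact hinj
  have h1 : volume (O r) = volume (⋃ f ∈ LE n r, R f) := by
    apply le_antisymm
    · calc volume (O r) ≤ volume ((⋃ f ∈ LE n r, R f) ∪ {x | ¬ Function.Injective x}) := measure_mono hsup
        _ ≤ volume (⋃ f ∈ LE n r, R f) + volume {x : α → ℝ | ¬ Function.Injective x} := measure_union_le _ _
        _ = volume (⋃ f ∈ LE n r, R f) := by rw [volume_noninj, add_zero]
    · exact measure_mono hsub
  rw [h1, measure_biUnion_finset]
  · intro f _ g _ hfg
    rw [Function.onFun, Set.disjoint_left]
    intro x hxf hxg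
    apply hfg
    -- both f and g sort x
    have hf : ∀ a b, f a < f b ↔ x a < x b := by
      intro a b
      constructor
      · exact hxf.2 a b
      · intro hab
        by_contra hc
        rcases lt_or_eq_of_le (not_lt.1 hc) with h | h
        · exact absurd (hxf.2 b a h) (not_lt.2 hab.le)
        · have := f.injective h; subst this; exact lt_irrefl _ hab
    have hg : ∀ a b, g a < g b ↔ x a < x b := by
      intro a b
      constructor
      · exact hxg.2 a b
      · intro hab
        by_contra hc
        rcases lt_or_eq_of_le (not_lt.1 hc) with h | h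
        · exact absurd (hxg.2 b a h) (not_lt.2 hab.le)
        · have := g.injective h; subst this; exact lt_irrefl _ hab
    -- f.symm.trans g is an order iso of Fin n, hence identity
    let e : Fin n ≃o Fin n :=
      { toEquiv := f.symm.trans g
        map_rel_iff' := by
          intro i j
          have h := (hg (f.symm i) (f.symm j)).trans (hf (f.symm i) (f.symm j)).symm
          have h' := (hg (f.symm j) (f.symm i)).trans (hf (f.symm j) (f.symm i)).symm
          simp only [Equiv.apply_symm_apply] at h h'
          simp only [Equiv.trans_apply]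
          rw [← not_lt, ← not_lt, h'] }
    have he : e = OrderIso.refl _ := Subsingleton.elim _ _
    ext a
    have : e (f a) = f a := by rw [he]; rfl
    have h2 : e (f a) = g a := by simp [e]
    rw [← this, h2]
  · intro f _
    exact measurableSet_O _

lemma volume_R_eq {n : ℕ} (f g : α ≃ Fin n) : volume (R f) = volume (R g) := by
  let e : α ≃ α := g.trans f.symm
  have hmp := volume_measurePreserving_piCongrLeft (fun _ : α => ℝ) e
  have hset : MeasurableSet (R g) := measurableSet_O _
  have hset' : MeasurableSet (R f) := measurableSet_O _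
  rw [← hmp.measure_preimage hset'.nullMeasurableSet]
  congr 1
  ext x
  have key : ∀ b : α, (MeasurableEquiv.piCongrLeft (fun _ : α => ℝ) e) x b = x (e.symm b) := by
    intro b
    obtain ⟨a, rfl⟩ := e.surjective b
    rw [MeasurableEquiv.coe_piCongrLeft, Equiv.piCongrLeft_apply_apply, Equiv.symm_apply_apply]
  simp only [R, O, Set.mem_preimage, Set.mem_setOf_eq]
  constructor
  · rintro ⟨h1, h2⟩
    refine ⟨fun a => ?_, fun a b hab => ?_⟩
    · have := h1 (e a); rwa [key, Equiv.symm_apply_apply] at this
    · have := h2 (e a) (e b) (by simpa [e] using hab)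
      rwa [key, key, Equiv.symm_apply_apply, Equiv.symm_apply_apply] at this
  · rintro ⟨h1, h2⟩
    refine ⟨fun a => ?_, fun a b hab => ?_⟩
    · rw [key]; exact h1 _
    · rw [key, key]; exact h2 _ _ (by simpa [e] using hab)

lemma volume_cube : volume (O (fun _ _ : α => False)) = 1 := by
  have : O (fun _ _ : α => False) = Set.pi Set.univ (fun _ : α => Set.Ioo (0:ℝ) 1) := by
    ext x; simp [O, Set.mem_pi]
  rw [this, volume_pi_pi]
  simp

lemma volume_R {n : ℕ} (hn : Fintype.card α = n) (f : α ≃ Fin n) :
    volume (R f) = ((n.factorial : ENNReal))⁻¹ := by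
  classical
  have h := volume_O_eq_sum hn (fun _ _ : α => False)
  rw [volume_cube] at h
  have h2 : ∑ g ∈ LE n (fun _ _ : α => False), volume (R g) = n.factorial * volume (R f) := by
    rw [Finset.sum_congr rfl (fun g _ => volume_R_eq g f), Finset.sum_const, nsmul_eq_mul]
    congr 2
    have : LE n (fun _ _ : α => False) = Finset.univ := by
      ext g; simp [mem_LE]
    rw [this, Finset.card_univ]
    have hc := Fintype.card_equiv f
    rw [hc, hn]
  rw [h2] at h
  exact ENNReal.eq_inv_of_mul_eq_one_left (by rw [mul_comm]; exact h.symm)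

/-- volume formula -/
theorem volume_O {n : ℕ} (hn : Fintype.card α = n) (r : α → α → Prop) :
    volume (O r) = (LE n r).card * ((n.factorial : ENNReal))⁻¹ := by
  rw [volume_O_eq_sum hn, Finset.sum_congr rfl (fun f _ => volume_R hn f), Finset.sum_const,
    nsmul_eq_mul]

end Pool.MP6e
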